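import Pool.Agent.H59.HF.GeoA

/-! MODULE FrA (about 180 lines). Frames. Coordinates: for `E3` use `EuclideanSpace.norm_eq`, `PiLp.inner_apply`, `Fin.sum_univ_three`,
`ext i; fin_cases i`. `crp_props`: Lagrange identity `|p x q|^2 = |p|^2 |q|^2 - <p,q>^2`. `fr_inner`: expand bilinearly, with the inner products of
`p, q, p x q`. `fr_surj`: `Orthonormal ℝ ![p, q, crp p q]`, three orthonormal vectors in dimension 3 are a basis
(`basisOfOrthonormalOfCardEqFinrank` or: the linear map `v -> fr p q v` is injective by `fr_norm`, hence surjective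
`LinearMap.injective_iff_surjective`). -/

open scoped RealInnerProductSpace
open Set

namespace Pool.Agent.H59.HF

variable {p q : E3}

private theorem fra_inner (x y : E3) : ⟪x, y⟫ = x 0 * y 0 + x 1 * y 1 + x 2 * y 2 := by
  simp only [PiLp.inner_apply, Fin.sum_univ_three, RCLike.inner_apply, conj_trivial]
  ring

private theorem fra_norm (x : E3) : ‖x‖ ^ 2 = x 0 ^ 2 + x 1 ^ 2 + x 2 ^ 2 := by
  rw [← real_inner_self_eq_norm_sq, fra_inner]
  ring

theorem crp_props (h : ON p q) : ‖crp p q‖ = 1 ∧ ⟪p, crp p q⟫ = 0 ∧ ⟪q, crp p q⟫ = 0 := by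
  obtain ⟨h1, h2, h3⟩ := h
  have e1 := fra_norm p
  have e2 := fra_norm q
  have e3 := fra_inner p q
  rw [h1] at e1
  rw [h2] at e2
  rw [h3] at e3
  have c0 : crp p q 0 = p 1 * q 2 - p 2 * q 1 := rfl
  have c1 : crp p q 1 = p 2 * q 0 - p 0 * q 2 := rfl
  have c2 : crp p q 2 = p 0 * q 1 - p 1 * q 0 := rfl
  refine ⟨?_, ?_, ?_⟩
  · have h4 : ‖crp p q‖ ^ 2 = 1 := by
      rw [fra_norm, c0, c1, c2]
      have : (p 1 * q 2 - p 2 * q 1) ^ 2 + (p 2 * q 0 - p 0 * q 2) ^ 2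
          + (p 0 * q 1 - p 1 * q 0) ^ 2 = (p 0 ^ 2 + p 1 ^ 2 + p 2 ^ 2) *
          (q 0 ^ 2 + q 1 ^ 2 + q 2 ^ 2) - (p 0 * q 0 + p 1 * q 1 + p 2 * q 2) ^ 2 := by ring
      rw [this, ← e1, ← e2, ← e3]
      norm_num
    have h5 := norm_nonneg (crp p q)
    nlinarith
  · rw [fra_inner, c0, c1, c2]
    ring
  · rw [fra_inner, c0, c1, c2]
    ring

theorem fr_add (v w : E3) : fr p q (v + w) = fr p q v + fr p q w := by
  unfold fr
  simp only [PiLp.add_apply, add_smul]
  abel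

theorem fr_smul (c : ℝ) (v : E3) : fr p q (c • v) = c • fr p q v := by
  unfold fr
  simp only [PiLp.smul_apply, smul_eq_mul, smul_add, smul_smul]

theorem fr_sub (v w : E3) : fr p q (v - w) = fr p q v - fr p q w := by
  unfold fr
  simp only [PiLp.sub_apply, sub_smul]
  abel

theorem fr_inner (h : ON p q) (v w : E3) : ⟪fr p q v, fr p q w⟫ = ⟪v, w⟫ := by
  obtain ⟨c1, c2, c3⟩ := crp_props h
  obtain ⟨h1, h2, h3⟩ := h
  have e1 : ⟪p, p⟫ = 1 := by rw [real_inner_self_eq_norm_sq, h1]; norm_num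
  have e2 : ⟪q, q⟫ = 1 := by rw [real_inner_self_eq_norm_sq, h2]; norm_num
  have e3 : ⟪crp p q, crp p q⟫ = 1 := by rw [real_inner_self_eq_norm_sq, c1]; norm_num
  have e4 : ⟪q, p⟫ = 0 := by rw [real_inner_comm]; exact h3
  have e5 : ⟪crp p q, p⟫ = 0 := by rw [real_inner_comm]; exact c2
  have e6 : ⟪crp p q, q⟫ = 0 := by rw [real_inner_comm]; exact c3
  rw [fra_inner v w]
  unfold fr
  simp only [inner_add_left, inner_add_right, real_inner_smul_left, real_inner_smul_right,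
    e1, e2, e3, e4, e5, e6, h3, c2, c3]
  ring

theorem fr_norm (h : ON p q) (v : E3) : ‖fr p q v‖ = ‖v‖ := by
  have h1 : ‖fr p q v‖ ^ 2 = ‖v‖ ^ 2 := by
    rw [← real_inner_self_eq_norm_sq, ← real_inner_self_eq_norm_sq, fr_inner h]
  exact (pow_left_inj₀ (norm_nonneg _) (norm_nonneg _) two_ne_zero).1 h1

theorem fr_inj (h : ON p q) {v w : E3} (e : fr p q v = fr p q w) : v = w := by
  have h1 : ‖v - w‖ = 0 := by
    rw [← fr_norm h, fr_sub, e, sub_self, norm_zero]
  exact sub_eq_zero.1 (norm_eq_zero.1 h1)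

theorem fr_surj (h : ON p q) (x : E3) : ∃ v, fr p q v = x := by
  let L : E3 →ₗ[ℝ] E3 :=
    { toFun := fr p q
      map_add' := fr_add
      map_smul' := fr_smul }
  have hi : Function.Injective L := fun v w e => fr_inj h e
  exact LinearMap.injective_iff_surjective.1 hi x

theorem fr_eqt (x : ℝ) : fr p q (eqt x) = Real.cos x • p + Real.sin x • q := by
  have e0 : (eqt x) 0 = Real.cos x := rfl
  have e1 : (eqt x) 1 = Real.sin x := rfl
  have e2 : (eqt x) 2 = 0 := rfl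
  unfold fr
  rw [e0, e1, e2, zero_smul, add_zero]

theorem fr_vec (a b c : ℝ) : fr p q !₂[a, b, c] = a • p + b • q + c • crp p q := rfl

private theorem fra_coord (i : Fin 3) : Continuous fun x : E3 => x i :=
  (continuous_apply i).comp (PiLp.continuous_ofLp 2 _)

private theorem fra_crp : Continuous fun z : E3 × E3 => crp z.1 z.2 := by
  have h1 : ∀ i, Continuous fun z : E3 × E3 => z.1 i := fun i => (fra_coord i).comp continuous_fst
  have h2 : ∀ i, Continuous fun z : E3 × E3 => z.2 i := fun i => (fra_coord i).comp continuous_snd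
  refine (PiLp.continuous_toLp 2 _).comp (continuous_pi fun i => ?_)
  fin_cases i
  · exact ((h1 1).mul (h2 2)).sub ((h1 2).mul (h2 1))
  · exact ((h1 2).mul (h2 0)).sub ((h1 0).mul (h2 2))
  · exact ((h1 0).mul (h2 1)).sub ((h1 1).mul (h2 0))

theorem fr_cont : Continuous fun z : E3 × E3 × E3 => fr z.1 z.2.1 z.2.2 := by
  have h1 : Continuous fun z : E3 × E3 × E3 => z.1 := continuous_fst
  have h2 : Continuous fun z : E3 × E3 × E3 => z.2.1 := continuous_fst.comp continuous_snd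
  have h3 : ∀ i, Continuous fun z : E3 × E3 × E3 => z.2.2 i :=
    fun i => (fra_coord i).comp (continuous_snd.comp continuous_snd)
  exact (((h3 0).smul h1).add ((h3 1).smul h2)).add ((h3 2).smul (fra_crp.comp (h1.prodMk h2)))

theorem Geo.fr {δ : ℝ → E3} {s t : ℝ} (h : Geo δ s t) (hpq : ON p q) :
    Geo (fun x => fr p q (δ x)) s t := by
  obtain ⟨a, b, h1, h2, h3, h4⟩ := h
  refine ⟨HF.fr p q a, HF.fr p q b, ?_, ?_, ?_, fun x hx => ?_⟩
  · rw [fr_norm hpq, h1]
  · rw [fr_norm hpq, h2]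
  · rw [fr_inner hpq, h3]
  · change HF.fr p q (δ x) = _
    rw [h4 x hx, fr_add, fr_smul, fr_smul]

theorem eqt_norm (x : ℝ) : ‖eqt x‖ = 1 := by
  have e0 : (eqt x) 0 = Real.cos x := rfl
  have e1 : (eqt x) 1 = Real.sin x := rfl
  have e2 : (eqt x) 2 = 0 := rfl
  have h1 : ‖eqt x‖ ^ 2 = 1 := by
    rw [fra_norm, e0, e1, e2]
    nlinarith [Real.sin_sq_add_cos_sq x]
  have h2 := norm_nonneg (eqt x)
  nlinarith

theorem eqt_dist (x y : ℝ) : ‖eqt x - eqt y‖ ≤ |x - y| := by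
  have e0 : (eqt x - eqt y) 0 = Real.cos x - Real.cos y := rfl
  have e1 : (eqt x - eqt y) 1 = Real.sin x - Real.sin y := rfl
  have e2 : (eqt x - eqt y) 2 = 0 - 0 := rfl
  have h1 : ‖eqt x - eqt y‖ ^ 2 ≤ |x - y| ^ 2 := by
    rw [fra_norm, e0, e1, e2, sq_abs]
    have h3 := Real.one_sub_sq_div_two_le_cos (x := x - y)
    rw [Real.cos_sub] at h3
    nlinarith [Real.sin_sq_add_cos_sq x, Real.sin_sq_add_cos_sq y]
  exact (pow_le_pow_iff_left₀ (norm_nonneg _) (abs_nonneg _) two_ne_zero).1 h1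

end Pool.Agent.H59.HF
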