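import Pool.Agent.H59.HF.ConnA
import Pool.Agent.H59.HF.FrA

/-! MODULE Base (about 160 lines). Two geodesic arcs of the same length `S < pi` are joined.

Write `arc p q x = cos x p + sin x q`. If `p_t, q_t` (`t` in `[0,1]`) are continuous and orthonormal, then `Γ t x = arc (p_t) (q_t) x` is a path (`conn_of_frames`:
`B = ∅`, `Geo.injOn`). `rot1`: fixed `p`, `q` and `q'` orthogonal to `p`: `q' = cos f q + sin f (p x q)` (`fr_surj`: coordinates `(0, Y, Z)` with
`Y^2 + Z^2 = 1`, choose the angle `f`, for example `Complex.arg`), take `q_t = cos (t f) q + sin (t f) (p x q)`. `slide`: `p' = cos f p + sin f q1`,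
`p_t = cos (t f) p + sin (t f) q1`, `q_t = - sin (t f) p + cos (t f) q1`. General case: given `(p,q)`, `(p',q')`; write `p' = X p + w` with `w`
orthogonal to `p`; if `w = 0` take `q1 = q`, else `q1 = w / |w|`; in both cases `p' = cos f p + sin f q1` for some `f`. Then
`(p,q) -> (p,q1) -> (p', q1') -> (p',q')` by `rot1`, `slide`, `rot1`, with `q1' = - sin f p + cos f q1`. -/

open scoped RealInnerProductSpace
open Set

namespace Pool.Agent.H59.HF

/-- the geodesic with initial position `p` and direction `q` -/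
noncomputable def arc (p q : E3) (x : ℝ) : E3 := Real.cos x • p + Real.sin x • q

/-- every unit vector of the plane has an angle -/
theorem exists_angle {Y Z : ℝ} (h : Y ^ 2 + Z ^ 2 = 1) : ∃ f : ℝ, Real.cos f = Y ∧ Real.sin f = Z := by
  have hz : ‖(⟨Y, Z⟩ : ℂ)‖ = 1 := by
    rw [Complex.norm_def, Complex.normSq_mk, Real.sqrt_eq_one]
    nlinarith
  have h0 : (⟨Y, Z⟩ : ℂ) ≠ 0 := by
    intro h1
    rw [h1, norm_zero] at hz
    exact zero_ne_one hz
  refine ⟨Complex.arg ⟨Y, Z⟩, ?_, ?_⟩
  · rw [Complex.cos_arg h0, hz, div_one]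
  · rw [Complex.sin_arg, hz, div_one]

private theorem base_norm {p q : E3} (h : ON p q) {a b : ℝ} (hab : a ^ 2 + b ^ 2 = 1) :
    ‖a • p + b • q‖ = 1 := by
  have h1 : ‖a • p + b • q‖ ^ 2 = 1 := by
    rw [← real_inner_self_eq_norm_sq, inner_add_left, inner_add_right, inner_add_right,
      real_inner_smul_left, real_inner_smul_left, real_inner_smul_left, real_inner_smul_left,
      real_inner_smul_right, real_inner_smul_right, real_inner_smul_right,
      real_inner_smul_right, real_inner_comm p q, h.2.2, real_inner_self_eq_norm_sq,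
      real_inner_self_eq_norm_sq, h.1, h.2.1]
    linarith
  have h2 := norm_nonneg (a • p + b • q)
  nlinarith

private theorem base_inner {p q : E3} (h : ON p q) (a b c d : ℝ) :
    ⟪a • p + b • q, c • p + d • q⟫ = a * c + b * d := by
  rw [inner_add_left, inner_add_right, inner_add_right,
      real_inner_smul_left, real_inner_smul_left, real_inner_smul_left, real_inner_smul_left,
      real_inner_smul_right, real_inner_smul_right, real_inner_smul_right,
      real_inner_smul_right, real_inner_comm p q, h.2.2, real_inner_self_eq_norm_sq,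
      real_inner_self_eq_norm_sq, h.1, h.2.1]
  ring

private theorem base_on {p q : E3} (h : ON p q) (f : ℝ) :
    ON (Real.cos f • p + Real.sin f • q) (-Real.sin f • p + Real.cos f • q) := by
  have h1 := Real.sin_sq_add_cos_sq f
  refine ⟨base_norm h (by linarith), base_norm h (by nlinarith), ?_⟩
  rw [base_inner h]
  ring

theorem conn_of_frames {S : ℝ} (hS : S < Real.pi) {P Q : ℝ → E3}
    (hP : ContinuousOn P (Icc 0 1)) (hQ : ContinuousOn Q (Icc 0 1))
    (hon : ∀ t ∈ Icc (0 : ℝ) 1, ON (P t) (Q t)) :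
    Conn S (arc (P 0) (Q 0)) (arc (P 1) (Q 1)) := by
  have hG : ∀ t ∈ Icc (0 : ℝ) 1, Geo (arc (P t) (Q t)) 0 S := fun t ht =>
    Geo.of_eq (hon t ht) fun x _ => by rw [sub_zero]; rfl
  refine ⟨∅, fun t x => arc (P t) (Q t) x, ?_, ?_, ?_, fun s _ => rfl, fun s _ => rfl⟩
  · have h1 : ContinuousOn (fun z : ℝ × ℝ => Real.cos z.2 • P z.1) (Icc 0 1 ×ˢ Icc 0 S) :=
      (Real.continuous_cos.comp continuous_snd).continuousOn.smul
        (hP.comp continuousOn_fst fun z hz => hz.1)
    have h2 : ContinuousOn (fun z : ℝ × ℝ => Real.sin z.2 • Q z.1) (Icc 0 1 ×ˢ Icc 0 S) :=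
      (Real.continuous_sin.comp continuous_snd).continuousOn.smul
        (hQ.comp continuousOn_fst fun z hz => hz.1)
    exact h1.add h2
  · intro t ht
    exact (hG t ht).injOn (by linarith [Real.pi_pos])
  · intro t ht s' t' h0 _ h2 _
    exact (hG t ht).sub h0 h2

theorem conn_rot {S : ℝ} (hS : S < Real.pi) {p q q' : E3} (h : ON p q) (h' : ON p q') :
    Conn S (arc p q) (arc p q') := by
  obtain ⟨v, hv⟩ := fr_surj h q'
  obtain ⟨c1, c2, c3⟩ := crp_props h
  have hp : fr p q !₂[1, 0, 0] = p := by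
    rw [fr_vec, one_smul, zero_smul, zero_smul, add_zero, add_zero]
  have h0 : v 0 = 0 := by
    have h1 := fr_inner h !₂[1, 0, 0] v
    rw [hp, hv, h'.2.2] at h1
    rw [PiLp.inner_apply, Fin.sum_univ_three] at h1
    simpa using h1.symm
  have h1 : v 1 ^ 2 + v 2 ^ 2 = 1 := by
    have h2 := fr_norm h v
    rw [hv, h'.2.1, EuclideanSpace.norm_eq, Fin.sum_univ_three, h0] at h2
    have h3 := (Real.sqrt_eq_one).1 h2.symm
    simpa using h3
  obtain ⟨f, hf1, hf2⟩ := exists_angle h1
  have hqc : ON q (crp p q) := ⟨h.2.1, c1, c3⟩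
  have key := conn_of_frames hS (P := fun _ => p)
    (Q := fun t => Real.cos (t * f) • q + Real.sin (t * f) • crp p q) continuousOn_const
    (by
      refine Continuous.continuousOn ?_
      exact ((Real.continuous_cos.comp (continuous_id.mul continuous_const)).smul
        continuous_const).add ((Real.continuous_sin.comp
          (continuous_id.mul continuous_const)).smul continuous_const))
    (fun t _ => ⟨h.1, (base_on hqc (t * f)).1, by
      rw [inner_add_right, real_inner_smul_right, real_inner_smul_right, h.2.2, c2]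
      ring⟩)
  have e0 : Real.cos (0 * f) • q + Real.sin (0 * f) • crp p q = q := by simp
  have e1 : Real.cos (1 * f) • q + Real.sin (1 * f) • crp p q = q' := by
    rw [one_mul, hf1, hf2, ← hv]
    unfold fr
    rw [h0, zero_smul, zero_add]
  simp only [e0, e1] at key
  exact key

theorem conn_slide {S : ℝ} (hS : S < Real.pi) {p q : E3} (h : ON p q) (f : ℝ) :
    Conn S (arc p q) (arc (Real.cos f • p + Real.sin f • q) (-Real.sin f • p + Real.cos f • q)) := by
  have hc : Continuous fun t : ℝ => Real.cos (t * f) :=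
    Real.continuous_cos.comp (continuous_id.mul continuous_const)
  have hs : Continuous fun t : ℝ => Real.sin (t * f) :=
    Real.continuous_sin.comp (continuous_id.mul continuous_const)
  have key := conn_of_frames hS
    (P := fun t => Real.cos (t * f) • p + Real.sin (t * f) • q)
    (Q := fun t => -Real.sin (t * f) • p + Real.cos (t * f) • q)
    ((hc.smul continuous_const).add (hs.smul continuous_const)).continuousOn
    ((hs.neg.smul continuous_const).add (hc.smul continuous_const)).continuousOn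
    (fun t _ => base_on h (t * f))
  simpa using key

theorem conn_arc {S : ℝ} (hS : S < Real.pi) {p q p' q' : E3} (h : ON p q) (h' : ON p' q') :
    Conn S (arc p q) (arc p' q') := by
  obtain ⟨q1, f, hq1, hf⟩ : ∃ (q1 : E3) (f : ℝ), ON p q1 ∧
      p' = Real.cos f • p + Real.sin f • q1 := by
    obtain ⟨X, hX⟩ : ∃ X : ℝ, X = ⟪p, p'⟫ := ⟨_, rfl⟩
    obtain ⟨w, hw⟩ : ∃ w : E3, w = p' - X • p := ⟨_, rfl⟩
    have hp' : p' = X • p + w := by rw [hw]; abel
    have hpw : ⟪p, w⟫ = 0 := by
      rw [hw, inner_sub_right, real_inner_smul_right, ← hX, real_inner_self_eq_norm_sq, h.1]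
      ring
    have hsq : X ^ 2 + ‖w‖ ^ 2 = 1 := by
      have h1 : ‖p'‖ ^ 2 = 1 := by rw [h'.1, one_pow]
      rw [hp', ← real_inner_self_eq_norm_sq, inner_add_left, inner_add_right, inner_add_right,
        real_inner_smul_left, real_inner_smul_left, real_inner_smul_right,
        real_inner_smul_right, real_inner_comm p w, hpw, real_inner_self_eq_norm_sq,
        real_inner_self_eq_norm_sq, h.1] at h1
      linarith
    obtain ⟨f, hf1, hf2⟩ := exists_angle hsq
    by_cases hw0 : w = 0
    · refine ⟨q, f, h, ?_⟩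
      rw [hf1, hf2, hw0, norm_zero, zero_smul, add_zero]
      rw [hw0, add_zero] at hp'
      exact hp'
    · have hn : ‖w‖ ≠ 0 := norm_ne_zero_iff.2 hw0
      refine ⟨‖w‖⁻¹ • w, f, ⟨h.1, ?_, ?_⟩, ?_⟩
      · rw [norm_smul, norm_inv, norm_norm, inv_mul_cancel₀ hn]
      · rw [real_inner_smul_right, hpw, mul_zero]
      · rw [hf1, hf2, smul_smul, mul_inv_cancel₀ hn, one_smul]
        exact hp'
  have h1 := conn_rot hS h hq1
  have h2 := conn_slide hS hq1 f
  have h3 := base_on hq1 f
  rw [← hf] at h2 h3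
  exact (h1.trans h2).trans (conn_rot hS h3 h')

theorem conn_geo {S : ℝ} (hS : S < Real.pi) {γ γ' : ℝ → E3} (h : Geo γ 0 S) (h' : Geo γ' 0 S) :
    Conn S γ γ' := by
  obtain ⟨p, q, hp, hq, hpq, he⟩ := h
  obtain ⟨p', q', hp', hq', hpq', he'⟩ := h'
  refine (conn_arc hS ⟨hp, hq, hpq⟩ ⟨hp', hq', hpq'⟩).congr (fun x hx => ?_) fun x hx => ?_
  · rw [he x hx, sub_zero]
    rfl
  · rw [he' x hx, sub_zero]
    rfl

end Pool.Agent.H59.HF
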