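import Pool.Agent.H59.HF.PGA

/-! MODULE ConnA (about 120 lines). `Conn` is an equivalence relation.

`trans`: breakpoints `B ∪ B'` (`PG.mono`), family `if t <= 1/2 then Γ (2 t) else Γ' (2 t - 1)`; continuity: `ContinuousOn.union_of_isClosed`-like
argument or `ContinuousOn.if`; the two formulas agree at `t = 1/2` on `[0,S]`. `symm`: `Γ (1 - t)`. -/

open scoped RealInnerProductSpace
open Set

namespace Pool.Agent.H59.HF

variable {γ γ' γ'' δ δ' : ℝ → E3} {S : ℝ} {B : Finset ℝ}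

theorem Conn.refl (hi : InjOn γ (Icc 0 S)) (hp : PG B S γ) : Conn S γ γ := by
  refine ⟨B, fun _ => γ, ?_, fun _ _ => hi, fun _ _ => hp, fun _ _ => rfl, fun _ _ => rfl⟩
  exact hp.cont.comp continuousOn_snd fun z hz => hz.2

theorem Conn.symm (h : Conn S γ γ') : Conn S γ' γ := by
  obtain ⟨B, Γ, h⟩ := h
  have hm : ∀ t ∈ Icc (0 : ℝ) 1, 1 - t ∈ Icc (0 : ℝ) 1 := fun t ht =>
    ⟨by linarith [ht.2], by linarith [ht.1]⟩
  refine ⟨B, fun t => Γ (1 - t), ?_, fun t ht => h.inj _ (hm t ht), fun t ht => h.pg _ (hm t ht),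
    fun s hs => ?_, fun s hs => ?_⟩
  · have hc : ContinuousOn (fun z : ℝ × ℝ => ((1 - z.1, z.2) : ℝ × ℝ)) (Icc 0 1 ×ˢ Icc 0 S) := by
      fun_prop
    exact h.cont.comp hc fun z hz => ⟨hm _ hz.1, hz.2⟩
  · simp only [sub_zero]
    exact h.one s hs
  · simp only [sub_self]
    exact h.zero s hs

theorem Conn.trans (h : Conn S γ γ') (h' : Conn S γ' γ'') : Conn S γ γ'' := by
  classical
  obtain ⟨B, Γ, h⟩ := h
  obtain ⟨B', Γ', h'⟩ := h'
  have hm : ∀ t ∈ Icc (0 : ℝ) (1 / 2), 2 * t ∈ Icc (0 : ℝ) 1 := fun t ht =>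
    ⟨by linarith [ht.1], by linarith [ht.2]⟩
  have hm' : ∀ t ∈ Icc (1 / 2 : ℝ) 1, 2 * t - 1 ∈ Icc (0 : ℝ) 1 := fun t ht =>
    ⟨by linarith [ht.1], by linarith [ht.2]⟩
  have e1 : ∀ t ∈ Icc (0 : ℝ) (1 / 2), ∀ s,
      (if t ≤ 1 / 2 then Γ (2 * t) s else Γ' (2 * t - 1) s) = Γ (2 * t) s := by
    intro t ht s
    rw [if_pos ht.2]
  have e2 : ∀ t ∈ Icc (1 / 2 : ℝ) 1, ∀ s ∈ Icc (0 : ℝ) S,
      (if t ≤ 1 / 2 then Γ (2 * t) s else Γ' (2 * t - 1) s) = Γ' (2 * t - 1) s := by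
    intro t ht s hs
    split_ifs with h1
    · have h2 : t = 1 / 2 := le_antisymm h1 ht.1
      have h3 : 2 * t = 1 := by rw [h2]; norm_num
      rw [h3, sub_self, h.one s hs, h'.zero s hs]
    · rfl
  have hcase : ∀ t ∈ Icc (0 : ℝ) 1, t ∈ Icc (0 : ℝ) (1 / 2) ∨ t ∈ Icc (1 / 2 : ℝ) 1 := by
    intro t ht
    rcases le_total t (1 / 2) with h1 | h1
    · exact Or.inl ⟨ht.1, h1⟩
    · exact Or.inr ⟨h1, ht.2⟩
  refine ⟨B ∪ B', fun t s => if t ≤ 1 / 2 then Γ (2 * t) s else Γ' (2 * t - 1) s,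
    ?_, ?_, ?_, ?_, ?_⟩
  · have hU : (Icc 0 1 ×ˢ Icc 0 S : Set (ℝ × ℝ)) ⊆
        (Icc 0 (1 / 2) ×ˢ Icc 0 S) ∪ (Icc (1 / 2) 1 ×ˢ Icc 0 S) := by
      rintro z ⟨hz1, hz2⟩
      rcases hcase z.1 hz1 with h1 | h1
      · exact Or.inl ⟨h1, hz2⟩
      · exact Or.inr ⟨h1, hz2⟩
    refine ContinuousOn.mono ?_ hU
    refine ContinuousOn.union_of_isClosed ?_ ?_ (isClosed_Icc.prod isClosed_Icc)
      (isClosed_Icc.prod isClosed_Icc)
    · have hc : ContinuousOn (fun z : ℝ × ℝ => ((2 * z.1, z.2) : ℝ × ℝ))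
          (Icc 0 (1 / 2) ×ˢ Icc 0 S) := by
        fun_prop
      refine (h.cont.comp hc fun z hz => ⟨hm _ hz.1, hz.2⟩).congr ?_
      intro z hz
      exact e1 z.1 hz.1 z.2
    · have hc : ContinuousOn (fun z : ℝ × ℝ => ((2 * z.1 - 1, z.2) : ℝ × ℝ))
          (Icc (1 / 2) 1 ×ˢ Icc 0 S) := by
        fun_prop
      refine (h'.cont.comp hc fun z hz => ⟨hm' _ hz.1, hz.2⟩).congr ?_
      intro z hz
      exact e2 z.1 hz.1 z.2 hz.2
  · intro t ht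
    rcases hcase t ht with h1 | h1
    · exact (h.inj _ (hm t h1)).congr fun s hs => (e1 t h1 s).symm
    · exact (h'.inj _ (hm' t h1)).congr fun s hs => (e2 t h1 s hs).symm
  · intro t ht
    rcases hcase t ht with h1 | h1
    · exact ((h.pg _ (hm t h1)).mono Finset.subset_union_left).congr fun s hs => e1 t h1 s
    · exact ((h'.pg _ (hm' t h1)).mono Finset.subset_union_right).congr fun s hs => e2 t h1 s hs
  · intro s hs
    have h1 := e1 0 ⟨le_rfl, by norm_num⟩ s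
    refine h1.trans ?_
    rw [mul_zero]
    exact h.zero s hs
  · intro s hs
    have h1 := e2 1 ⟨by norm_num, le_rfl⟩ s hs
    have h2 : (2 * 1 - 1 : ℝ) = 1 := by norm_num
    refine h1.trans ?_
    rw [h2]
    exact h'.one s hs

theorem Conn.congr (h : Conn S γ γ') (e : ∀ x ∈ Icc 0 S, δ x = γ x)
    (e' : ∀ x ∈ Icc 0 S, δ' x = γ' x) : Conn S δ δ' := by
  obtain ⟨B, Γ, h⟩ := h
  exact ⟨B, Γ, h.cont, h.inj, h.pg, fun s hs => (h.zero s hs).trans (e s hs).symm,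
    fun s hs => (h.one s hs).trans (e' s hs).symm⟩

/-- both ends of a path are injective and piecewise geodesic -/
theorem APath.left {Γ : ℝ → ℝ → E3} (h : APath S B Γ γ γ') : InjOn γ (Icc 0 S) ∧ PG B S γ := by
  have h0 : (0 : ℝ) ∈ Icc (0 : ℝ) 1 := ⟨le_rfl, zero_le_one⟩
  exact ⟨(h.inj 0 h0).congr h.zero, (h.pg 0 h0).congr fun x hx => (h.zero x hx).symm⟩

theorem APath.right {Γ : ℝ → ℝ → E3} (h : APath S B Γ γ γ') :
    InjOn γ' (Icc 0 S) ∧ PG B S γ' := by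
  have h0 : (1 : ℝ) ∈ Icc (0 : ℝ) 1 := ⟨zero_le_one, le_rfl⟩
  exact ⟨(h.inj 1 h0).congr h.one, (h.pg 1 h0).congr fun x hx => (h.one x hx).symm⟩

end Pool.Agent.H59.HF
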