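import Pool.Agent.H59.HF.PGA
import Pool.Agent.H59.HF.FrA

/-! MODULE TgA (about 130 lines). The tangent at the end of a geodesic piece.

`Geo γ w v` with pair `p0, q0` at `w`: `γ v = cos d p0 + sin d q0`, `d = v - w`, `0 < d < pi`; the tangent at `v` is `- sin d p0 + cos d q0`; compute
`(cos d γ v - γ w) / sin d = ((cos d^2 - 1) p0 + cos d sin d q0) / sin d`. `tg_back`: `γ (v - r) = cos r γ v - sin r tg`, `0 <= r <= d`.
`tg_fwd`: if the geodesic goes on to `T` then `γ (v + r) = cos r γ v + sin r tg`. `tg_indep`: `tg γ w v = tg γ w' v` (`w < w' < v`, geodesic on `[w,v]`).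
`tg_cont`: for a family. -/

open scoped RealInnerProductSpace
open Set

namespace Pool.Agent.H59.HF

/-- the direction of `γ` at `v`, computed from `γ w` and `γ v` -/
noncomputable def tg (γ : ℝ → E3) (w v : ℝ) : E3 :=
  (1 / Real.sin (v - w)) • (Real.cos (v - w) • γ v - γ w)

variable {γ : ℝ → E3} {w w' v T : ℝ}

private theorem tga_in {p q : E3} (hp : ‖p‖ = 1) (hq : ‖q‖ = 1) (hpq : ⟪p, q⟫ = 0)
    (a b a' b' : ℝ) : ⟪a • p + b • q, a' • p + b' • q⟫ = a * a' + b * b' := by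
  have h1 : ⟪p, p⟫ = 1 := by rw [real_inner_self_eq_norm_sq, hp]; norm_num
  have h2 : ⟪q, q⟫ = 1 := by rw [real_inner_self_eq_norm_sq, hq]; norm_num
  have h3 : ⟪q, p⟫ = 0 := by rw [real_inner_comm]; exact hpq
  simp only [inner_add_left, inner_add_right, real_inner_smul_left, real_inner_smul_right, h1, h2,
    h3, hpq]
  ring

private theorem tga_nm {p q : E3} (hp : ‖p‖ = 1) (hq : ‖q‖ = 1) (hpq : ⟪p, q⟫ = 0)
    {a b : ℝ} (h : a ^ 2 + b ^ 2 = 1) : ‖a • p + b • q‖ = 1 := by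
  have h1 := tga_in hp hq hpq a b a b
  rw [real_inner_self_eq_norm_sq] at h1
  have h2 : ‖a • p + b • q‖ ^ 2 = 1 := by rw [h1]; nlinarith
  nlinarith [norm_nonneg (a • p + b • q)]

private theorem tga_eq {p q : E3} (h1 : w < v) (h2 : v - w < Real.pi) (hv : v ≤ T)
    (e : ∀ x ∈ Icc w T, γ x = Real.cos (x - w) • p + Real.sin (x - w) • q) :
    tg γ w v = (- Real.sin (v - w)) • p + Real.cos (v - w) • q := by
  have hs : Real.sin (v - w) ≠ 0 := (Real.sin_pos_of_pos_of_lt_pi (by linarith) h2).ne'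
  rw [tg, e v ⟨h1.le, hv⟩, e w ⟨le_rfl, h1.le.trans hv⟩, sub_self, Real.cos_zero, Real.sin_zero,
    zero_smul, add_zero, one_smul]
  have h3 : Real.cos (v - w) • (Real.cos (v - w) • p + Real.sin (v - w) • q) - p
      = Real.sin (v - w) • ((- Real.sin (v - w)) • p + Real.cos (v - w) • q) := by
    have h4 : Real.cos (v - w) ^ 2 = 1 - Real.sin (v - w) ^ 2 := by
      have := Real.sin_sq_add_cos_sq (v - w)
      linarith
    have h5 : Real.cos (v - w) • (Real.cos (v - w) • p + Real.sin (v - w) • q) - p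
      = (Real.cos (v - w) ^ 2 - 1) • p + (Real.cos (v - w) * Real.sin (v - w)) • q := by
      module
    rw [h5, h4]
    module
  rw [h3, smul_smul, one_div, inv_mul_cancel₀ hs, one_smul]

theorem tg_on (hg : Geo γ w v) (h1 : w < v) (h2 : v - w < Real.pi) : ON (γ v) (tg γ w v) := by
  obtain ⟨p, q, hp, hq, hpq, e⟩ := hg
  have ev := e v ⟨h1.le, le_rfl⟩
  rw [tga_eq h1 h2 le_rfl e, ev]
  have h3 := Real.sin_sq_add_cos_sq (v - w)
  refine ⟨tga_nm hp hq hpq (by linarith), tga_nm hp hq hpq (by nlinarith), ?_⟩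
  rw [tga_in hp hq hpq]
  ring

theorem tg_back (hg : Geo γ w v) (h1 : w < v) (h2 : v - w < Real.pi) {s : ℝ}
    (hs : s ∈ Icc w v) :
    γ s = Real.cos (v - s) • γ v - Real.sin (v - s) • tg γ w v := by
  obtain ⟨p, q, hp, hq, hpq, e⟩ := hg
  rw [tga_eq h1 h2 le_rfl e, e v ⟨h1.le, le_rfl⟩, e s hs]
  have h3 : s - w = (v - w) - (v - s) := by ring
  have h4 := Real.cos_sub (v - w) (v - s)
  have h5 := Real.sin_sub (v - w) (v - s)
  rw [← h3] at h4 h5
  rw [h4, h5]
  module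

theorem tg_fwd (hg : Geo γ w T) (h1 : w < v) (h2 : v - w < Real.pi) (hT : v ≤ T) {s : ℝ}
    (hs : s ∈ Icc v T) :
    γ s = Real.cos (s - v) • γ v + Real.sin (s - v) • tg γ w v := by
  obtain ⟨p, q, hp, hq, hpq, e⟩ := hg
  rw [tga_eq h1 h2 hT e, e v ⟨h1.le, hT⟩, e s ⟨h1.le.trans hs.1, hs.2⟩]
  have h3 : s - w = (v - w) + (s - v) := by ring
  have h4 := Real.cos_add (v - w) (s - v)
  have h5 := Real.sin_add (v - w) (s - v)
  rw [← h3] at h4 h5
  rw [h4, h5]
  module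

theorem tg_cont {L : ℝ → ℝ → E3}
    (hLc : ContinuousOn (fun z : ℝ × ℝ => L z.1 z.2) (Icc 0 1 ×ˢ Icc 0 v)) (hw : 0 ≤ w)
    (h1 : w < v) : ContinuousOn (fun t => tg (L t) w v) (Icc 0 1) := by
  have h : ∀ x ∈ Icc 0 v, ContinuousOn (fun t => L t x) (Icc 0 1) := fun x hx =>
    hLc.comp (f := fun t : ℝ => (t, x)) (continuousOn_id.prodMk continuousOn_const)
      fun t ht => ⟨ht, hx⟩
  unfold tg
  have hv' := h v ⟨hw.trans h1.le, le_rfl⟩
  have hw' := h w ⟨hw, h1.le⟩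
  have h3 : ContinuousOn (fun t => Real.cos (v - w) • L t v) (Icc 0 1) :=
    hv'.const_smul (Real.cos (v - w))
  exact (h3.sub hw').const_smul (1 / Real.sin (v - w))

/-- points of the geodesic before `v` are not on the positive side of the frame at `v` -/
theorem ne_of_pos (hg : Geo γ w v) (h1 : w < v) (h2 : v - w < Real.pi) {s : ℝ}
    (hs : s ∈ Icc w v) {z : E3} (hz : 0 < z 1) : γ s ≠ fr (γ v) (tg γ w v) z := by
  intro e
  have hon := tg_on hg h1 h2
  have hc := crp_props hon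
  rw [tg_back hg h1 h2 hs, fr] at e
  have e2 := congrArg (fun y => ⟪tg γ w v, y⟫) e
  have h3 : ⟪tg γ w v, tg γ w v⟫ = 1 := by rw [real_inner_self_eq_norm_sq, hon.2.1]; norm_num
  have h4 : ⟪tg γ w v, γ v⟫ = 0 := by rw [real_inner_comm]; exact hon.2.2
  simp only [inner_sub_right, inner_add_right, real_inner_smul_right, h3, h4, hc.2.2] at e2
  have h5 : 0 ≤ Real.sin (v - s) :=
    Real.sin_nonneg_of_nonneg_of_le_pi (by linarith [hs.2]) (by linarith [hs.1])
  linarith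

end Pool.Agent.H59.HF
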