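import Pool.Agent.H59.HF.ZigB

/-! MODULE ZigC (about 180 lines). The zigzag is injective and stays on the positive side.

Put `c = zc h lam`, `s = zs h lam`, `X = c v_0 - s v_2`, `Y = v_1` for a point `v` (coordinates before the rotation): the vertex `zw k` has
`X = c cos k lam`, `Y = c sin k lam` (compute: `c (c^2 C + e s^2) - s (s c (e - C)) = c (c^2 + s^2) C`). By `zig_seg`, on segment `j` the pair `(X, Y)` of
`zig x` is `c (A e(j lam) + A' e((j+1) lam))` with `e(t) = (cos t, sin t)`, `A, A' >= 0`, not both zero.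
For `x < x'`, `x` in `[j h, (j+1) h)`, `x'` in `(k h, (k+1) h]`, `j <= k`, the determinant `X Y' - Y X'` is positive: if `j = k` it is
`c^2 (A B' - A' B) sin lam` and `A B' - A' B = sin (x' - x) / sin h` (`sin (h-x) sin x' - sin x sin (h-x') = sin h sin (x'-x)` for local coordinates);
if `j < k` it is `c^2` times the sum of `A B sin ((k-j) lam)`, `A B' sin ((k+1-j) lam)`, `A' B sin ((k-1-j) lam)`, `A' B' sin ((k-j) lam)`, all terms are
`>= 0` because `M lam <= M h < pi`, and the second is positive. So different points have different images.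
`zig_pos`: `Y > 0`: all the `sin (k lam)`, `k <= M`, are `>= 0`, `> 0` for `k >= 1`, and some hat with `k >= 1` is positive at `x > 0`
(take `k` with `k h < x <= (k+1) h`). -/

open scoped RealInnerProductSpace
open Set

namespace Pool.Agent.H59.HF

variable {h lam x : ℝ} {M : ℕ}

theorem exists_seg_right (hx : x ∈ Ioc 0 (M * h)) :
    ∃ k < M, x ∈ Ioc (k * h) ((k + 1) * h) := by
  induction M with
  | zero =>
    have := hx.2
    simp only [Nat.cast_zero, zero_mul] at this
    exact absurd (lt_of_lt_of_le hx.1 this) (lt_irrefl 0)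
  | succ n ih =>
    rcases le_or_gt x (n * h) with h1 | h1
    · obtain ⟨k, hk, hk'⟩ := ih ⟨hx.1, h1⟩
      exact ⟨k, by omega, hk'⟩
    · refine ⟨n, by omega, h1, ?_⟩
      have := hx.2
      push_cast at this
      exact this

theorem exists_seg_left (hx : x ∈ Ico 0 (M * h)) :
    ∃ k < M, x ∈ Ico (k * h) ((k + 1) * h) := by
  induction M with
  | zero =>
    have := hx.2
    simp only [Nat.cast_zero, zero_mul] at this
    exact absurd (lt_of_le_of_lt hx.1 this) (lt_irrefl 0)
  | succ n ih =>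
    rcases lt_or_ge x (n * h) with h1 | h1
    · obtain ⟨k, hk, hk'⟩ := ih ⟨hx.1, h1⟩
      exact ⟨k, by omega, hk'⟩
    · refine ⟨n, by omega, h1, ?_⟩
      have := hx.2
      push_cast at this
      exact this

theorem zw_one (h lam : ℝ) (k : ℕ) : zw h lam k 1 = zc h lam * Real.sin (k * lam) := by
  simp [zw]

theorem zw_X (hl : 0 < lam) (hle : lam ≤ h) (hπ : h < Real.pi) (k : ℕ) :
    zc h lam * zw h lam k 0 - zs h lam * zw h lam k 2 = zc h lam * Real.cos (k * lam) := by
  have h1 := zs_sq hl hle hπ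
  have e0 : zw h lam k 0 = zc h lam ^ 2 * Real.cos (k * lam) + (-1) ^ k * zs h lam ^ 2 := by
    simp [zw]
  have e2 : zw h lam k 2 = zs h lam * zc h lam * ((-1) ^ k - Real.cos (k * lam)) := by
    simp [zw]
  rw [e0, e2]
  linear_combination (zc h lam * Real.cos (k * lam)) * h1

theorem sin_mul_pos (hl : 0 < lam) (hle : lam ≤ h) (hMh : M * h < Real.pi) {i : ℕ} (hi : 0 < i)
    (hiM : i ≤ M) : 0 < Real.sin (i * lam) := by
  have h1 : (0 : ℝ) < i := by exact_mod_cast hi
  have h2 : (i : ℝ) ≤ M := by exact_mod_cast hiM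
  refine Real.sin_pos_of_pos_of_lt_pi (by positivity) ?_
  have h3 : (i : ℝ) * lam ≤ M * h := mul_le_mul h2 hle hl.le (by linarith)
  linarith

theorem sin_mul_nonneg (hl : 0 < lam) (hle : lam ≤ h) (hMh : M * h < Real.pi) {i : ℕ}
    (hiM : i ≤ M) : 0 ≤ Real.sin (i * lam) := by
  rcases Nat.eq_zero_or_pos i with rfl | hi
  · simp
  · exact (sin_mul_pos hl hle hMh hi hiM).le

theorem zig_pos (hl : 0 < lam) (hle : lam ≤ h) (hπ : h < Real.pi) (hM : 0 < M)
    (hMh : M * h < Real.pi) (hx : x ∈ Ioc 0 (M * h)) : 0 < zig M h lam x 1 := by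
  have hh : 0 < h := by linarith
  have hs : 0 < Real.sin h := Real.sin_pos_of_pos_of_lt_pi hh hπ
  obtain ⟨k, hk, hk'⟩ := exists_seg_right hx
  have hc := zc_pos hl hle hπ
  rw [zig_seg hl hle hπ hk ⟨hk'.1.le, hk'.2⟩]
  simp only [PiLp.add_apply, PiLp.smul_apply, smul_eq_mul, zw_one]
  have a1 : 0 ≤ Real.sin ((k + 1) * h - x) := by
    refine Real.sin_nonneg_of_nonneg_of_le_pi (by linarith [hk'.2]) ?_
    linarith [hk'.1]
  have a2 : 0 < Real.sin (x - k * h) := by
    refine Real.sin_pos_of_pos_of_lt_pi (by linarith [hk'.1]) ?_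
    linarith [hk'.2]
  have a3 := sin_mul_nonneg hl hle hMh (i := k) hk.le
  have a4 := sin_mul_pos hl hle hMh (i := k + 1) (by omega) hk
  positivity

/-- the determinant which separates two points of the zigzag -/
theorem zig_det (hl : 0 < lam) (hle : lam ≤ h) (hπ : h < Real.pi)
    (hMh : M * h < Real.pi) {x y : ℝ} (hx : 0 ≤ x) (hxy : x < y) (hy : y ≤ M * h) :
    0 < (zc h lam * zig M h lam x 0 - zs h lam * zig M h lam x 2) * zig M h lam y 1 -
      zig M h lam x 1 * (zc h lam * zig M h lam y 0 - zs h lam * zig M h lam y 2) := by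
  have hh : 0 < h := by linarith
  have hs : 0 < Real.sin h := Real.sin_pos_of_pos_of_lt_pi hh hπ
  have hc := zc_pos hl hle hπ
  obtain ⟨j, hj, hj'⟩ := exists_seg_left (h := h) (M := M) (x := x) ⟨hx, by linarith⟩
  obtain ⟨k, hk, hk'⟩ := exists_seg_right (h := h) (M := M) (x := y) ⟨by linarith, hy⟩
  have hjk : j ≤ k := by
    by_contra hcon
    have h1 : (k : ℝ) + 1 ≤ j := by exact_mod_cast (by omega : k + 1 ≤ j)
    have h2 : (k + 1) * h ≤ j * h := mul_le_mul_of_nonneg_right h1 hh.le
    linarith [hj'.1, hk'.2]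
  have hX : ∀ {x : ℝ} {j : ℕ}, j < M → x ∈ Icc (j * h) ((j + 1) * h) →
      zc h lam * zig M h lam x 0 - zs h lam * zig M h lam x 2 =
        zc h lam * (Real.sin ((j + 1) * h - x) / Real.sin h * Real.cos (j * lam) +
          Real.sin (x - j * h) / Real.sin h * Real.cos ((j + 1 : ℕ) * lam)) := by
    intro x j hj hx
    rw [zig_seg hl hle hπ hj hx]
    simp only [PiLp.add_apply, PiLp.smul_apply, smul_eq_mul]
    linear_combination (Real.sin ((j + 1) * h - x) / Real.sin h) * zw_X hl hle hπ j +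
      (Real.sin (x - j * h) / Real.sin h) * zw_X hl hle hπ (j + 1)
  have hY : ∀ {x : ℝ} {j : ℕ}, j < M → x ∈ Icc (j * h) ((j + 1) * h) →
      zig M h lam x 1 =
        zc h lam * (Real.sin ((j + 1) * h - x) / Real.sin h * Real.sin (j * lam) +
          Real.sin (x - j * h) / Real.sin h * Real.sin ((j + 1 : ℕ) * lam)) := by
    intro x j hj hx
    rw [zig_seg hl hle hπ hj hx]
    simp only [PiLp.add_apply, PiLp.smul_apply, smul_eq_mul, zw_one]
    ring
  rw [hX hj ⟨hj'.1, hj'.2.le⟩, hX hk ⟨hk'.1.le, hk'.2⟩, hY hj ⟨hj'.1, hj'.2.le⟩,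
    hY hk ⟨hk'.1.le, hk'.2⟩]
  have a1 : 0 < Real.sin ((j + 1) * h - x) := by
    refine Real.sin_pos_of_pos_of_lt_pi (by linarith [hj'.2]) ?_
    linarith [hj'.1]
  have a2 : 0 ≤ Real.sin (x - j * h) := by
    refine Real.sin_nonneg_of_nonneg_of_le_pi (by linarith [hj'.1]) ?_
    linarith [hj'.2]
  have b1 : 0 ≤ Real.sin ((k + 1) * h - y) := by
    refine Real.sin_nonneg_of_nonneg_of_le_pi (by linarith [hk'.2]) ?_
    linarith [hk'.1]
  have b2 : 0 < Real.sin (y - k * h) := by
    refine Real.sin_pos_of_pos_of_lt_pi (by linarith [hk'.1]) ?_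
    linarith [hk'.2]
  have key : ∀ A A' B B' : ℝ,
      zc h lam * (A * Real.cos (j * lam) + A' * Real.cos ((j + 1 : ℕ) * lam)) *
        (zc h lam * (B * Real.sin (k * lam) + B' * Real.sin ((k + 1 : ℕ) * lam))) -
      zc h lam * (A * Real.sin (j * lam) + A' * Real.sin ((j + 1 : ℕ) * lam)) *
        (zc h lam * (B * Real.cos (k * lam) + B' * Real.cos ((k + 1 : ℕ) * lam))) =
      zc h lam ^ 2 * (A * B * Real.sin (k * lam - j * lam) +
        A * B' * Real.sin ((k + 1 : ℕ) * lam - j * lam) +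
        A' * B * Real.sin (k * lam - (j + 1 : ℕ) * lam) +
        A' * B' * Real.sin ((k + 1 : ℕ) * lam - (j + 1 : ℕ) * lam)) := by
    intro A A' B B'
    simp only [Real.sin_sub]
    ring
  rw [key]
  refine mul_pos (by positivity) ?_
  rcases hjk.eq_or_lt with rfl | hlt
  · have e1 : ((j + 1 : ℕ) : ℝ) * lam - j * lam = lam := by push_cast; ring
    have e2 : (j : ℝ) * lam - (j + 1 : ℕ) * lam = -lam := by push_cast; ring
    rw [e1, e2, sub_self, sub_self, Real.sin_zero, Real.sin_neg]
    have hsl : 0 < Real.sin lam := Real.sin_pos_of_pos_of_lt_pi hl (by linarith)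
    have h3 : Real.sin ((j + 1) * h - x) * Real.sin (y - j * h) -
        Real.sin (x - j * h) * Real.sin ((j + 1) * h - y) = Real.sin h * Real.sin (y - x) := by
      have e3 : (j + 1) * h - x = h - (x - j * h) := by ring
      have e4 : (j + 1) * h - y = h - (y - j * h) := by ring
      have e5 : y - x = (y - j * h) - (x - j * h) := by ring
      have e6 : ∀ a b : ℝ, Real.sin (h - a) * Real.sin b - Real.sin a * Real.sin (h - b) =
          Real.sin h * Real.sin (b - a) := by
        intro a b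
        simp only [Real.sin_sub]
        ring
      rw [e3, e4, e5]
      exact e6 _ _
    have h4 : 0 < Real.sin (y - x) := by
      refine Real.sin_pos_of_pos_of_lt_pi (by linarith) ?_
      linarith [hj'.1, hk'.2]
    have h5 : Real.sin ((j + 1) * h - x) / Real.sin h * (Real.sin ((j + 1) * h - y) / Real.sin h) *
          0 + Real.sin ((j + 1) * h - x) / Real.sin h * (Real.sin (y - j * h) / Real.sin h) *
          Real.sin lam + Real.sin (x - j * h) / Real.sin h *
          (Real.sin ((j + 1) * h - y) / Real.sin h) * -Real.sin lam +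
        Real.sin (x - j * h) / Real.sin h * (Real.sin (y - j * h) / Real.sin h) * 0 =
        Real.sin (y - x) * Real.sin lam / Real.sin h := by
      rw [eq_div_iff hs.ne']
      field_simp
      linear_combination (Real.sin lam) * h3
    rw [h5]
    positivity
  · have e1 : (k : ℝ) * lam - j * lam = ((k - j : ℕ) : ℝ) * lam := by
      rw [Nat.cast_sub hjk]; ring
    have e2 : ((k + 1 : ℕ) : ℝ) * lam - j * lam = ((k + 1 - j : ℕ) : ℝ) * lam := by
      rw [Nat.cast_sub (by omega)]; ring
    have e3 : (k : ℝ) * lam - (j + 1 : ℕ) * lam = ((k - (j + 1) : ℕ) : ℝ) * lam := by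
      rw [Nat.cast_sub (by omega)]; ring
    have e4 : ((k + 1 : ℕ) : ℝ) * lam - (j + 1 : ℕ) * lam = ((k - j : ℕ) : ℝ) * lam := by
      rw [Nat.cast_sub hjk]; push_cast; ring
    rw [e1, e2, e3, e4]
    have s1 := sin_mul_nonneg hl hle hMh (i := k - j) (by omega)
    have s2 := sin_mul_pos hl hle hMh (i := k + 1 - j) (by omega) (by omega)
    have s3 := sin_mul_nonneg hl hle hMh (i := k - (j + 1)) (by omega)
    positivity

theorem zig_inj (hl : 0 < lam) (hle : lam ≤ h) (hπ : h < Real.pi) (hM : 0 < M)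
    (hMh : M * h < Real.pi) : InjOn (zig M h lam) (Icc 0 (M * h)) := by
  have main : ∀ x y : ℝ, 0 ≤ x → x < y → y ≤ M * h → zig M h lam x ≠ zig M h lam y := by
    intro x y hx hxy hy he
    have h1 := zig_det hl hle hπ hMh hx hxy hy
    rw [he] at h1
    linarith [mul_comm (zc h lam * zig M h lam y 0 - zs h lam * zig M h lam y 2)
      (zig M h lam y 1)]
  intro x hx y hy he
  rcases lt_trichotomy x y with h1 | h1 | h1
  · exact absurd he (main x y hx.1 h1 hy.2)
  · exact h1
  · exact absurd he.symm (main y x hy.1 h1 hx.2)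

end Pool.Agent.H59.HF
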