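import Pool.Agent.H59.HF.Join
import Pool.Agent.H59.HF.TgA
import Pool.Agent.H59.HF.ConnA
import Pool.Agent.H59.HF.ZigC

/-! MODULE Carry (about 110 lines). The crumpled piece is carried along a path of the rest.

`conn_join` with `L = Γ`, `q t = tg (Γ t) w v`, `R t = zig M h lam` (fixed), `l = M h`. `Γ t` is geodesic on `[w,v]` because there is no breakpoint inside.
`hsep`: for `s` in `[w,v]` `ne_of_pos` and `zig_pos`; for `s` in `[0,w]`: `‖fr .. (zig x) - Γ t v‖ = ‖zig x - eqt 0‖ <= 4 h + y <= 4 h + M lam` (`zig_near`,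
`eqt_dist`; `Γ t v = fr .. (eqt 0)`), which is smaller than `‖Γ t s - Γ t v‖`. At the ends use `Conn.congr`: `Γ 0 = γ`, `Γ 1 = γ'` on `[0,v]` (also
`tg (Γ 0) w v = tg γ w v`). -/

open scoped RealInnerProductSpace
open Set

namespace Pool.Agent.H59.HF

theorem conn_carry {γ γ' : ℝ → E3} {Γ : ℝ → ℝ → E3} {B : Finset ℝ} {w v h lam : ℝ} {M : ℕ}
    (hw : 0 ≤ w) (h1 : w < v) (h2 : v - w < Real.pi) (hM : 0 < M) (hl : 0 < lam)
    (hle : lam ≤ h) (hMh : M * h < Real.pi) (hΓ : APath v B Γ γ γ')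
    (hB : ∀ b ∈ B, b ≤ w ∨ v ≤ b)
    (hfar : ∀ t ∈ Icc (0 : ℝ) 1, ∀ s ∈ Icc 0 w, 4 * h + M * lam < ‖Γ t s - Γ t v‖) :
    Conn (v + M * h) (jn v γ (tg γ w v) (zig M h lam)) (jn v γ' (tg γ' w v) (zig M h lam)) := by
  have hh : 0 < h := lt_of_lt_of_le hl hle
  have hM1 : (1 : ℝ) ≤ M := by exact_mod_cast hM
  have hπ : h < Real.pi := by
    have : h ≤ M * h := by nlinarith
    linarith
  have hv : 0 ≤ v := hw.trans h1.le
  have hlen : (0 : ℝ) ≤ M * h := by positivity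
  have hg : ∀ t ∈ Icc (0 : ℝ) 1, Geo (Γ t) w v := fun t ht =>
    hΓ.pg t ht w v hw h1.le le_rfl hB
  have key := conn_join (v := v) (l := M * h) hv hlen (L := Γ) (R := fun _ => zig M h lam)
    (q := fun t => tg (Γ t) w v) (BL := B)
    (BR := (Finset.range (M + 1)).image fun k : ℕ => (k : ℝ) * h)
    hΓ.cont hΓ.inj hΓ.pg (tg_cont hΓ.cont hw h1) (fun t ht => tg_on (hg t ht) h1 h2)
    (by
      have hc := zig_cont (M := M) hh hπ
      exact hc.comp (f := fun z : ℝ × ℝ => (lam, z.2))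
        (by fun_prop) (fun z _ => ⟨⟨hl, hle⟩, mem_univ _⟩))
    (fun t _ => zig_inj hl hle hπ hM hMh) (fun t _ => zig_pg hl hle hπ hM)
    (fun t _ => zig_zero hl hle hπ hM)
    (by
      intro t ht s hs x hx hEq
      rcases le_total w s with hws | hsw
      · exact ne_of_pos (hg t ht) h1 h2 ⟨hws, hs.2⟩ (zig_pos hl hle hπ hM hMh hx) hEq
      · have hon := tg_on (hg t ht) h1 h2
        obtain ⟨y, hy, hyM, hd⟩ := zig_near hl hle hπ hM (x := x) ⟨hx.1.le, hx.2⟩
        have e0 : fr (Γ t v) (tg (Γ t) w v) (eqt 0) = Γ t v := by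
          rw [fr_eqt]; simp
        have e1 : ‖Γ t s - Γ t v‖ = ‖zig M h lam x - eqt 0‖ := by
          rw [hEq]
          rw [← fr_norm hon (zig M h lam x - eqt 0), fr_sub, e0]
        have e2 : ‖zig M h lam x - eqt 0‖ ≤ 4 * h + M * lam := by
          have h3 : zig M h lam x - eqt 0 = (zig M h lam x - eqt y) + (eqt y - eqt 0) := by abel
          have h4 := eqt_dist y 0
          rw [sub_zero, abs_of_nonneg hy.1] at h4
          calc ‖zig M h lam x - eqt 0‖ ≤ ‖zig M h lam x - eqt y‖ + ‖eqt y - eqt 0‖ := by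
                rw [h3]; exact norm_add_le _ _
            _ ≤ 4 * h + M * lam := by linarith
        have h5 := hfar t ht s ⟨hs.1, hsw⟩
        rw [e1] at h5
        linarith)
  have z0 : (0 : ℝ) ∈ Icc (0 : ℝ) 1 := ⟨le_rfl, zero_le_one⟩
  have hwm : w ∈ Icc 0 v := ⟨hw, h1.le⟩
  have hvm : v ∈ Icc 0 v := ⟨hv, le_rfl⟩
  refine key.congr ?_ ?_
  · intro s hs
    by_cases hsv : s ≤ v
    · simp only [jn, if_pos hsv]
      exact (hΓ.zero s ⟨hs.1, hsv⟩).symm
    · simp only [jn, if_neg hsv, tg]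
      rw [hΓ.zero w hwm, hΓ.zero v hvm]
  · intro s hs
    by_cases hsv : s ≤ v
    · simp only [jn, if_pos hsv]
      exact (hΓ.one s ⟨hs.1, hsv⟩).symm
    · simp only [jn, if_neg hsv, tg]
      rw [hΓ.one w hwm, hΓ.one v hvm]

end Pool.Agent.H59.HF
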