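import Pool.Agent.H59.HF.GeoA

/-! MODULE PGA (about 150 lines). Piecewise geodesic arcs.

`cont`: for `x` in `[0,S]` let `d > 0` be smaller than the distance from `x` to every `b` in `B`, `b <> x` (finite set; `B` empty: `d = 1`).
On `[max 0 (x-d), x]` and on `[x, min S (x+d)]` there is no breakpoint inside, so `γ` is continuous there (`Geo.cont`);
the union of the two is a neighbourhood of `x` in `[0,S]` (`ContinuousWithinAt.union`).
`pg_of_pieces`: let `s <= t`; take `i` maximal with `σ i <= s`, `i <= n` (exists because `σ 0 = 0`); if `i < n` then `s < σ (i+1)`, so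
`t <= σ (i+1)` by the hypothesis on the breakpoints; if `i = n` then `t <= σ (n+1)`. Use `Geo.sub`. -/

open scoped RealInnerProductSpace
open Set

namespace Pool.Agent.H59.HF

variable {γ γ' : ℝ → E3} {S S' : ℝ} {B B' : Finset ℝ}

theorem PG.mono (h : PG B S γ) (hB : B ⊆ B') : PG B' S γ := by
  intro s t h0 h1 h2 h3
  exact h s t h0 h1 h2 fun b hb => h3 b (hB hb)

theorem PG.congr (h : PG B S γ) (e : ∀ x ∈ Icc 0 S, γ' x = γ x) : PG B S γ' := by
  intro s t h0 h1 h2 h3
  refine (h s t h0 h1 h2 h3).congr fun x hx => e x ⟨h0.trans hx.1, hx.2.trans h2⟩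

theorem PG.restrict (h : PG B S γ) (hS : S' ≤ S) : PG B S' γ := by
  intro s t h0 h1 h2 h3
  exact h s t h0 h1 (h2.trans hS) h3

theorem PG.unit (h : PG B S γ) {x : ℝ} (hx : x ∈ Icc 0 S) : ‖γ x‖ = 1 := by
  have := h x x hx.1 le_rfl hx.2 fun b _ => le_total b x
  exact this.unit ⟨le_rfl, le_rfl⟩

theorem PG.cont (h : PG B S γ) : ContinuousOn γ (Icc 0 S) := by
  intro x hx
  obtain ⟨ε, hε, hb⟩ := Metric.mem_nhds_iff.1 (((B.erase x).finite_toSet.isClosed.isOpen_compl).mem_nhds
    (show x ∈ ((B.erase x : Finset ℝ) : Set ℝ)ᶜ from fun hx' => Finset.notMem_erase x B hx'))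
  have hd : ∀ b ∈ B, b ≠ x → ε ≤ |b - x| := by
    intro b hbB hbx
    by_contra hlt
    push Not at hlt
    have h1 : b ∈ Metric.ball x ε := by
      rw [Metric.mem_ball, Real.dist_eq]
      exact hlt
    exact hb h1 (Finset.mem_coe.2 (Finset.mem_erase.2 ⟨hbx, hbB⟩))
  have hL : Geo γ (max 0 (x - ε)) x := by
    refine h _ _ (le_max_left _ _) (max_le hx.1 (by linarith)) hx.2 fun b hbB => ?_
    by_cases hbx : x ≤ b
    · exact Or.inr hbx
    · left
      push Not at hbx
      have h1 := hd b hbB hbx.ne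
      rw [abs_of_neg (by linarith)] at h1
      exact le_max_of_le_right (by linarith)
  have hR : Geo γ x (min S (x + ε)) := by
    refine h _ _ hx.1 (le_min hx.2 (by linarith)) (min_le_left _ _) fun b hbB => ?_
    by_cases hbx : b ≤ x
    · exact Or.inl hbx
    · right
      push Not at hbx
      have h1 := hd b hbB hbx.ne'
      rw [abs_of_pos (by linarith)] at h1
      exact min_le_of_right_le (by linarith)
  have hL' : ContinuousWithinAt γ (Icc (max 0 (x - ε)) x) x :=
    hL.cont x ⟨max_le hx.1 (by linarith), le_rfl⟩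
  have hR' : ContinuousWithinAt γ (Icc x (min S (x + ε))) x :=
    hR.cont x ⟨le_rfl, le_min hx.2 (by linarith)⟩
  apply (hL'.union hR').mono_of_mem_nhdsWithin
  rw [mem_nhdsWithin]
  refine ⟨Ioo (x - ε) (x + ε), isOpen_Ioo, ⟨by linarith, by linarith⟩, ?_⟩
  rintro z ⟨hz1, hz2⟩
  rcases le_total z x with h1 | h1
  · exact Or.inl ⟨max_le hz2.1 hz1.1.le, h1⟩
  · exact Or.inr ⟨h1, le_min hz2.2 hz1.2.le⟩

theorem pg_of_pieces {σ : ℕ → ℝ} (h0 : σ 0 = 0) (hσ : ∀ i, σ i < σ (i + 1)) {n : ℕ}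
    (hg : ∀ i ≤ n, Geo γ (σ i) (σ (i + 1))) :
    PG ((Finset.range (n + 2)).image σ) (σ (n + 1)) γ := by
  classical
  intro s t hs0 hst hts hb
  have h1 : σ (Nat.findGreatest (fun i => σ i ≤ s) n) ≤ s :=
    Nat.findGreatest_spec (P := fun i => σ i ≤ s) (Nat.zero_le n) (by rw [h0]; exact hs0)
  have h2 : Nat.findGreatest (fun i => σ i ≤ s) n ≤ n := Nat.findGreatest_le n
  refine (hg _ h2).sub h1 ?_
  rcases h2.eq_or_lt with h3 | h3
  · rw [h3]
    exact hts
  · have h4 : ¬ σ (Nat.findGreatest (fun i => σ i ≤ s) n + 1) ≤ s :=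
      Nat.findGreatest_is_greatest (P := fun i => σ i ≤ s) (Nat.lt_succ_self _) h3
    exact (hb _ (Finset.mem_image_of_mem σ (Finset.mem_range.2 (by omega)))).resolve_left h4

end Pool.Agent.H59.HF
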