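import Pool.Agent.H59.HF.SameA
import Pool.Agent.H59.HF.PGA

/-! MODULE CfgA (about 250 lines, may be split). A configuration is given by an injective arc on the sphere.

(1) `f i (V i) = c` for all `i` (`c = f 0 (V 0)`): gluing with `s = 0`. (2) `f i` preserves inner products of `x - V`, `y - V` (polarisation of `dist`), hence is affine on `P`:
if `x - V = s u + t v` then `f x - f V = s (f a - f V) + t (f b - f V)` (the norm of the difference is computed with inner products, it is `0`). (3) Put `p = (f a - f V) / ‖u‖`,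
`q = ((f b - f V) / ‖v‖ - cos al p) / sin al`: orthonormal; with the frame `e, e'` of `exists_frame` the linear map `e -> p`, `e' -> q` gives
`f x - f V = ‖x - V‖ (cos (om x) p + sin (om x) q)` (`piece`). (4) `exists_glued`: functions `g i` on `[σ i, σ (i+1)]` with `g i (σ (i+1)) = g (i+1) (σ (i+1))` are glued to one
function (induction on `n`). With `g i s = cos (s - ss i) p_i + sin (s - ss i) q_i`: at `s = ss (i+1)` it is `(f_i b - c) / ‖v‖ = p_(i+1)` (`H.len`, gluing with `s = 1`).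
(5) injectivity: let `γ s = γ s'`, `s` in the piece `i`, `s'` in the piece `j`; by `exists_pt` there are, for a small `r > 0`, `x` in `P i`, `y` in `P j` with norm `r` and angles
`s - ss i`, `s' - ss j`; then `f i x = c + r γ s = c + r γ s' = f j y`, so `Same`, and `same_inv` gives `s = sg = s'`. -/

open scoped RealInnerProductSpace
open Set

namespace Pool.Agent.H59.HF

theorem exists_glued {σ : ℕ → ℝ} (hσ : ∀ i, σ i < σ (i + 1)) {g : ℕ → ℝ → E3} (n : ℕ)
    (hg : ∀ i < n, g i (σ (i + 1)) = g (i + 1) (σ (i + 1))) :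
    ∃ γ : ℝ → E3, ∀ i ≤ n, ∀ s ∈ Icc (σ i) (σ (i + 1)), γ s = g i s := by
  have hm : Monotone σ := monotone_nat_of_le_succ fun i => (hσ i).le
  induction n with
  | zero =>
    refine ⟨g 0, fun i hi s _ => ?_⟩
    rw [Nat.le_zero.1 hi]
  | succ n ih =>
    obtain ⟨γ, hγ⟩ := ih fun i hi => hg i (by omega)
    refine ⟨fun s => if s ≤ σ (n + 1) then γ s else g (n + 1) s, fun i hi s hs => ?_⟩
    rcases Nat.lt_or_ge n i with h | h
    · have hi' : i = n + 1 := by omega
      subst hi'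
      by_cases h1 : s ≤ σ (n + 1)
      · have h2 : s = σ (n + 1) := le_antisymm h1 hs.1
        simp only [if_pos h1]
        rw [h2, hγ n le_rfl _ ⟨(hσ n).le, le_rfl⟩]
        exact hg n (by omega)
      · simp only [if_neg h1]
    · have h1 : s ≤ σ (n + 1) := hs.2.trans (hm (by omega))
      simp only [if_pos h1]
      exact hγ i h s hs

private theorem cfg_locate {σ : ℕ → ℝ} (n : ℕ) {s : ℝ} (hs : s ∈ Icc (σ 0) (σ (n + 1))) :
    ∃ i ≤ n, s ∈ Icc (σ i) (σ (i + 1)) := by
  induction n with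
  | zero => exact ⟨0, le_rfl, hs⟩
  | succ n ih =>
    by_cases h : s ≤ σ (n + 1)
    · obtain ⟨i, hi, h2⟩ := ih ⟨hs.1, h⟩
      exact ⟨i, by omega, h2⟩
    · exact ⟨n + 1, le_rfl, (not_le.1 h).le, hs.2⟩

variable {k : ℕ} (H : HChain k)

private theorem cfg_inner {f : Fin (k + 1) → E2 → E3} (hf : IsConfig H f) (i : Fin (k + 1))
    {x y : E2} (hx : x ∈ H.poly i) (hy : y ∈ H.poly i) :
    ⟪f i x - f i (H.V i), f i y - f i (H.V i)⟫ = ⟪x - H.V i, y - H.V i⟫ := by
  have h1 := hf.2 i x hx _ (V_mem H i)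
  have h2 := hf.2 i y hy _ (V_mem H i)
  have h3 := hf.2 i x hx y hy
  rw [dist_eq_norm, dist_eq_norm] at h1 h2 h3
  rw [real_inner_eq_norm_mul_self_add_norm_mul_self_sub_norm_sub_mul_self_div_two,
    real_inner_eq_norm_mul_self_add_norm_mul_self_sub_norm_sub_mul_self_div_two,
    sub_sub_sub_cancel_right, sub_sub_sub_cancel_right, h1, h2, h3]

theorem piece {f : Fin (k + 1) → E2 → E3} (hf : IsConfig H f) (i : Fin (k + 1)) :
    ∃ p q : E3, ON p q ∧ ∀ x ∈ H.poly i, f i x = f i (H.V i) +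
      ‖x - H.V i‖ • (Real.cos (om H i x) • p + Real.sin (om H i x) • q) := by
  obtain ⟨e, e', he, he', hee, hu, hv, hw, hx⟩ := exists_frame H i
  set V := H.V i with hV
  set u := H.a i - V with hudef
  set v := H.b i - V with hvdef
  set m := ⟪e', v⟫ with hm
  have hm0 : m ≠ 0 := hv.ne'
  have hu0 : ‖u‖ ≠ 0 := by
    rw [Ne, norm_eq_zero, hudef, sub_eq_zero]
    exact a_ne H i
  set Fa := f i (H.a i) - f i V with hFa
  set Fb := f i (H.b i) - f i V with hFb
  set l := ⟪e, v⟫ with hl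
  have hee' : ⟪e', e⟫ = 0 := by rw [real_inner_comm]; exact hee
  -- inner products in the plane
  have huw : ∀ w : E2, ⟪w, u⟫ = ‖u‖ * ⟪e, w⟫ := by
    intro w
    rw [real_inner_comm]
    conv_lhs => rw [hu]
    rw [real_inner_smul_left]
  have hvw : ∀ w : E2, ⟪w, v⟫ = ⟪e, w⟫ * l + ⟪e', w⟫ * m := by
    intro w
    conv_lhs => rw [hw v]
    rw [inner_add_right, real_inner_smul_right, real_inner_smul_right, real_inner_comm e w,
      real_inner_comm e' w]
    ring
  have hww : ∀ w : E2, ⟪w, w⟫ = ⟪e, w⟫ ^ 2 + ⟪e', w⟫ ^ 2 := by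
    intro w
    have e1 : ⟪e, e⟫ = 1 := by rw [real_inner_self_eq_norm_sq, he]; norm_num
    have e2 : ⟪e', e'⟫ = 1 := by rw [real_inner_self_eq_norm_sq, he']; norm_num
    conv_lhs => rw [hw w]
    simp only [inner_add_left, inner_add_right, real_inner_smul_left, real_inner_smul_right,
      hee, hee', e1, e2]
    ring
  have hAA : ⟪Fa, Fa⟫ = ‖u‖ ^ 2 := by
    rw [hFa, cfg_inner H hf i (a_mem H i) (a_mem H i), real_inner_self_eq_norm_sq]
  have hBB : ⟪Fb, Fb⟫ = l ^ 2 + m ^ 2 := by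
    rw [hFb, cfg_inner H hf i (b_mem H i) (b_mem H i)]
    exact hww v
  have hBA : ⟪Fb, Fa⟫ = ‖u‖ * l := by
    rw [hFb, hFa, cfg_inner H hf i (b_mem H i) (a_mem H i)]
    exact huw v
  have hAB : ⟪Fa, Fb⟫ = ‖u‖ * l := by rw [real_inner_comm]; exact hBA
  refine ⟨‖u‖⁻¹ • Fa, m⁻¹ • (Fb - (l * ‖u‖⁻¹) • Fa), ⟨?_, ?_, ?_⟩, fun x hxP => ?_⟩
  · rw [norm_smul, norm_inv, norm_norm]
    have h1 : ‖Fa‖ = ‖u‖ := by
      rw [real_inner_self_eq_norm_sq] at hAA
      exact (pow_left_inj₀ (norm_nonneg _) (norm_nonneg _) two_ne_zero).1 hAA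
    rw [h1, inv_mul_cancel₀ hu0]
  · have h1 : ‖m⁻¹ • (Fb - (l * ‖u‖⁻¹) • Fa)‖ ^ 2 = 1 := by
      rw [← real_inner_self_eq_norm_sq]
      simp only [inner_sub_left, inner_sub_right, real_inner_smul_left, real_inner_smul_right,
        hAA, hBB, hBA, hAB]
      field_simp
      ring
    have h2 := norm_nonneg (m⁻¹ • (Fb - (l * ‖u‖⁻¹) • Fa))
    nlinarith
  · simp only [inner_sub_right, real_inner_smul_left, real_inner_smul_right, hAA, hAB]
    field_simp
    ring
  · set w := x - V with hwdef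
    set Fx := f i x - f i V with hFx
    have hXX : ⟪Fx, Fx⟫ = ⟪e, w⟫ ^ 2 + ⟪e', w⟫ ^ 2 := by
      rw [hFx, cfg_inner H hf i hxP hxP]
      exact hww w
    have hXA : ⟪Fx, Fa⟫ = ‖u‖ * ⟪e, w⟫ := by
      rw [hFx, hFa, cfg_inner H hf i hxP (a_mem H i)]
      exact huw w
    have hXB : ⟪Fx, Fb⟫ = ⟪e, w⟫ * l + ⟪e', w⟫ * m := by
      rw [hFx, hFb, cfg_inner H hf i hxP (b_mem H i)]
      exact hvw w
    have hAX : ⟪Fa, Fx⟫ = ‖u‖ * ⟪e, w⟫ := by rw [real_inner_comm]; exact hXA
    have hBX : ⟪Fb, Fx⟫ = ⟪e, w⟫ * l + ⟪e', w⟫ * m := by rw [real_inner_comm]; exact hXB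
    have key : Fx = ⟪e, w⟫ • (‖u‖⁻¹ • Fa) + ⟪e', w⟫ • (m⁻¹ • (Fb - (l * ‖u‖⁻¹) • Fa)) := by
      rw [← sub_eq_zero, ← inner_self_eq_zero (𝕜 := ℝ)]
      simp only [inner_sub_left, inner_sub_right, inner_add_left, inner_add_right,
        real_inner_smul_left, real_inner_smul_right, hXX, hXA, hXB, hAX, hBX, hAA, hBB, hBA, hAB]
      field_simp
      ring
    have hcs : ⟪e, w⟫ = ‖w‖ * Real.cos (om H i x) ∧ ⟪e', w⟫ = ‖w‖ * Real.sin (om H i x) := by
      by_cases hxV : x = V
      · have hw0 : w = 0 := by rw [hwdef, hxV, sub_self]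
        rw [hw0]
        simp
      · have h1 := hx x hxP hxV
        constructor
        · have h2 := congrArg (fun z => ⟪e, z⟫) h1
          simp only [inner_add_right, real_inner_smul_right, hee, real_inner_self_eq_norm_sq,
            he] at h2
          rw [h2]
          ring
        · have h2 := congrArg (fun z => ⟪e', z⟫) h1
          simp only [inner_add_right, real_inner_smul_right, hee', real_inner_self_eq_norm_sq,
            he'] at h2
          rw [h2]
          ring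
    rw [hcs.1, hcs.2] at key
    have h3 : f i x = f i V + Fx := by rw [hFx]; abel
    rw [h3, key, smul_add, smul_smul ‖w‖, smul_smul ‖w‖]

private theorem cfg_same {f : Fin (k + 1) → E2 → E3} (hf : IsConfig H f)
    {p q : Fin (k + 1) × E2} (h : Same H p q) : f p.1 p.2 = f q.1 q.2 := by
  induction h with
  | rel x y h => exact hf.1.1 x y h
  | refl x => rfl
  | symm x y _ ih => exact ih.symm
  | trans x y z _ _ h1 h2 => exact h1.trans h2

theorem exists_arc {f : Fin (k + 1) → E2 → E3} (hf : IsConfig H f) :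
    ∃ (c : E3) (γ : ℝ → E3), InjOn γ (Icc 0 (ss H (k + 1))) ∧
      (∀ i ≤ k, Geo γ (ss H i) (ss H (i + 1))) ∧
      ∀ i, ∀ x ∈ H.poly i, f i x = c + ‖x - H.V i‖ • γ (ss H i + om H i x) := by
  choose p q hON hpq using fun i => piece H hf i
  set c := f 0 (H.V 0) with hc
  have hcV : ∀ i, f i (H.V i) = c := fun i => cfg_same H hf (same_V H i 0)
  let g : ℕ → ℝ → E3 := fun i s => if h : i < k + 1 then
    Real.cos (s - ss H i) • p ⟨i, h⟩ + Real.sin (s - ss H i) • q ⟨i, h⟩ else 0
  have hgi : ∀ (i : Fin (k + 1)) (s : ℝ), g i s =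
      Real.cos (s - ss H i) • p i + Real.sin (s - ss H i) • q i := by
    intro i s
    simp only [g, dif_pos i.2]
  have hglue : ∀ i < k, g i (ss H (i + 1)) = g (i + 1) (ss H (i + 1)) := by
    intro i hi
    have h1 := hgi (Fin.castSucc ⟨i, hi⟩) (ss H (i + 1))
    have h2 := hgi (Fin.succ ⟨i, hi⟩) (ss H (i + 1))
    simp only [Fin.val_castSucc, Fin.val_succ] at h1 h2
    rw [h1, h2, sub_self, Real.cos_zero, Real.sin_zero, zero_smul, add_zero, one_smul]
    set j : Fin k := ⟨i, hi⟩ with hj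
    have h3 := hf.1.1 _ _ (Glue.mk (H := H) j 1 zero_le_one le_rfl)
    simp only [one_smul, add_sub_cancel] at h3
    have h4 := hpq j.castSucc (H.b j.castSucc) (b_mem H _)
    have h5 := hpq j.succ (H.a j.succ) (a_mem H _)
    rw [hcV] at h4 h5
    have h6 : om H j.succ (H.a j.succ) = 0 := by
      unfold om
      exact InnerProductGeometry.angle_self (sub_ne_zero.2 (a_ne H _))
    have h7 : om H j.castSucc (H.b j.castSucc) = ss H (i + 1) - ss H i := by
      rw [ss_succ, add_sub_cancel_left]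
      have h8 := al_fin H j.castSucc
      simp only [Fin.val_castSucc] at h8
      rw [show ((j : ℕ)) = i from rfl] at h8
      rw [h8]
      rfl
    have h9 : ‖H.b j.castSucc - H.V j.castSucc‖ = ‖H.a j.succ - H.V j.succ‖ := by
      have := H.len j
      rw [dist_comm, dist_eq_norm, dist_comm, dist_eq_norm] at this
      exact this
    rw [h6, Real.cos_zero, Real.sin_zero, zero_smul, add_zero, one_smul] at h5
    rw [h3, h5, h7, h9] at h4
    have h10 := add_left_cancel h4
    have h11 : ‖H.a j.succ - H.V j.succ‖ ≠ 0 := by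
      rw [Ne, norm_eq_zero, sub_eq_zero]
      exact a_ne H _
    exact (smul_right_injective E3 h11 h10).symm
  obtain ⟨γ, hγ⟩ := exists_glued (σ := ss H) (ss_lt H) k hglue
  have hγi : ∀ (i : Fin (k + 1)), ∀ s ∈ Icc (ss H i) (ss H (i + 1)), γ s =
      Real.cos (s - ss H i) • p i + Real.sin (s - ss H i) • q i := by
    intro i s hs
    rw [hγ i (by omega) s hs, hgi]
  have hform : ∀ i, ∀ x ∈ H.poly i, f i x = c + ‖x - H.V i‖ • γ (ss H i + om H i x) := by
    intro i x hx
    by_cases hxV : x = H.V i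
    · subst hxV
      rw [sub_self, norm_zero, zero_smul, add_zero]
      exact hcV i
    · have h1 : ss H i + om H i x ∈ Icc (ss H i) (ss H (i + 1)) := by
        have h2 := om_nonneg H i x
        have h3 := om_le H i hx hxV
        rw [ss_succ]
        exact ⟨by linarith, by linarith⟩
      rw [hγi i _ h1, add_sub_cancel_left, hpq i x hx, hcV]
  refine ⟨c, γ, ?_, ?_, hform⟩
  · intro s hs s' hs' h
    have h0 : ss H 0 = 0 := ss_zero H
    obtain ⟨i, hi, hsi⟩ := cfg_locate (σ := ss H) k (s := s) (by rw [h0]; exact hs)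
    obtain ⟨j, hj, hsj⟩ := cfg_locate (σ := ss H) k (s := s') (by rw [h0]; exact hs')
    set i' : Fin (k + 1) := ⟨i, by omega⟩ with hi'
    set j' : Fin (k + 1) := ⟨j, by omega⟩ with hj'
    obtain ⟨r0, hr0, hp0⟩ := exists_pt H i'
    obtain ⟨r1, hr1, hp1⟩ := exists_pt H j'
    rw [ss_succ] at hsi hsj
    obtain ⟨x, hxP, hxn, hxo⟩ := hp0 (min r0 r1) ⟨lt_min hr0 hr1, min_le_left _ _⟩ (s - ss H i)
      ⟨by linarith [hsi.1], by
        change s - ss H i ≤ al H i
        linarith [hsi.2]⟩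
    obtain ⟨y, hyP, hyn, hyo⟩ := hp1 (min r0 r1) ⟨lt_min hr0 hr1, min_le_right _ _⟩ (s' - ss H j)
      ⟨by linarith [hsj.1], by
        change s' - ss H j ≤ al H j
        linarith [hsj.2]⟩
    have e1 := hform i' x hxP
    have e2 := hform j' y hyP
    rw [hxn, hxo] at e1
    rw [hyn, hyo] at e2
    change f i' x = c + min r0 r1 • γ (ss H i + (s - ss H i)) at e1
    change f j' y = c + min r0 r1 • γ (ss H j + (s' - ss H j)) at e2
    rw [add_sub_cancel] at e1 e2
    have e3 : f i' x = f j' y := by rw [e1, e2, h]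
    have e4 := hf.1.2 (i', x) (j', y) hxP hyP e3
    have e5 := (same_inv H e4).2 (by
      change ‖x - H.V i'‖ ≠ 0
      rw [hxn]
      exact (lt_min hr0 hr1).ne')
    change ss H i + om H i' x = ss H j + om H j' y at e5
    rw [hxo, hyo] at e5
    linarith
  · intro i hi
    exact Geo.of_eq (hON ⟨i, by omega⟩) fun x hx => hγi ⟨i, by omega⟩ x hx

end Pool.Agent.H59.HF
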