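import Pool.Agent.H59.HF.Turn
import Pool.Agent.H59.HF.Base

/-! MODULE Core (about 120 lines). Any two injective arcs with the same lengths of the pieces are joined.

Induction on `n`. `n = 0`: `conn_geo`. Step: `v = σ (n+1)`, `u = σ n`, `T = σ (n+2)`; the path on `[0,v]` is given. By `far_of_inj` (with `w = u`, `[v,v]`), there
is `d > 0` with `‖γ s - γ v‖ >= d` for `s` in `[0,u]`, same for `γ'`; choose `a > 0` with `a < d, d', T - v`; `conn_turn2` on `[0, v+a]`, then `conn_straight` with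
`u := v`, `v := v + a`. `PG`: `pg_of_pieces`, `PG.restrict`. -/

open scoped RealInnerProductSpace
open Set

namespace Pool.Agent.H59.HF

private theorem core_mono {σ : ℕ → ℝ} (hσ : ∀ i, σ i < σ (i + 1)) {i j : ℕ} (h : i ≤ j) :
    σ i ≤ σ j := (strictMono_nat_of_lt_succ hσ).monotone h

theorem conn_core {σ : ℕ → ℝ} (h0 : σ 0 = 0) (hσ : ∀ i, σ i < σ (i + 1))
    (hπ : ∀ i, σ (i + 1) - σ i < Real.pi) (n : ℕ) (γ γ' : ℝ → E3)
    (hi : InjOn γ (Icc 0 (σ (n + 1)))) (hg : ∀ i ≤ n, Geo γ (σ i) (σ (i + 1)))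
    (hi' : InjOn γ' (Icc 0 (σ (n + 1)))) (hg' : ∀ i ≤ n, Geo γ' (σ i) (σ (i + 1))) :
    Conn (σ (n + 1)) γ γ' := by
  induction n with
  | zero =>
    have h1 := hg 0 le_rfl
    have h2 := hg' 0 le_rfl
    have h3 := hπ 0
    rw [h0] at h1 h2 h3
    rw [sub_zero] at h3
    exact conn_geo h3 h1 h2
  | succ n ih =>
    have hu : 0 ≤ σ n := by
      have := core_mono hσ (Nat.zero_le n)
      rwa [h0] at this
    have huv : σ n < σ (n + 1) := hσ n
    have hvT : σ (n + 1) < σ (n + 1 + 1) := hσ (n + 1)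
    have hp := pg_of_pieces h0 hσ hg
    have hp' := pg_of_pieces h0 hσ hg'
    have hc : Conn (σ (n + 1)) γ γ' := by
      refine ih (hi.mono (Icc_subset_Icc le_rfl hvT.le)) (fun i hi => hg i (by omega))
        (hi'.mono (Icc_subset_Icc le_rfl hvT.le)) (fun i hi => hg' i (by omega))
    obtain ⟨d, hd, hfar⟩ := far_of_inj huv hvT.le hu hp.cont hi
    obtain ⟨d', hd', hfar'⟩ := far_of_inj huv hvT.le hu hp'.cont hi'
    obtain ⟨a, ha, had, had', haT⟩ : ∃ a : ℝ, 0 < a ∧ a < d ∧ a < d' ∧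
        a < σ (n + 1 + 1) - σ (n + 1) := by
      refine ⟨min (min d d') (σ (n + 1 + 1) - σ (n + 1)) / 2, ?_, ?_, ?_, ?_⟩
      · have : 0 < min (min d d') (σ (n + 1 + 1) - σ (n + 1)) :=
          lt_min (lt_min hd hd') (by linarith)
        linarith
      all_goals
        have h1 : 0 < min (min d d') (σ (n + 1 + 1) - σ (n + 1)) :=
          lt_min (lt_min hd hd') (by linarith)
        have h2 : min (min d d') (σ (n + 1 + 1) - σ (n + 1)) ≤ min d d' := min_le_left _ _
        have h3 : min d d' ≤ d := min_le_left _ _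
        have h4 : min d d' ≤ d' := min_le_right _ _
        have h5 : min (min d d') (σ (n + 1 + 1) - σ (n + 1)) ≤ σ (n + 1 + 1) - σ (n + 1) :=
          min_le_right _ _
        linarith
    have hπv := hπ n
    have hπT := hπ (n + 1)
    have hle : σ (n + 1) + a ≤ σ (n + 1 + 1) := by linarith
    have hsub : Icc 0 (σ (n + 1) + a) ⊆ Icc 0 (σ (n + 1 + 1)) := Icc_subset_Icc le_rfl hle
    have hv1 : σ (n + 1) ∈ Icc (σ (n + 1)) (σ (n + 1 + 1)) := ⟨le_rfl, hvT.le⟩
    have c1 : Conn (σ (n + 1) + a) γ γ' := by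
      refine conn_turn2 hu huv (by linarith) hπv (by linarith) (hi.mono hsub)
        (hp.restrict hle) (hg n (by omega)) ((hg (n + 1) le_rfl).sub le_rfl hle) ?_
        (hi'.mono hsub) (hp'.restrict hle) (hg' n (by omega))
        ((hg' (n + 1) le_rfl).sub le_rfl hle) ?_ hc
      · intro s hs
        have := hfar s hs _ hv1
        linarith
      · intro s hs
        have := hfar' s hs _ hv1
        linarith
    have hv0 : 0 ≤ σ (n + 1) := hu.trans huv.le
    exact conn_straight hv0 (by linarith) (by linarith) (by linarith) hi hp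
      (hg (n + 1) le_rfl) hi' hp' (hg' (n + 1) le_rfl) c1

end Pool.Agent.H59.HF
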