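import Pool.Agent.H59.HF.Join
import Pool.Agent.H59.HF.TgA
import Pool.Agent.H59.HF.ConnA
import Pool.Agent.H59.HF.ZigC

/-! MODULE Crumple (about 130 lines). The last geodesic piece `[v, v + M h]` is crumpled, the rest is fixed.

`conn_join` with `L t = γ`, `q t = tg γ w v`, `R t = zig M h (h + t (lam - h))` (the value stays in `[lam, h]`), `l = M h`. At `t = 0` the zigzag is
straight (`zig_self`), so the glued arc is `γ` on `[0, v + M h]` (`tg_fwd`, `fr_eqt`); use `Conn.congr`. `hsep`: for `s` in `[w,v]` `ne_of_pos` and `zig_pos`; for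
`s` in `[0,w]`: by `zig_near` the point `fr .. (zig x)` is at distance at most `4 h` from `fr .. (eqt y) = γ (v + y)` (`fr_sub`, `fr_norm`, `fr_eqt`, `tg_fwd`), but
`‖γ s - γ (v + y)‖ > 4 h` by `hfar`. -/

open scoped RealInnerProductSpace
open Set

namespace Pool.Agent.H59.HF

theorem conn_crumple {γ : ℝ → E3} {B : Finset ℝ} {w v h lam : ℝ} {M : ℕ} (hw : 0 ≤ w)
    (h1 : w < v) (h2 : v - w < Real.pi) (hM : 0 < M) (hl : 0 < lam) (hle : lam ≤ h)
    (hMh : M * h < Real.pi) (hi : InjOn γ (Icc 0 (v + M * h))) (hp : PG B (v + M * h) γ)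
    (hg : Geo γ w (v + M * h))
    (hfar : ∀ s ∈ Icc 0 w, ∀ x ∈ Icc v (v + M * h), 4 * h < ‖γ s - γ x‖) :
    Conn (v + M * h) γ (jn v γ (tg γ w v) (zig M h lam)) := by
  have hh : 0 < h := lt_of_lt_of_le hl hle
  have hM1 : (1 : ℝ) ≤ M := by exact_mod_cast hM
  have hπ : h < Real.pi := by nlinarith
  have hMh0 : 0 < M * h := by positivity
  have hv : 0 < v := lt_of_le_of_lt hw h1
  have hgv : Geo γ w v := hg.sub le_rfl (by linarith)
  have hmu : ∀ t ∈ Icc (0 : ℝ) 1, 0 < h + t * (lam - h) ∧ h + t * (lam - h) ≤ h := by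
    intro t ht
    have e1 : 0 ≤ t * (h - lam) := mul_nonneg ht.1 (by linarith)
    have e2 : t * (h - lam) ≤ 1 * (h - lam) := mul_le_mul_of_nonneg_right ht.2 (by linarith)
    constructor
    · linarith
    · linarith
  have hon : ON (γ v) (tg γ w v) := tg_on hgv h1 h2
  have hfwd : ∀ y ∈ Icc 0 (M * h), fr (γ v) (tg γ w v) (eqt y) = γ (v + y) := by
    intro y hy
    rw [fr_eqt]
    have := tg_fwd hg h1 h2 (by linarith) (s := v + y) ⟨by linarith [hy.1], by linarith [hy.2]⟩
    rw [add_sub_cancel_left] at this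
    exact this.symm
  have hsep : ∀ t ∈ Icc (0 : ℝ) 1, ∀ s ∈ Icc 0 v, ∀ x ∈ Ioc 0 (M * h),
      γ s ≠ fr (γ v) (tg γ w v) (zig M h (h + t * (lam - h)) x) := by
    intro t ht s hs x hx
    obtain ⟨m1, m2⟩ := hmu t ht
    rcases le_total w s with hws | hws
    · exact ne_of_pos hgv h1 h2 ⟨hws, hs.2⟩ (zig_pos m1 m2 hπ hM hMh hx)
    · intro heq
      obtain ⟨y, hy, _, hd⟩ := zig_near m1 m2 hπ hM ⟨hx.1.le, hx.2⟩
      have e1 := hfar s ⟨hs.1, hws⟩ (v + y) ⟨by linarith [hy.1], by linarith [hy.2]⟩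
      rw [heq, ← hfwd y hy, ← fr_sub, fr_norm hon] at e1
      linarith
  have hconn := conn_join (v := v) (l := M * h) hv.le hMh0.le (BL := B)
    (BR := (Finset.range (M + 1)).image fun k : ℕ => (k : ℝ) * h)
    (L := fun _ => γ) (R := fun t => zig M h (h + t * (lam - h)))
    (q := fun _ => tg γ w v)
    ((hp.restrict (by linarith)).cont.comp continuousOn_snd fun z hz => hz.2)
    (fun _ _ => hi.mono (Icc_subset_Icc le_rfl (by linarith)))
    (fun _ _ => hp.restrict (by linarith)) continuousOn_const (fun _ _ => hon)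
    (by
      have hc : Continuous fun z : ℝ × ℝ => (h + z.1 * (lam - h), z.2) := by fun_prop
      exact (zig_cont hh hπ).comp hc.continuousOn fun z hz => ⟨hmu z.1 hz.1, mem_univ _⟩)
    (fun t ht => zig_inj (hmu t ht).1 (hmu t ht).2 hπ hM hMh)
    (fun t ht => zig_pg (hmu t ht).1 (hmu t ht).2 hπ hM)
    (fun t ht => zig_zero (hmu t ht).1 (hmu t ht).2 hπ hM)
    hsep
  refine hconn.congr ?_ ?_
  · intro x hx
    simp only [jn, zero_mul, add_zero]
    by_cases hxv : x ≤ v
    · rw [if_pos hxv]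
    · rw [if_neg hxv]
      push Not at hxv
      rw [zig_self hh hπ hM ⟨by linarith, by linarith [hx.2]⟩, hfwd _ ⟨by linarith, by linarith [hx.2]⟩]
      congr 1
      ring
  · intro x _
    have e1 : h + 1 * (lam - h) = lam := by ring
    simp only [e1]

end Pool.Agent.H59.HF
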