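import Mathlib

/-! # Hinged chains of convex polygons around a common vertex (MP_7e3f48_co)

`HChain k`: convex polygons `P 0, ..., P k` (convex hulls of finite sets) in the plane; `V i` is a vertex of
`P i` and `[V i, a i]`, `[V i, b i]` are the two edges of `P i` at `V i`; hinge `i` (for `i < k`)
glues the edge `[V i, b i]` of `P i` to the edge `[V (i+1), a (i+1)]` of `P (i+1)`, so all hinges issue
from one common vertex of the glued space. `IsConfig`: configurations (injective on the glued space,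
isometric on every polygon). `Motion H C f g F`: the family `F` is a motion from `f` to `g` which uses
the additional creases `C` (a finite set of segments in every polygon, fixed during the motion).

Second part: arcs on the unit sphere. `Geo γ s t`: `γ` is a unit speed geodesic on `[s,t]`. `PG B S γ`:
`γ` is piecewise geodesic on `[0,S]` with breakpoints in `B`. `Conn S γ γ'`: the injective arcs `γ`,
`γ'` are joined by a continuous family of injective piecewise geodesic arcs with a finite set of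
breakpoints which does not depend on the time. -/

open scoped RealInnerProductSpace
open Set

namespace Pool.Agent.H59.HF

/-- the plane -/
abbrev E2 := EuclideanSpace ℝ (Fin 2)

/-- the space -/
abbrev E3 := EuclideanSpace ℝ (Fin 3)

/-! ## hinged chains -/

/-- `[A,B]` is an edge of the convex set `P`: it is the intersection of `P` with a supporting line -/
def IsEdge (P : Set E2) (A B : E2) : Prop :=
  A ≠ B ∧ ∃ n : E2, (∀ x ∈ P, ⟪n, x - A⟫ ≤ 0) ∧ {x | x ∈ P ∧ ⟪n, x - A⟫ = 0} = segment ℝ A B

/-- a chain of `k + 1` convex polygons whose hinges issue from a common vertex -/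
structure HChain (k : ℕ) where
  /-- the vertices of the polygons -/
  vert : Fin (k + 1) → Finset E2
  /-- the common vertex, seen in the `i`-th polygon -/
  V : Fin (k + 1) → E2
  /-- the other end of the first edge at `V i` -/
  a : Fin (k + 1) → E2
  /-- the other end of the second edge at `V i` -/
  b : Fin (k + 1) → E2
  edge_a : ∀ i, IsEdge (convexHull ℝ (vert i : Set E2)) (V i) (a i)
  edge_b : ∀ i, IsEdge (convexHull ℝ (vert i : Set E2)) (V i) (b i)
  /-- the two edges at `V i` are not on one line -/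
  indep : ∀ i, LinearIndependent ℝ ![a i - V i, b i - V i]
  /-- hinged edges have equal lengths -/
  len : ∀ i : Fin k, dist (V i.castSucc) (b i.castSucc) = dist (V i.succ) (a i.succ)

variable {k : ℕ}

/-- the `i`-th polygon -/
def HChain.poly (H : HChain k) (i : Fin (k + 1)) : Set E2 := convexHull ℝ (H.vert i : Set E2)

/-- hinge `i` identifies `[V i, b i]` with `[V (i+1), a (i+1)]` pointwise -/
inductive Glue (H : HChain k) : Fin (k + 1) × E2 → Fin (k + 1) × E2 → Prop
  | mk (i : Fin k) (s : ℝ) (h0 : 0 ≤ s) (h1 : s ≤ 1) :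
      Glue H (i.castSucc, H.V i.castSucc + s • (H.b i.castSucc - H.V i.castSucc))
        (i.succ, H.V i.succ + s • (H.a i.succ - H.V i.succ))

/-- two points of the polygons are the same point of the glued space -/
def Same (H : HChain k) : Fin (k + 1) × E2 → Fin (k + 1) × E2 → Prop :=
  Relation.EqvGen (Glue H)

/-- the maps `f i` on the polygons give an injective map of the glued space -/
def IsEmb (H : HChain k) (f : Fin (k + 1) → E2 → E3) : Prop :=
  (∀ p q, Glue H p q → f p.1 p.2 = f q.1 q.2) ∧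
    ∀ p q, p.2 ∈ H.poly p.1 → q.2 ∈ H.poly q.1 → f p.1 p.2 = f q.1 q.2 → Same H p q

/-- configurations: injective on the glued space, isometric on every polygon -/
def IsConfig (H : HChain k) (f : Fin (k + 1) → E2 → E3) : Prop :=
  IsEmb H f ∧ ∀ i, ∀ x ∈ H.poly i, ∀ y ∈ H.poly i, dist (f i x) (f i y) = dist x y

/-- the union of the creases in the `i`-th polygon -/
def crs (C : Fin (k + 1) → Finset (E2 × E2)) (i : Fin (k + 1)) : Set E2 :=
  ⋃ p ∈ C i, segment ℝ p.1 p.2

/-- the creases are segments drawn in the polygons -/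
def Drawn (H : HChain k) (C : Fin (k + 1) → Finset (E2 × E2)) : Prop :=
  ∀ i, ∀ p ∈ C i, segment ℝ p.1 p.2 ⊆ H.poly i

/-- `f` is an isometry on every piece of the subdivision of the polygons by the creases -/
def IsBent (H : HChain k) (C : Fin (k + 1) → Finset (E2 × E2)) (f : Fin (k + 1) → E2 → E3) :
    Prop :=
  ∀ i, ∀ x ∈ H.poly i \ crs C i, ∀ y ∈ connectedComponentIn (H.poly i \ crs C i) x,
    dist (f i x) (f i y) = dist x y

/-- `F` is a motion from `f` to `g` using the additional creases `C` -/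
structure Motion (H : HChain k) (C : Fin (k + 1) → Finset (E2 × E2))
    (f g : Fin (k + 1) → E2 → E3) (F : ℝ → Fin (k + 1) → E2 → E3) : Prop where
  cont : ∀ i, ContinuousOn (fun z : ℝ × E2 => F z.1 i z.2) (Icc 0 1 ×ˢ H.poly i)
  emb : ∀ t ∈ Icc (0 : ℝ) 1, IsEmb H (F t)
  bent : ∀ t ∈ Icc (0 : ℝ) 1, IsBent H C (F t)
  zero : ∀ i, ∀ x ∈ H.poly i, F 0 i x = f i x
  one : ∀ i, ∀ x ∈ H.poly i, F 1 i x = g i x

/-! ## arcs on the sphere -/

/-- `γ` is a unit speed geodesic of the unit sphere on `[s,t]` -/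
def Geo (γ : ℝ → E3) (s t : ℝ) : Prop :=
  ∃ p q : E3, ‖p‖ = 1 ∧ ‖q‖ = 1 ∧ ⟪p, q⟫ = 0 ∧
    ∀ x ∈ Icc s t, γ x = Real.cos (x - s) • p + Real.sin (x - s) • q

/-- `γ` is piecewise geodesic on `[0,S]`, with breakpoints in `B` -/
def PG (B : Finset ℝ) (S : ℝ) (γ : ℝ → E3) : Prop :=
  ∀ s t, 0 ≤ s → s ≤ t → t ≤ S → (∀ b ∈ B, b ≤ s ∨ t ≤ b) → Geo γ s t

/-- a continuous family of injective piecewise geodesic arcs from `γ` to `γ'` -/
structure APath (S : ℝ) (B : Finset ℝ) (Γ : ℝ → ℝ → E3) (γ γ' : ℝ → E3) : Prop where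
  cont : ContinuousOn (fun z : ℝ × ℝ => Γ z.1 z.2) (Icc 0 1 ×ˢ Icc 0 S)
  inj : ∀ t ∈ Icc (0 : ℝ) 1, InjOn (Γ t) (Icc 0 S)
  pg : ∀ t ∈ Icc (0 : ℝ) 1, PG B S (Γ t)
  zero : ∀ s ∈ Icc (0 : ℝ) S, Γ 0 s = γ s
  one : ∀ s ∈ Icc (0 : ℝ) S, Γ 1 s = γ' s

/-- `γ` and `γ'` are joined with finitely many breakpoints -/
def Conn (S : ℝ) (γ γ' : ℝ → E3) : Prop := ∃ B Γ, APath S B Γ γ γ'

/-! ## frames -/

/-- cross product -/
noncomputable def crp (p q : E3) : E3 :=
  !₂[p 1 * q 2 - p 2 * q 1, p 2 * q 0 - p 0 * q 2, p 0 * q 1 - p 1 * q 0]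

/-- the point with coordinates `v` in the frame `p, q, p x q` -/
noncomputable def fr (p q v : E3) : E3 := v 0 • p + v 1 • q + v 2 • crp p q

/-- `p`, `q` are orthonormal -/
def ON (p q : E3) : Prop := ‖p‖ = 1 ∧ ‖q‖ = 1 ∧ ⟪p, q⟫ = 0

/-- standard unit vectors: point of the equator with longitude `x` -/
noncomputable def eqt (x : ℝ) : E3 := !₂[Real.cos x, Real.sin x, 0]

/-! ## zigzags -/

/-- cosine of the latitude: `cos (h/2) / cos (lam/2)` -/
noncomputable def zc (h lam : ℝ) : ℝ := Real.cos (h / 2) / Real.cos (lam / 2)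

/-- sine of the latitude -/
noncomputable def zs (h lam : ℝ) : ℝ := Real.sqrt (1 - zc h lam ^ 2)

/-- the `k`-th vertex of the zigzag with steps `h` and longitude differences `lam`, in the frame of
its initial point -/
noncomputable def zw (h lam : ℝ) (k : ℕ) : E3 :=
  !₂[zc h lam ^ 2 * Real.cos (k * lam) + (-1) ^ k * zs h lam ^ 2,
    zc h lam * Real.sin (k * lam),
    zs h lam * zc h lam * ((-1) ^ k - Real.cos (k * lam))]

/-- spherical hat function -/
noncomputable def hat (h : ℝ) (k : ℕ) (x : ℝ) : ℝ := Real.sin (max 0 (h - |x - k * h|)) / Real.sin h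

/-- the zigzag with `M` steps `h`, as a curve with unit speed -/
noncomputable def zig (M : ℕ) (h lam x : ℝ) : E3 :=
  ∑ k ∈ Finset.range (M + 1), hat h k x • zw h lam k

end Pool.Agent.H59.HF
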