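import Pool.Agent.H59.HF.Defs

/-! MODULE GeoA. Elementary facts on geodesics. Everything follows from the formula
`γ x = cos (x - s) p + sin (x - s) q` with `p, q` orthonormal, `cos_sub`, `sin_sub`.
`sub`: new pair `p' = cos c p + sin c q`, `q' = - sin c p + cos c q` with `c = s' - s`.
`dist_le`: `‖γ x - γ y‖^2 = 2 - 2 cos (x - y) <= (x - y)^2` (`Real.one_sub_sq_div_two_le_cos`). -/

open scoped RealInnerProductSpace
open Set

namespace Pool.Agent.H59.HF

variable {γ γ' : ℝ → E3} {s t s' t' x y : ℝ}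

private theorem geoA_inner {p q : E3} (hp : ‖p‖ = 1) (hq : ‖q‖ = 1) (hpq : ⟪p, q⟫ = 0)
    (a b c d : ℝ) : ⟪a • p + b • q, c • p + d • q⟫ = a * c + b * d := by
  have hqp : ⟪q, p⟫ = 0 := by rw [real_inner_comm]; exact hpq
  rw [inner_add_left, inner_add_right, inner_add_right, real_inner_smul_left,
    real_inner_smul_left, real_inner_smul_left, real_inner_smul_left, real_inner_smul_right,
    real_inner_smul_right, real_inner_smul_right, real_inner_smul_right,
    real_inner_self_eq_norm_sq, real_inner_self_eq_norm_sq, hp, hq, hpq, hqp]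
  ring

theorem Geo.inner_eq (h : Geo γ s t) (hx : x ∈ Icc s t) (hy : y ∈ Icc s t) :
    ⟪γ x, γ y⟫ = Real.cos (x - y) := by
  obtain ⟨p, q, hp, hq, hpq, e⟩ := h
  rw [e x hx, e y hy, geoA_inner hp hq hpq, ← Real.cos_sub]
  congr 1
  ring

theorem Geo.unit (h : Geo γ s t) (hx : x ∈ Icc s t) : ‖γ x‖ = 1 := by
  have h1 := h.inner_eq hx hx
  rw [sub_self, Real.cos_zero, real_inner_self_eq_norm_sq] at h1
  nlinarith [norm_nonneg (γ x)]

theorem Geo.sub (h : Geo γ s t) (h1 : s ≤ s') (h3 : t' ≤ t) : Geo γ s' t' := by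
  obtain ⟨p, q, hp, hq, hpq, e⟩ := h
  have hn : ∀ a b : ℝ, a ^ 2 + b ^ 2 = 1 → ‖a • p + b • q‖ = 1 := by
    intro a b hab
    have h4 := geoA_inner hp hq hpq a b a b
    rw [real_inner_self_eq_norm_sq] at h4
    nlinarith [norm_nonneg (a • p + b • q)]
  have hc := Real.cos_sq_add_sin_sq (s' - s)
  refine ⟨Real.cos (s' - s) • p + Real.sin (s' - s) • q,
    (-Real.sin (s' - s)) • p + Real.cos (s' - s) • q, hn _ _ hc, hn _ _ (by linarith), ?_, ?_⟩
  · rw [geoA_inner hp hq hpq]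
    ring
  · intro x hx
    rw [e x ⟨h1.trans hx.1, hx.2.trans h3⟩]
    have h4 : x - s = (x - s') + (s' - s) := by ring
    rw [h4, Real.cos_add, Real.sin_add]
    module

theorem Geo.congr (h : Geo γ s t) (e : ∀ x ∈ Icc s t, γ' x = γ x) : Geo γ' s t := by
  obtain ⟨p, q, hp, hq, hpq, e'⟩ := h
  exact ⟨p, q, hp, hq, hpq, fun x hx => (e x hx).trans (e' x hx)⟩

theorem Geo.shift (h : Geo γ s t) (c : ℝ) : Geo (fun x => γ (x - c)) (s + c) (t + c) := by
  obtain ⟨p, q, hp, hq, hpq, e⟩ := h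
  refine ⟨p, q, hp, hq, hpq, fun x hx => ?_⟩
  have h1 : x - c ∈ Icc s t := ⟨by linarith [hx.1], by linarith [hx.2]⟩
  have h2 : x - (s + c) = x - c - s := by ring
  rw [h2]
  exact e _ h1

theorem Geo.dist_le (h : Geo γ s t) (hx : x ∈ Icc s t) (hy : y ∈ Icc s t) :
    ‖γ x - γ y‖ ≤ |x - y| := by
  have h1 : ‖γ x - γ y‖ ^ 2 ≤ (x - y) ^ 2 := by
    rw [norm_sub_sq_real, h.unit hx, h.unit hy, h.inner_eq hx hy]
    have := Real.one_sub_sq_div_two_le_cos (x := x - y)
    linarith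
  have h2 := Real.sqrt_le_sqrt h1
  rwa [Real.sqrt_sq (norm_nonneg _), Real.sqrt_sq_eq_abs] at h2

theorem Geo.cont (h : Geo γ s t) : ContinuousOn γ (Icc s t) := by
  obtain ⟨p, q, hp, hq, hpq, e⟩ := h
  have h1 : Continuous fun x : ℝ => Real.cos (x - s) • p + Real.sin (x - s) • q := by
    fun_prop
  exact h1.continuousOn.congr e

/-- law of cosines -/
theorem Geo.cosines (h : Geo γ s t) (hx : x ∈ Icc s t) (hy : y ∈ Icc s t) (r r' : ℝ) :
    ‖r • γ x - r' • γ y‖ ^ 2 = r ^ 2 + r' ^ 2 - 2 * r * r' * Real.cos (x - y) := by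
  rw [norm_sub_sq_real, norm_smul, norm_smul, h.unit hx, h.unit hy, real_inner_smul_left,
    real_inner_smul_right, h.inner_eq hx hy, mul_one, mul_one, Real.norm_eq_abs, Real.norm_eq_abs,
    sq_abs, sq_abs]
  ring

/-- a geodesic shorter than `2 pi` is injective -/
theorem Geo.injOn (h : Geo γ s t) (ht : t - s < 2 * Real.pi) : InjOn γ (Icc s t) := by
  intro x hx y hy hxy
  have h1 := h.inner_eq hx hy
  rw [← hxy, real_inner_self_eq_norm_sq, h.unit hx, one_pow] at h1
  have h2 := (Real.cos_eq_one_iff_of_lt_of_lt (x := x - y) (by linarith [hx.1, hy.2])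
    (by linarith [hx.2, hy.1])).1 h1.symm
  linarith

/-- on `[s,t]` the geodesic is given by its position and direction at `s` -/
theorem Geo.of_eq {p q : E3} (h : ON p q)
    (e : ∀ x ∈ Icc s t, γ x = Real.cos (x - s) • p + Real.sin (x - s) • q) : Geo γ s t := by
  exact ⟨p, q, h.1, h.2.1, h.2.2, e⟩

end Pool.Agent.H59.HF
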