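import Pool.Agent.H59.HF.FrA
import Pool.Agent.H59.HF.PGA

/-! MODULE Join (about 150 lines). Gluing a left motion `L` on `[0,v]` and a right motion `R` on `[0,l]` (in the moving frame
`p t = L t v`, `q t`).

Continuity: both formulas are continuous on the closed sets `s <= v`, `v <= s` and agree at `s = v` (`R t 0 = eqt 0`, `fr_eqt`). Injectivity:
left-left `hLi`; right-right `hRi` and `fr_inj`; left-right `hsep` (for `s <= v < s'`). Piecewise geodesic: an interval `[s,t]` without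
breakpoint inside is contained in `[0,v]` or in `[v,v+l]` because `v` is a breakpoint; in the second case `R t` is geodesic on
`[s - v, t - v]` (`hRp`, breakpoints shifted), use `Geo.fr`, `Geo.shift`, `Geo.congr`. -/

open scoped RealInnerProductSpace
open Set

namespace Pool.Agent.H59.HF

/-- the glued arc -/
noncomputable def jn (v : ℝ) (L : ℝ → E3) (q : E3) (R : ℝ → E3) (s : ℝ) : E3 :=
  if s ≤ v then L s else fr (L v) q (R (s - v))

private theorem join_right {v : ℝ} {L : ℝ → E3} {q : E3} {R : ℝ → E3} (h0 : R 0 = eqt 0)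
    {s : ℝ} (hs : v ≤ s) : jn v L q R s = fr (L v) q (R (s - v)) := by
  rcases hs.eq_or_lt with h | h
  · subst h
    rw [jn, if_pos le_rfl, sub_self, h0, fr_eqt, Real.cos_zero, Real.sin_zero, one_smul, zero_smul,
      add_zero]
  · rw [jn, if_neg (not_le.mpr h)]

theorem conn_join {v l : ℝ} (hv : 0 ≤ v) (hl : 0 ≤ l) {BL BR : Finset ℝ} {L R : ℝ → ℝ → E3}
    {q : ℝ → E3}
    (hLc : ContinuousOn (fun z : ℝ × ℝ => L z.1 z.2) (Icc 0 1 ×ˢ Icc 0 v))
    (hLi : ∀ t ∈ Icc (0 : ℝ) 1, InjOn (L t) (Icc 0 v)) (hLp : ∀ t ∈ Icc (0 : ℝ) 1, PG BL v (L t))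
    (hq : ContinuousOn q (Icc 0 1)) (hon : ∀ t ∈ Icc (0 : ℝ) 1, ON (L t v) (q t))
    (hRc : ContinuousOn (fun z : ℝ × ℝ => R z.1 z.2) (Icc 0 1 ×ˢ Icc 0 l))
    (hRi : ∀ t ∈ Icc (0 : ℝ) 1, InjOn (R t) (Icc 0 l)) (hRp : ∀ t ∈ Icc (0 : ℝ) 1, PG BR l (R t))
    (hR0 : ∀ t ∈ Icc (0 : ℝ) 1, R t 0 = eqt 0)
    (hsep : ∀ t ∈ Icc (0 : ℝ) 1, ∀ s ∈ Icc 0 v, ∀ x ∈ Ioc 0 l,
      L t s ≠ fr (L t v) (q t) (R t x)) :
    Conn (v + l) (jn v (L 0) (q 0) (R 0)) (jn v (L 1) (q 1) (R 1)) := by
  classical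
  refine ⟨insert v (BL ∪ BR.image (fun b => b + v)), fun t => jn v (L t) (q t) (R t),
    ⟨?_, ?_, ?_, fun _ _ => rfl, fun _ _ => rfl⟩⟩
  · -- continuity
    have hU : (Icc (0 : ℝ) 1) ×ˢ Icc (0 : ℝ) (v + l)
        = Icc (0 : ℝ) 1 ×ˢ Icc (0 : ℝ) v ∪ Icc (0 : ℝ) 1 ×ˢ Icc v (v + l) := by
      rw [← prod_union, Icc_union_Icc_eq_Icc hv (by linarith)]
    rw [hU]
    refine ContinuousOn.union_of_isClosed ?_ ?_ (isClosed_Icc.prod isClosed_Icc)
      (isClosed_Icc.prod isClosed_Icc)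
    · refine hLc.congr fun z hz => ?_
      exact if_pos hz.2.2
    · have h1 : ContinuousOn (fun z : ℝ × ℝ => L z.1 v) (Icc 0 1 ×ˢ Icc v (v + l)) :=
        hLc.comp (f := fun z : ℝ × ℝ => (z.1, v)) (by fun_prop)
          (fun z hz => ⟨hz.1, hv, le_rfl⟩)
      have h2 : ContinuousOn (fun z : ℝ × ℝ => q z.1) (Icc 0 1 ×ˢ Icc v (v + l)) :=
        hq.comp (f := fun z : ℝ × ℝ => z.1) (by fun_prop) (fun z hz => hz.1)
      have h3 : ContinuousOn (fun z : ℝ × ℝ => R z.1 (z.2 - v)) (Icc 0 1 ×ˢ Icc v (v + l)) :=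
        hRc.comp (f := fun z : ℝ × ℝ => (z.1, z.2 - v)) (by fun_prop)
          (fun z hz => ⟨hz.1, by have := hz.2.1; exact sub_nonneg.mpr this, by
            have := hz.2.2
            change z.2 - v ≤ l
            linarith⟩)
      have h4 := fr_cont.comp_continuousOn (h1.prodMk (h2.prodMk h3))
      refine h4.congr fun z hz => ?_
      exact join_right (hR0 z.1 hz.1) hz.2.1
  · -- injectivity
    intro t ht x hx y hy hxy
    rcases le_or_gt x v with h1 | h1 <;> rcases le_or_gt y v with h2 | h2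
    · have e1 : jn v (L t) (q t) (R t) x = L t x := if_pos h1
      have e2 : jn v (L t) (q t) (R t) y = L t y := if_pos h2
      rw [e1, e2] at hxy
      exact hLi t ht ⟨hx.1, h1⟩ ⟨hy.1, h2⟩ hxy
    · have e1 : jn v (L t) (q t) (R t) x = L t x := if_pos h1
      have e2 : jn v (L t) (q t) (R t) y = fr (L t v) (q t) (R t (y - v)) := if_neg (not_le.mpr h2)
      rw [e1, e2] at hxy
      exact absurd hxy (hsep t ht x ⟨hx.1, h1⟩ (y - v) ⟨by linarith, by linarith [hy.2]⟩)
    · have e1 : jn v (L t) (q t) (R t) x = fr (L t v) (q t) (R t (x - v)) := if_neg (not_le.mpr h1)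
      have e2 : jn v (L t) (q t) (R t) y = L t y := if_pos h2
      rw [e1, e2] at hxy
      exact absurd hxy.symm (hsep t ht y ⟨hy.1, h2⟩ (x - v) ⟨by linarith, by linarith [hx.2]⟩)
    · have e1 : jn v (L t) (q t) (R t) x = fr (L t v) (q t) (R t (x - v)) := if_neg (not_le.mpr h1)
      have e2 : jn v (L t) (q t) (R t) y = fr (L t v) (q t) (R t (y - v)) := if_neg (not_le.mpr h2)
      rw [e1, e2] at hxy
      have h3 := hRi t ht (x₁ := x - v) (x₂ := y - v) ⟨by linarith, by linarith [hx.2]⟩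
        ⟨by linarith, by linarith [hy.2]⟩ (fr_inj (hon t ht) hxy)
      linarith
  · -- piecewise geodesic
    intro t ht s s' h0 h1 h2 h3
    rcases h3 v (Finset.mem_insert_self _ _) with h4 | h4
    · have h5 : Geo (R t) (s - v) (s' - v) := by
        refine hRp t ht (s - v) (s' - v) (by linarith) (by linarith) (by linarith) fun b hb => ?_
        have h6 := h3 (b + v) (Finset.mem_insert_of_mem (Finset.mem_union_right _
          (Finset.mem_image_of_mem _ hb)))
        rcases h6 with h6 | h6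
        · left; linarith
        · right; linarith
      have h6 := (h5.fr (hon t ht)).shift v
      rw [sub_add_cancel, sub_add_cancel] at h6
      refine h6.congr fun x hx => ?_
      exact join_right (hR0 t ht) (h4.trans hx.1)
    · have h5 : Geo (L t) s s' := by
        refine hLp t ht s s' h0 h1 h4 fun b hb => ?_
        exact h3 b (Finset.mem_insert_of_mem (Finset.mem_union_left _ hb))
      refine h5.congr fun x hx => ?_
      exact if_pos (hx.2.trans h4)

end Pool.Agent.H59.HF
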