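import Pool.Agent.H59.HF.PlaneA

/-! MODULE PlaneB (about 160 lines). Creases and pieces.

`exists_crease`: by `exists_pt` there is `x0 ≠ V` in `P` with `om x0 = w`. The set of all `r >= 0` with `V + r (x0 - V)` in `P` is closed, bounded (`P` is compact: convex
hull of a finite set) and contains `1`: let `r1 >= 1` be its maximum, `z = V + r1 (x0 - V)`. A point `x = V + r (z - V)`, `0 < r <= 1`, has `om x = om z = w` (`angle_smul_right_of_pos`)
and is in `P` (convexity). Conversely `x ≠ V` in `P` with `om x = w` is `V + r (x0 - V)` with `r = ‖x - V‖ / ‖x0 - V‖` (`exists_frame`: same direction), so `r <= r1`.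
`same_side`: if `om x < w < om y` (or the reverse), `om` is continuous on the component (it does not contain `V`; `continuousAt_angle`), which is preconnected
(`isPreconnected_connectedComponentIn`), so by `IsPreconnected.intermediate_value` there is `z` in it with `om z = w`, which is in `K`: contradiction. -/

open scoped RealInnerProductSpace
open Set

namespace Pool.Agent.H59.HF

variable {k : ℕ} (H : HChain k)

theorem exists_crease (i : Fin (k + 1)) {w : ℝ} (hw : w ∈ Ioo 0 (al H i)) :
    ∃ z ∈ H.poly i, segment ℝ (H.V i) z ⊆ H.poly i ∧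
      ∀ x ∈ H.poly i, x ∈ segment ℝ (H.V i) z ↔ (x = H.V i ∨ om H i x = w) := by
  obtain ⟨r0, hr0, hpt⟩ := exists_pt H i
  obtain ⟨x0, hx0, hn, ho⟩ := hpt r0 ⟨hr0, le_rfl⟩ w ⟨hw.1.le, hw.2.le⟩
  obtain ⟨e, e', he, he', hee, -, -, -, hrep⟩ := exists_frame H i
  have hx0V : x0 ≠ H.V i := by
    intro h
    rw [h, sub_self, norm_zero] at hn
    exact absurd hn hr0.ne
  set d : E2 := Real.cos w • e + Real.sin w • e' with hd
  have hx0d : x0 - H.V i = r0 • d := by
    have h := hrep x0 hx0 hx0V
    rw [hn, ho] at h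
    exact h
  have hd1 : ‖d‖ = 1 := by
    have h : ‖x0 - H.V i‖ = r0 * ‖d‖ := by
      rw [hx0d, norm_smul, Real.norm_of_nonneg hr0.le]
    rw [hn] at h
    field_simp at h
    exact h.symm
  have hconv : Convex ℝ (H.poly i) := convex_convexHull ℝ _
  have hcomp : IsCompact (H.poly i) := by
    unfold HChain.poly
    exact (H.vert i).finite_toSet.isCompact_convexHull ℝ
  have hT : IsCompact {x : E2 | x ∈ H.poly i ∧ x - H.V i = ‖x - H.V i‖ • d} := by
    have h1 : IsClosed {x : E2 | x - H.V i = ‖x - H.V i‖ • d} :=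
      isClosed_eq (by fun_prop) (by fun_prop)
    exact hcomp.inter_right h1
  obtain ⟨z, hz, hmax⟩ := hT.exists_isMaxOn
    (f := fun x => ‖x - H.V i‖) ⟨x0, hx0, by rw [hn]; exact hx0d⟩ (by fun_prop)
  have hzn : r0 ≤ ‖z - H.V i‖ := by
    have h : ‖x0 - H.V i‖ ≤ ‖z - H.V i‖ := hmax ⟨hx0, by rw [hn]; exact hx0d⟩
    rwa [hn] at h
  have hzn0 : 0 < ‖z - H.V i‖ := lt_of_lt_of_le hr0 hzn
  refine ⟨z, hz.1, hconv.segment_subset (V_mem H i) hz.1, fun x hx => ⟨fun h => ?_, fun h => ?_⟩⟩
  · rw [segment_eq_image'] at h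
    obtain ⟨θ, hθ, rfl⟩ := h
    rcases hθ.1.eq_or_lt with h0 | h0
    · left
      change H.V i + θ • (z - H.V i) = H.V i
      rw [← h0, zero_smul, add_zero]
    · right
      have h1 : (H.V i + θ • (z - H.V i)) - H.V i = (θ * ‖z - H.V i‖ / r0) • (x0 - H.V i) := by
        rw [add_sub_cancel_left, hx0d, smul_smul]
        conv_lhs => rw [hz.2, smul_smul]
        congr 1
        field_simp
      change InnerProductGeometry.angle (H.a i - H.V i) ((H.V i + θ • (z - H.V i)) - H.V i) = w
      rw [h1, InnerProductGeometry.angle_smul_right_of_pos _ _ (by positivity)]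
      exact ho
  · rcases h with h | h
    · rw [h]
      exact left_mem_segment ℝ _ _
    · by_cases hxV : x = H.V i
      · rw [hxV]
        exact left_mem_segment ℝ _ _
      · have h1 : x - H.V i = ‖x - H.V i‖ • d := by
          have h2 := hrep x hx hxV
          rw [h] at h2
          exact h2
        have h2 : ‖x - H.V i‖ ≤ ‖z - H.V i‖ := hmax ⟨hx, h1⟩
        rw [segment_eq_image']
        refine ⟨‖x - H.V i‖ / ‖z - H.V i‖, ⟨by positivity, (div_le_one hzn0).2 h2⟩, ?_⟩
        change H.V i + (‖x - H.V i‖ / ‖z - H.V i‖) • (z - H.V i) = x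
        have h3 : (‖x - H.V i‖ / ‖z - H.V i‖) • (z - H.V i) = x - H.V i := by
          rw [h1]
          conv_lhs => rw [hz.2]
          rw [smul_smul, norm_smul, norm_smul, norm_norm, norm_norm, hd1]
          congr 1
          field_simp
        rw [h3]
        abel

theorem om_cont (i : Fin (k + 1)) : ContinuousOn (om H i) {x | x ≠ H.V i} := by
  intro x hx
  have h1 : ContinuousAt (fun y : E2 × E2 => InnerProductGeometry.angle y.1 y.2)
      (H.a i - H.V i, x - H.V i) :=
    InnerProductGeometry.continuousAt_angle (sub_ne_zero.2 (a_ne H i)) (sub_ne_zero.2 hx)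
  have h2 : ContinuousAt (fun y : E2 => ((H.a i - H.V i, y - H.V i) : E2 × E2)) x := by
    fun_prop
  exact (ContinuousAt.comp (f := fun y : E2 => ((H.a i - H.V i, y - H.V i) : E2 × E2))
    h1 h2).continuousWithinAt

theorem same_side (i : Fin (k + 1)) {K : Set E2} {w : ℝ} (hV : H.V i ∈ K)
    (hK : ∀ x ∈ H.poly i, om H i x = w → x ∈ K) {x y : E2} (hx : x ∈ H.poly i \ K)
    (hy : y ∈ connectedComponentIn (H.poly i \ K) x) :
    (om H i x < w ∧ om H i y < w) ∨ (w < om H i x ∧ w < om H i y) := by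
  have hsub : connectedComponentIn (H.poly i \ K) x ⊆ H.poly i \ K :=
    connectedComponentIn_subset _ _
  have hpre : IsPreconnected (connectedComponentIn (H.poly i \ K) x) :=
    isPreconnected_connectedComponentIn
  have hxc : x ∈ connectedComponentIn (H.poly i \ K) x := mem_connectedComponentIn hx
  have hne : ∀ z ∈ connectedComponentIn (H.poly i \ K) x, om H i z ≠ w := fun z hz h =>
    (hsub hz).2 (hK z (hsub hz).1 h)
  have hcont : ContinuousOn (om H i) (connectedComponentIn (H.poly i \ K) x) :=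
    (om_cont H i).mono (fun z hz h => (hsub hz).2 (h ▸ hV))
  rcases lt_or_gt_of_ne (hne x hxc) with h1 | h1 <;> rcases lt_or_gt_of_ne (hne y hy) with h2 | h2
  · exact Or.inl ⟨h1, h2⟩
  · exfalso
    obtain ⟨z, hz, hzw⟩ := hpre.intermediate_value hxc hy hcont ⟨h1.le, h2.le⟩
    exact hne z hz hzw
  · exfalso
    obtain ⟨z, hz, hzw⟩ := hpre.intermediate_value hy hxc hcont ⟨h2.le, h1.le⟩
    exact hne z hz hzw
  · exact Or.inr ⟨h1, h2⟩

end Pool.Agent.H59.HF
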