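import Pool.Agent.H59.HF.SameA
import Pool.Agent.H59.HF.PlaneB
import Pool.Agent.H59.HF.PGA

/-! MODULE MotA (about 250 lines, may be split). A path of arcs gives a motion.

`F t i x = ((1 - t) c + t c') + ‖x - V i‖ Γ t (ss i + om i x)`. Creases: for every `b` in `B` with `ss i < b < ss (i+1)` the segment from `V i` of `exists_crease` with
`w = b - ss i` (choose it; `Finset.image`). `Drawn`: `exists_crease`. Continuity on `[0,1] x P i`: at `x ≠ V` composition (`om_cont`); at `x = V`: `‖ ‖x - V‖ Γ ‖ = ‖x - V‖`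
(`PG.unit`, `sg_mem`), squeeze. `emb_of`: compatibility by `same_inv` for a generator and injectivity: `F p = F q` gives
`‖x - V‖ γ s = ‖y - V'‖ γ s'`, norms equal; if not `0` then `γ s = γ s'`, `s = s'`; `same_of`. `bent_of`: let `x` in `P \ creases`, `y` in its component (so in `P \ creases`). If there is a
breakpoint in `(ss i, ss (i+1))`, then `V` is on a crease, `x, y ≠ V`, and by `same_side` no breakpoint is between `ss i + om x` and `ss i + om y`, so `Γ t` is geodesic between them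
and `Geo.cosines`, `dist_om` give equal distances. If there is none, `Γ t` is geodesic on `[ss i, ss (i+1)]` (also for `x = V` or `y = V`: the formula holds because the
factor `‖x - V‖` is `0`). -/

open scoped RealInnerProductSpace
open Set

namespace Pool.Agent.H59.HF

variable {k : ℕ} (H : HChain k)

/-- the map given by an arc -/
noncomputable def mp (c : E3) (γ : ℝ → E3) (i : Fin (k + 1)) (x : E2) : E3 :=
  c + ‖x - H.V i‖ • γ (ss H i + om H i x)

private theorem MotA_mem {i : Fin (k + 1)} {x : E2} (hx : x ∈ H.poly i) (hV : x ≠ H.V i) :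
    ss H i + om H i x ∈ Icc 0 (ss H (k + 1)) := sg_mem H hx hV

private theorem MotA_V (c : E3) (γ : ℝ → E3) (i : Fin (k + 1)) {x : E2} (hx : ‖x - H.V i‖ = 0) :
    mp H c γ i x = c := by
  rw [mp, hx, zero_smul, add_zero]

theorem emb_of {c : E3} {γ : ℝ → E3} (hi : InjOn γ (Icc 0 (ss H (k + 1))))
    (hu : ∀ s ∈ Icc 0 (ss H (k + 1)), ‖γ s‖ = 1) : IsEmb H (mp H c γ) := by
  constructor
  · intro p q h
    obtain ⟨h1, h2⟩ := same_inv H (Relation.EqvGen.rel _ _ h : Same H p q)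
    by_cases h0 : ‖p.2 - H.V p.1‖ = 0
    · rw [MotA_V H c γ p.1 h0, MotA_V H c γ q.1 (h1 ▸ h0)]
    · have h3 := h2 h0
      change c + ‖p.2 - H.V p.1‖ • γ (sg H p) = c + ‖q.2 - H.V q.1‖ • γ (sg H q)
      rw [h1, h3]
  · intro p q hp hq h
    have h' : ‖p.2 - H.V p.1‖ • γ (sg H p) = ‖q.2 - H.V q.1‖ • γ (sg H q) := by
      have e : c + ‖p.2 - H.V p.1‖ • γ (sg H p) = c + ‖q.2 - H.V q.1‖ • γ (sg H q) := h
      exact add_left_cancel e
    have key : ∀ r : Fin (k + 1) × E2, r.2 ∈ H.poly r.1 → ‖r.2 - H.V r.1‖ ≠ 0 →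
        sg H r ∈ Icc 0 (ss H (k + 1)) := by
      intro r hr h0
      refine sg_mem H (i := r.1) (x := r.2) hr (fun e => h0 ?_)
      rw [e, sub_self, norm_zero]
    have hn : ∀ r : Fin (k + 1) × E2, r.2 ∈ H.poly r.1 →
        ‖(‖r.2 - H.V r.1‖ • γ (sg H r))‖ = ‖r.2 - H.V r.1‖ := by
      intro r hr
      by_cases h0 : ‖r.2 - H.V r.1‖ = 0
      · rw [h0, zero_smul, norm_zero]
      · rw [norm_smul, hu _ (key r hr h0), mul_one, norm_norm]
    have h1 : ‖p.2 - H.V p.1‖ = ‖q.2 - H.V q.1‖ := by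
      rw [← hn p hp, ← hn q hq, h']
    refine same_of H hp hq h1 (fun h0 => ?_)
    have h0' : ‖q.2 - H.V q.1‖ ≠ 0 := h1 ▸ h0
    rw [h1] at h'
    exact hi (key p hp h0) (key q hq h0') (smul_right_injective E3 h0' h')

theorem exists_creases (B : Finset ℝ) :
    ∃ C : Fin (k + 1) → Finset (E2 × E2), Drawn H C ∧ (∀ i, ∀ p ∈ C i, p.1 = H.V i) ∧
      (∀ i : Fin (k + 1), (∃ b ∈ B, b ∈ Ioo (ss H i) (ss H (i + 1))) → H.V i ∈ crs C i) ∧
      ∀ i, ∀ x ∈ H.poly i, (∃ b ∈ B, b ∈ Ioo (ss H i) (ss H (i + 1)) ∧ ss H i + om H i x = b) →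
        x ∈ crs C i := by
  classical
  have h1 : ∀ (i : Fin (k + 1)) (b : ℝ), ∃ z : E2, b ∈ Ioo (ss H i) (ss H (i + 1)) →
      (segment ℝ (H.V i) z ⊆ H.poly i ∧
        ∀ x ∈ H.poly i, x ∈ segment ℝ (H.V i) z ↔ (x = H.V i ∨ om H i x = b - ss H i)) := by
    intro i b
    by_cases hb : b ∈ Ioo (ss H i) (ss H (i + 1))
    · have hw : b - ss H i ∈ Ioo 0 (al H i) := by
        rw [ss_succ] at hb
        exact ⟨by linarith [hb.1], by linarith [hb.2]⟩
      obtain ⟨z, -, h2, h3⟩ := exists_crease H i hw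
      exact ⟨z, fun _ => ⟨h2, h3⟩⟩
    · exact ⟨0, fun h => absurd h hb⟩
  choose z hz using h1
  refine ⟨fun i => (B.filter (fun b => b ∈ Ioo (ss H i) (ss H (i + 1)))).image
    (fun b => (H.V i, z i b)), ?_, ?_, ?_, ?_⟩
  · intro i p hp
    obtain ⟨b, hb, rfl⟩ := Finset.mem_image.1 hp
    exact (hz i b (Finset.mem_filter.1 hb).2).1
  · intro i p hp
    obtain ⟨b, hb, rfl⟩ := Finset.mem_image.1 hp
    rfl
  · rintro i ⟨b, hb, hb'⟩
    refine mem_iUnion₂.2 ⟨(H.V i, z i b), Finset.mem_image.2 ⟨b, Finset.mem_filter.2 ⟨hb, hb'⟩,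
      rfl⟩, left_mem_segment ℝ _ _⟩
  · rintro i x hx ⟨b, hb, hb', he⟩
    refine mem_iUnion₂.2 ⟨(H.V i, z i b), Finset.mem_image.2 ⟨b, Finset.mem_filter.2 ⟨hb, hb'⟩,
      rfl⟩, ?_⟩
    exact ((hz i b hb').2 x hx).2 (Or.inr (by linarith))

theorem bent_of {B : Finset ℝ} {C : Fin (k + 1) → Finset (E2 × E2)}
    (h1 : ∀ i : Fin (k + 1), (∃ b ∈ B, b ∈ Ioo (ss H i) (ss H (i + 1))) → H.V i ∈ crs C i)
    (h2 : ∀ i, ∀ x ∈ H.poly i,
      (∃ b ∈ B, b ∈ Ioo (ss H i) (ss H (i + 1)) ∧ ss H i + om H i x = b) → x ∈ crs C i)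
    {c : E3} {γ : ℝ → E3} (hp : PG B (ss H (k + 1)) γ) : IsBent H C (mp H c γ) := by
  intro i x hx y hy
  have hy' : y ∈ H.poly i \ crs C i := connectedComponentIn_subset _ _ hy
  have hns : ∀ u ∈ H.poly i, ‖(‖u - H.V i‖ • γ (ss H i + om H i u))‖ = ‖u - H.V i‖ := by
    intro u hu
    by_cases h0 : u = H.V i
    · rw [h0, sub_self, norm_zero, zero_smul, norm_zero]
    · rw [norm_smul, hp.unit (MotA_mem H hu h0), mul_one, norm_norm]
  have hd : dist (mp H c γ i x) (mp H c γ i y)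
      = ‖‖x - H.V i‖ • γ (ss H i + om H i x) - ‖y - H.V i‖ • γ (ss H i + om H i y)‖ := by
    rw [mp, mp, dist_eq_norm, add_sub_add_left_eq_sub]
  rw [hd]
  by_cases hxV : x = H.V i
  · have e : ‖x - H.V i‖ = 0 := by rw [hxV, sub_self, norm_zero]
    rw [e, zero_smul, zero_sub, norm_neg, hns y hy'.1, hxV, dist_comm, dist_eq_norm]
  by_cases hyV : y = H.V i
  · have e : ‖y - H.V i‖ = 0 := by rw [hyV, sub_self, norm_zero]
    rw [e, zero_smul, sub_zero, hns x hx.1, hyV, dist_eq_norm]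
  have hsx := sg_mem H (i := i) (x := x) hx.1 hxV
  have hsy := sg_mem H (i := i) (x := y) hy'.1 hyV
  have hlx := om_le H i hx.1 hxV
  have hly := om_le H i hy'.1 hyV
  have h0x := om_nonneg H i x
  have h0y := om_nonneg H i y
  have hss := ss_succ H i
  have hsx' : ss H i + om H i x ∈ Icc 0 (ss H (k + 1)) := hsx
  have hsy' : ss H i + om H i y ∈ Icc 0 (ss H (k + 1)) := hsy
  have hbr : ∀ b ∈ B, b ≤ min (ss H i + om H i x) (ss H i + om H i y) ∨
      max (ss H i + om H i x) (ss H i + om H i y) ≤ b := by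
    intro b hb
    by_cases hb' : b ∈ Ioo (ss H i) (ss H (i + 1))
    · have h3 := same_side H i (K := crs C i) (w := b - ss H i) (h1 i ⟨b, hb, hb'⟩)
        (fun u hu he => h2 i u hu ⟨b, hb, hb', by linarith⟩) hx hy
      rcases h3 with h3 | h3
      · exact Or.inr (max_le (by linarith [h3.1]) (by linarith [h3.2]))
      · exact Or.inl (le_min (by linarith [h3.1]) (by linarith [h3.2]))
    · by_cases h4 : ss H i < b
      · have h5 : ss H (i + 1) ≤ b := by
          by_contra h6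
          exact hb' ⟨h4, not_le.1 h6⟩
        exact Or.inr (max_le (by linarith) (by linarith))
      · exact Or.inl (le_min (by linarith) (by linarith))
  have hg := hp _ _ (le_min hsx'.1 hsy'.1) min_le_max (max_le hsx'.2 hsy'.2) hbr
  have h5 := hg.cosines ⟨min_le_left _ _, le_max_left _ _⟩ ⟨min_le_right _ _, le_max_right _ _⟩
    ‖x - H.V i‖ ‖y - H.V i‖
  have h6 := dist_om H i hx.1 hy'.1
  have h7 : ss H i + om H i x - (ss H i + om H i y) = om H i x - om H i y := by ring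
  rw [h7, ← h6] at h5
  rw [dist_eq_norm]
  exact (sq_eq_sq₀ (norm_nonneg _) (norm_nonneg _)).1 h5

theorem cont_of {S : ℝ} (hS : S = ss H (k + 1)) {Γ : ℝ → ℝ → E3} {B : Finset ℝ}
    {γ γ' : ℝ → E3} (hΓ : APath S B Γ γ γ') (c c' : E3) (i : Fin (k + 1)) :
    ContinuousOn (fun z : ℝ × E2 => mp H ((1 - z.1) • c + z.1 • c') (Γ z.1) i z.2)
      (Icc 0 1 ×ˢ H.poly i) := by
  subst hS
  unfold mp
  refine ContinuousOn.add (Continuous.continuousOn (by fun_prop)) ?_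
  rintro ⟨t0, x0⟩ hz
  by_cases h0 : x0 = H.V i
  · have hval : ‖x0 - H.V i‖ • Γ t0 (ss H i + om H i x0) = 0 := by
      rw [h0, sub_self, norm_zero, zero_smul]
    have hlim : Filter.Tendsto (fun z : ℝ × E2 => ‖z.2 - H.V i‖)
        (nhdsWithin (t0, x0) (Icc 0 1 ×ˢ H.poly i)) (nhds 0) := by
      have hc : Continuous (fun z : ℝ × E2 => ‖z.2 - H.V i‖) := by fun_prop
      have h1 := hc.continuousWithinAt (s := Icc 0 1 ×ˢ H.poly i) (x := (t0, x0))
      have h2 : ‖((t0, x0) : ℝ × E2).2 - H.V i‖ = 0 := by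
        change ‖x0 - H.V i‖ = 0
        rw [h0, sub_self, norm_zero]
      have h3 := h1.tendsto
      rwa [h2] at h3
    change Filter.Tendsto _ _ (nhds (‖x0 - H.V i‖ • Γ t0 (ss H i + om H i x0)))
    rw [hval]
    refine squeeze_zero_norm' ?_ hlim
    refine Filter.eventually_of_mem self_mem_nhdsWithin ?_
    rintro ⟨t, x⟩ ⟨ht, hx⟩
    change ‖(‖x - H.V i‖ • Γ t (ss H i + om H i x))‖ ≤ ‖x - H.V i‖
    by_cases hxV : x = H.V i
    · rw [hxV, sub_self, norm_zero, zero_smul, norm_zero]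
    · rw [norm_smul, (hΓ.pg t ht).unit (MotA_mem H hx hxV), mul_one, norm_norm]
  · have hopen : IsOpen {z : ℝ × E2 | z.2 ≠ H.V i} :=
      isOpen_ne_fun continuous_snd continuous_const
    rw [← continuousWithinAt_inter (hopen.mem_nhds h0)]
    have hcn : Continuous (fun z : ℝ × E2 => ‖z.2 - H.V i‖) := by fun_prop
    refine ContinuousWithinAt.smul hcn.continuousWithinAt ?_
    have h1 : ContinuousOn (fun z : ℝ × E2 => (z.1, ss H i + om H i z.2))
        ((Icc 0 1 ×ˢ H.poly i) ∩ {z : ℝ × E2 | z.2 ≠ H.V i}) := by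
      refine ContinuousOn.prodMk continuous_fst.continuousOn
        (ContinuousOn.add continuousOn_const ?_)
      exact (om_cont H i).comp continuous_snd.continuousOn (fun z hz => hz.2)
    have h2 : MapsTo (fun z : ℝ × E2 => (z.1, ss H i + om H i z.2))
        ((Icc 0 1 ×ˢ H.poly i) ∩ {z : ℝ × E2 | z.2 ≠ H.V i})
        (Icc 0 1 ×ˢ Icc 0 (ss H (k + 1))) := by
      rintro ⟨t, x⟩ ⟨⟨ht, hx⟩, hxV⟩
      exact ⟨ht, sg_mem H (i := i) (x := x) hx hxV⟩
    exact (hΓ.cont.comp h1 h2) (t0, x0) ⟨hz, h0⟩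

theorem exists_motion {B : Finset ℝ} {Γ : ℝ → ℝ → E3} {γ γ' : ℝ → E3}
    (hΓ : APath (ss H (k + 1)) B Γ γ γ') (c c' : E3) {f g : Fin (k + 1) → E2 → E3}
    (hf : ∀ i, ∀ x ∈ H.poly i, f i x = mp H c γ i x)
    (hg : ∀ i, ∀ x ∈ H.poly i, g i x = mp H c' γ' i x) :
    ∃ C, Drawn H C ∧ (∀ i, ∀ p ∈ C i, p.1 = H.V i) ∧ ∃ F, Motion H C f g F := by
  obtain ⟨C, hC1, hC2, hC3, hC4⟩ := exists_creases H B
  have hends : ∀ (d : E3) (γ₁ γ₂ : ℝ → E3) (_ : ∀ s ∈ Icc 0 (ss H (k + 1)), γ₁ s = γ₂ s)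
      (i : Fin (k + 1)) (x : E2), x ∈ H.poly i → mp H d γ₁ i x = mp H d γ₂ i x := by
    intro d γ₁ γ₂ he i x hx
    by_cases hxV : x = H.V i
    · have e : ‖x - H.V i‖ = 0 := by rw [hxV, sub_self, norm_zero]
      rw [MotA_V H d γ₁ i e, MotA_V H d γ₂ i e]
    · rw [mp, mp, he _ (MotA_mem H hx hxV)]
  refine ⟨C, hC1, hC2, fun t i x => mp H ((1 - t) • c + t • c') (Γ t) i x, ?_⟩
  constructor
  · intro i
    exact cont_of H rfl hΓ c c' i
  · intro t ht
    exact emb_of H (hΓ.inj t ht) (fun s hs => (hΓ.pg t ht).unit hs)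
  · intro t ht
    exact bent_of H hC3 hC4 (hΓ.pg t ht)
  · intro i x hx
    rw [hf i x hx, sub_zero, one_smul, zero_smul, add_zero]
    exact hends c _ _ hΓ.zero i x hx
  · intro i x hx
    rw [hg i x hx, sub_self, zero_smul, one_smul, zero_add]
    exact hends c' _ _ hΓ.one i x hx

end Pool.Agent.H59.HF
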