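import Pool.Agent.H59.HF.SameA

/-! MODULE NeedB (about 250 lines, may be split). Three triangles around a vertex and two mirror images.

`tri_edge_a`: normal `n = ±(rotated u)` with `<n,v> <= 0`; a point of the triangle is `s u + t v`, `s, t >= 0`, `s + t <= 1` (`convexHull_insert`, or: the set of these points is convex and
contains `0, u, v`), `<n, .> = t <n,v>`, zero iff `t = 0`. `tri_edge_b`: swap (`Set.insert_comm`, `LinearIndependent.pair_symm`-like).
`cf_config`: every map is linear and isometric (`x ↦ x 0 • A + x 1 • B` with orthonormal `A, B`). Compatibility: glue 0: `s • b_0 ↦ (s,0,0)`, glue 1: `s • b_1 ↦ s (3/5, 4/5, 0)`.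
Injectivity: points of triangle `i` are `s a + t b`, `s, t >= 0`; images: `s (-24/25, 0, 7e/25) + t (1,0,0)`; `s (1,0,0) + t (3/5,4/5,0)`; `s (3/5,4/5,0) + t (-72/125, -96/125, -7e/25)`.
Same triangle: the map is injective. 0 and 1: third coordinate `7 e s/25 = 0`, so `s = 0`; second: `t' = 0`: the point is on the common edge with the same norm. 1 and 2 similarly.
0 and 2: third coordinates `7 e s / 25 = - 7 e t' / 25`, so `s = t' = 0`, second: `s' 4/5 = 0`: both are the vertex. Use `same_of` (norms equal by isometry, total angles by `on`-type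
computations) or directly the generators of `Same`. -/

open scoped RealInnerProductSpace
open Set

namespace Pool.Agent.H59.HF

private theorem nb_inner (x y : E2) : ⟪x, y⟫ = x 0 * y 0 + x 1 * y 1 := by
  simp only [PiLp.inner_apply, Fin.sum_univ_two, RCLike.inner_apply, conj_trivial]
  ring

private theorem nb_norm (x : E2) : ‖x‖ ^ 2 = x 0 ^ 2 + x 1 ^ 2 := by
  rw [← real_inner_self_eq_norm_sq, nb_inner]
  ring

private theorem nb_norm3 (x : E3) : ‖x‖ ^ 2 = x 0 ^ 2 + x 1 ^ 2 + x 2 ^ 2 := by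
  rw [← real_inner_self_eq_norm_sq]
  simp only [PiLp.inner_apply, Fin.sum_univ_three, RCLike.inner_apply, conj_trivial]
  ring

private theorem nb_hull {u v x : E2} (h : x ∈ convexHull ℝ ({0, u, v} : Set E2)) :
    ∃ s t : ℝ, 0 ≤ s ∧ 0 ≤ t ∧ s + t ≤ 1 ∧ x = s • u + t • v := by
  have hc : Convex ℝ {x : E2 | ∃ s t : ℝ, 0 ≤ s ∧ 0 ≤ t ∧ s + t ≤ 1 ∧ x = s • u + t • v} := by
    rintro x ⟨s, t, h1, h2, h3, rfl⟩ y ⟨s', t', h1', h2', h3', rfl⟩ a b ha hb hab
    refine ⟨a * s + b * s', a * t + b * t', by positivity, by positivity, ?_, ?_⟩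
    · have : a * s + b * s' + (a * t + b * t') = a * (s + t) + b * (s' + t') := by ring
      rw [this]
      calc a * (s + t) + b * (s' + t') ≤ a * 1 + b * 1 := by gcongr
        _ = 1 := by rw [mul_one, mul_one, hab]
    · module
  refine convexHull_min ?_ hc h
  intro y hy
  rcases hy with rfl | rfl | rfl
  · exact ⟨0, 0, le_rfl, le_rfl, by norm_num, by simp⟩
  · exact ⟨1, 0, zero_le_one, le_rfl, by norm_num, by simp⟩
  · exact ⟨0, 1, le_rfl, zero_le_one, by norm_num, by simp⟩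

private theorem nb_det {u v : E2} (h : LinearIndependent ℝ ![u, v]) :
    u 0 * v 1 - u 1 * v 0 ≠ 0 := by
  rw [LinearIndependent.pair_iff] at h
  intro hD
  have h1 := h (v 0) (-u 0) (by
    ext i
    fin_cases i
    · simp
      ring
    · simp
      linarith)
  have h2 := h (v 1) (-u 1) (by
    ext i
    fin_cases i
    · simp
      linarith
    · simp
      ring)
  have h3 := h 1 0 (by
    ext i
    fin_cases i
    · simp
      linarith [h1.2]
    · simp
      linarith [h2.2])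
  exact one_ne_zero h3.1

theorem tri_edge_a {u v : E2} (h : LinearIndependent ℝ ![u, v]) :
    IsEdge (convexHull ℝ ({0, u, v} : Set E2)) 0 u := by
  have hD := nb_det h
  set D := u 0 * v 1 - u 1 * v 0 with hDdef
  have hn : ∀ s t : ℝ, ⟪(!₂[D * u 1, -(D * u 0)] : E2), s • u + t • v⟫ = -(t * D ^ 2) := by
    intro s t
    rw [nb_inner]
    simp only [PiLp.add_apply, PiLp.smul_apply, smul_eq_mul]
    change D * u 1 * (s * u 0 + t * v 0) + -(D * u 0) * (s * u 1 + t * v 1) = _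
    have : D * u 1 * (s * u 0 + t * v 0) + -(D * u 0) * (s * u 1 + t * v 1)
        = -(t * D * (u 0 * v 1 - u 1 * v 0)) := by ring
    rw [this, ← hDdef]
    ring
  refine ⟨?_, !₂[D * u 1, -(D * u 0)], ?_, ?_⟩
  · rintro rfl
    apply hD
    rw [hDdef]
    simp
  · intro x hx
    obtain ⟨s, t, h1, h2, h3, rfl⟩ := nb_hull hx
    rw [sub_zero, hn]
    have := mul_nonneg h2 (sq_nonneg D)
    linarith
  · ext x
    constructor
    · rintro ⟨hx, h0⟩
      obtain ⟨s, t, h1, h2, h3, rfl⟩ := nb_hull hx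
      rw [sub_zero, hn] at h0
      have ht : t = 0 := by
        have h4 : t * D ^ 2 = 0 := by linarith
        rcases mul_eq_zero.1 h4 with h5 | h5
        · exact h5
        · exact absurd (pow_eq_zero_iff two_ne_zero |>.1 h5) hD
      subst ht
      refine ⟨1 - s, s, by linarith, h1, by ring, ?_⟩
      simp
    · rintro ⟨a, b, ha, hb, hab, rfl⟩
      refine ⟨?_, ?_⟩
      · have hc := convex_convexHull ℝ ({0, u, v} : Set E2)
        exact hc (subset_convexHull ℝ _ (by simp)) (subset_convexHull ℝ _ (by simp)) ha hb hab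
      · have e : a • (0 : E2) + b • u - 0 = b • u + (0 : ℝ) • v := by simp
        rw [e, hn]
        ring

theorem tri_edge_b {u v : E2} (h : LinearIndependent ℝ ![u, v]) :
    IsEdge (convexHull ℝ ({0, u, v} : Set E2)) 0 v := by
  have h' : LinearIndependent ℝ ![v, u] := by
    rw [LinearIndependent.pair_iff] at h ⊢
    intro s t hst
    have := h t s (by rw [add_comm]; exact hst)
    exact ⟨this.2, this.1⟩
  have := tri_edge_a h'
  rwa [Set.pair_comm v u] at this

/-- the third vertices of the triangles -/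
noncomputable def tb : Fin 3 → E2 := ![!₂[-24 / 25, 7 / 25], !₂[3 / 5, 4 / 5], !₂[-24 / 25, 7 / 25]]

private theorem tb00 : tb 0 0 = -24 / 25 := rfl
private theorem tb01 : tb 0 1 = 7 / 25 := rfl
private theorem tb10 : tb 1 0 = 3 / 5 := rfl
private theorem tb11 : tb 1 1 = 4 / 5 := rfl
private theorem tb20 : tb 2 0 = -24 / 25 := rfl
private theorem tb21 : tb 2 1 = 7 / 25 := rfl

private theorem nb_e0 : (!₂[1, 0] : E2) 0 = 1 := rfl
private theorem nb_e1 : (!₂[1, 0] : E2) 1 = 0 := rfl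

private theorem tb_pos (i : Fin 3) : 0 < tb i 1 := by
  fin_cases i
  · change 0 < tb 0 1
    rw [tb01]; norm_num
  · change 0 < tb 1 1
    rw [tb11]; norm_num
  · change 0 < tb 2 1
    rw [tb21]; norm_num

private theorem tb_norm (i : Fin 3) : ‖tb i‖ = 1 := by
  have h : ‖tb i‖ ^ 2 = 1 := by
    rw [nb_norm]
    fin_cases i
    · change tb 0 0 ^ 2 + tb 0 1 ^ 2 = 1
      rw [tb00, tb01]; norm_num
    · change tb 1 0 ^ 2 + tb 1 1 ^ 2 = 1
      rw [tb10, tb11]; norm_num
    · change tb 2 0 ^ 2 + tb 2 1 ^ 2 = 1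
      rw [tb20, tb21]; norm_num
  have h2 := norm_nonneg (tb i)
  nlinarith

private theorem nb_e_norm : ‖(!₂[1, 0] : E2)‖ = 1 := by
  have h : ‖(!₂[1, 0] : E2)‖ ^ 2 = 1 := by
    rw [nb_norm, nb_e0, nb_e1]; norm_num
  have h2 := norm_nonneg (!₂[1, 0] : E2)
  nlinarith

theorem tb_indep (i : Fin 3) : LinearIndependent ℝ ![(!₂[1, 0] : E2), tb i] := by
  rw [LinearIndependent.pair_iff]
  intro s t h
  have h1 : s * (!₂[1, 0] : E2) 1 + t * tb i 1 = 0 := congrArg (fun z : E2 => z 1) h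
  have h0 : s * (!₂[1, 0] : E2) 0 + t * tb i 0 = 0 := congrArg (fun z : E2 => z 0) h
  rw [nb_e1, mul_zero, zero_add] at h1
  have ht : t = 0 := by
    rcases mul_eq_zero.1 h1 with h2 | h2
    · exact h2
    · exact absurd h2 (tb_pos i).ne'
  rw [ht, nb_e0] at h0
  exact ⟨by linarith, ht⟩

open Classical in
/-- three triangles with angles `163.7.., 53.1.., 163.7..` degrees at the common vertex -/
noncomputable def T3 : HChain 2 where
  vert i := {0, !₂[1, 0], tb i}
  V _ := 0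
  a _ := !₂[1, 0]
  b i := tb i
  edge_a i := by
    simpa using tri_edge_a (tb_indep i)
  edge_b i := by
    simpa using tri_edge_b (tb_indep i)
  indep i := by
    simpa using tb_indep i
  len i := by
    rw [dist_comm, dist_zero_right, dist_comm, dist_zero_right, nb_e_norm]
    exact tb_norm _

private theorem T3_al (i : Fin 3) : Real.cos (al T3 i) = tb i 0 := by
  rw [al_fin T3 i, InnerProductGeometry.cos_angle]
  change ⟪(!₂[1, 0] : E2) - 0, tb i - 0⟫ / (‖(!₂[1, 0] : E2) - 0‖ * ‖tb i - 0‖) = _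
  rw [sub_zero, sub_zero, nb_e_norm, tb_norm, nb_inner, nb_e0, nb_e1]
  ring

theorem T3_al0 : Real.cos (al T3 0) = -24 / 25 := T3_al 0

theorem T3_al1 : Real.cos (al T3 1) = 3 / 5 := T3_al 1

theorem T3_al2 : Real.cos (al T3 2) = -24 / 25 := T3_al 2

/-- two configurations, `e = 1` and `e = -1` -/
noncomputable def cf (e : ℝ) : Fin 3 → E2 → E3 :=
  ![fun x => x 0 • !₂[-24 / 25, 0, e * (7 / 25)] + x 1 • !₂[7 / 25, 0, e * (24 / 25)],
    fun x => !₂[x 0, x 1, 0],
    fun x => x 0 • !₂[3 / 5, 4 / 5, 0] + x 1 • !₂[0, 0, -e]]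

private theorem cf00 (e : ℝ) (x : E2) : cf e 0 x 0 = x 0 * (-24 / 25) + x 1 * (7 / 25) := rfl
private theorem cf01 (e : ℝ) (x : E2) : cf e 0 x 1 = x 0 * 0 + x 1 * 0 := rfl
private theorem cf02 (e : ℝ) (x : E2) :
    cf e 0 x 2 = x 0 * (e * (7 / 25)) + x 1 * (e * (24 / 25)) := rfl
private theorem cf10 (e : ℝ) (x : E2) : cf e 1 x 0 = x 0 := rfl
private theorem cf11 (e : ℝ) (x : E2) : cf e 1 x 1 = x 1 := rfl
private theorem cf12 (e : ℝ) (x : E2) : cf e 1 x 2 = 0 := rfl
private theorem cf20 (e : ℝ) (x : E2) : cf e 2 x 0 = x 0 * (3 / 5) + x 1 * 0 := rfl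
private theorem cf21 (e : ℝ) (x : E2) : cf e 2 x 1 = x 0 * (4 / 5) + x 1 * 0 := rfl
private theorem cf22 (e : ℝ) (x : E2) : cf e 2 x 2 = x 0 * 0 + x 1 * (-e) := rfl

private theorem nb_ext3 {x y : E3} (h0 : x 0 = y 0) (h1 : x 1 = y 1) (h2 : x 2 = y 2) :
    x = y := by
  ext i
  fin_cases i
  · exact h0
  · exact h1
  · exact h2

private theorem cf_dist {e : ℝ} (he : e ^ 2 = 1) (i : Fin 3) (x y : E2) :
    dist (cf e i x) (cf e i y) = dist x y := by
  rw [dist_eq_norm, dist_eq_norm]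
  refine (pow_left_inj₀ (norm_nonneg _) (norm_nonneg _) two_ne_zero).1 ?_
  rw [nb_norm3, nb_norm]
  simp only [PiLp.sub_apply]
  fin_cases i
  · change (cf e 0 x 0 - cf e 0 y 0) ^ 2 + (cf e 0 x 1 - cf e 0 y 1) ^ 2
      + (cf e 0 x 2 - cf e 0 y 2) ^ 2 = _
    rw [cf00, cf00, cf01, cf01, cf02, cf02]
    have h : (x 0 * (-24 / 25) + x 1 * (7 / 25) - (y 0 * (-24 / 25) + y 1 * (7 / 25))) ^ 2 +
        (x 0 * 0 + x 1 * 0 - (y 0 * 0 + y 1 * 0)) ^ 2 +
        (x 0 * (e * (7 / 25)) + x 1 * (e * (24 / 25)) -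
          (y 0 * (e * (7 / 25)) + y 1 * (e * (24 / 25)))) ^ 2 =
        (x 0 * (-24 / 25) + x 1 * (7 / 25) - (y 0 * (-24 / 25) + y 1 * (7 / 25))) ^ 2 +
        e ^ 2 * (x 0 * (7 / 25) + x 1 * (24 / 25) - (y 0 * (7 / 25) + y 1 * (24 / 25))) ^ 2 := by
      ring
    rw [h, he]
    ring
  · change (cf e 1 x 0 - cf e 1 y 0) ^ 2 + (cf e 1 x 1 - cf e 1 y 1) ^ 2
      + (cf e 1 x 2 - cf e 1 y 2) ^ 2 = _
    rw [cf10, cf10, cf11, cf11, cf12, cf12]
    ring
  · change (cf e 2 x 0 - cf e 2 y 0) ^ 2 + (cf e 2 x 1 - cf e 2 y 1) ^ 2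
      + (cf e 2 x 2 - cf e 2 y 2) ^ 2 = _
    rw [cf20, cf20, cf21, cf21, cf22, cf22]
    have h : (x 0 * (3 / 5) + x 1 * 0 - (y 0 * (3 / 5) + y 1 * 0)) ^ 2 +
        (x 0 * (4 / 5) + x 1 * 0 - (y 0 * (4 / 5) + y 1 * 0)) ^ 2 +
        (x 0 * 0 + x 1 * (-e) - (y 0 * 0 + y 1 * (-e))) ^ 2 =
        (x 0 - y 0) ^ 2 + e ^ 2 * (x 1 - y 1) ^ 2 := by ring
    rw [h, he, one_mul]

private theorem T3_poly {i : Fin 3} {x : E2} (h : x ∈ T3.poly i) :
    ∃ s t : ℝ, 0 ≤ s ∧ 0 ≤ t ∧ s + t ≤ 1 ∧ x = s • (!₂[1, 0] : E2) + t • tb i := by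
  refine nb_hull ?_
  have : ((T3.vert i : Finset E2) : Set E2) = {0, !₂[1, 0], tb i} := by
    simp [T3]
  rw [← this]
  exact h

private theorem nb_x0 (s t : ℝ) (b : E2) : (s • (!₂[1, 0] : E2) + t • b) 0 = s + t * b 0 := by
  change s * 1 + t * b 0 = _
  ring

private theorem nb_x1 (s t : ℝ) (b : E2) : (s • (!₂[1, 0] : E2) + t • b) 1 = t * b 1 := by
  change s * 0 + t * b 1 = _
  ring

private theorem T3_g0 (s : ℝ) (h0 : 0 ≤ s) (h1 : s ≤ 1) :
    Same T3 (0, s • tb 0) (1, s • (!₂[1, 0] : E2)) := by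
  have h := Glue.mk (H := T3) 0 s h0 h1
  have e1 : T3.V (Fin.castSucc 0) + s • (T3.b (Fin.castSucc 0) - T3.V (Fin.castSucc 0))
      = s • tb 0 := by
    change (0 : E2) + s • (tb 0 - 0) = _
    rw [zero_add, sub_zero]
  have e2 : T3.V (Fin.succ 0) + s • (T3.a (Fin.succ 0) - T3.V (Fin.succ 0))
      = s • (!₂[1, 0] : E2) := by
    change (0 : E2) + s • ((!₂[1, 0] : E2) - 0) = _
    rw [zero_add, sub_zero]
  rw [e1, e2] at h
  exact Relation.EqvGen.rel _ _ h

private theorem T3_g1 (s : ℝ) (h0 : 0 ≤ s) (h1 : s ≤ 1) :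
    Same T3 (1, s • tb 1) (2, s • (!₂[1, 0] : E2)) := by
  have h := Glue.mk (H := T3) 1 s h0 h1
  have e1 : T3.V (Fin.castSucc 1) + s • (T3.b (Fin.castSucc 1) - T3.V (Fin.castSucc 1))
      = s • tb 1 := by
    change (0 : E2) + s • (tb 1 - 0) = _
    rw [zero_add, sub_zero]
  have e2 : T3.V (Fin.succ 1) + s • (T3.a (Fin.succ 1) - T3.V (Fin.succ 1))
      = s • (!₂[1, 0] : E2) := by
    change (0 : E2) + s • ((!₂[1, 0] : E2) - 0) = _
    rw [zero_add, sub_zero]
  rw [e1, e2] at h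
  exact Relation.EqvGen.rel _ _ h

private theorem cf_c01 {e : ℝ} (he : e ^ 2 = 1) {x y : E2} (hx : x ∈ T3.poly 0)
    (hy : y ∈ T3.poly 1) (h : cf e 0 x = cf e 1 y) : Same T3 (0, x) (1, y) := by
  have he0 : e ≠ 0 := by
    rintro rfl
    norm_num at he
  obtain ⟨s, t, h1, h2, h3, rfl⟩ := T3_poly hx
  obtain ⟨s', t', h1', h2', h3', rfl⟩ := T3_poly hy
  have c0 := congrArg (fun z : E3 => z 0) h
  have c1 := congrArg (fun z : E3 => z 1) h
  have c2 := congrArg (fun z : E3 => z 2) h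
  simp only at c0 c1 c2
  rw [cf00, cf10, nb_x0, nb_x1, nb_x0, tb00, tb01, tb10] at c0
  rw [cf01, cf11, nb_x1, nb_x1, tb11] at c1
  rw [cf02, cf12, nb_x0, nb_x1, tb00, tb01] at c2
  have ht' : t' = 0 := by linarith
  have hs : s = 0 := by
    have : e * (7 / 25 * s) = 0 := by linarith
    rcases mul_eq_zero.1 this with h4 | h4
    · exact absurd h4 he0
    · linarith
  subst ht' hs
  have hts : s' = t := by linarith
  subst hts
  simp only [zero_smul, zero_add, add_zero]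
  exact T3_g0 s' h1' (by linarith)

private theorem cf_c12 {e : ℝ} (he : e ^ 2 = 1) {x y : E2} (hx : x ∈ T3.poly 1)
    (hy : y ∈ T3.poly 2) (h : cf e 1 x = cf e 2 y) : Same T3 (1, x) (2, y) := by
  have he0 : e ≠ 0 := by
    rintro rfl
    norm_num at he
  obtain ⟨s, t, h1, h2, h3, rfl⟩ := T3_poly hx
  obtain ⟨s', t', h1', h2', h3', rfl⟩ := T3_poly hy
  have c0 := congrArg (fun z : E3 => z 0) h
  have c1 := congrArg (fun z : E3 => z 1) h
  have c2 := congrArg (fun z : E3 => z 2) h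
  simp only at c0 c1 c2
  rw [cf10, cf20, nb_x0, nb_x0, nb_x1, tb10, tb20, tb21] at c0
  rw [cf11, cf21, nb_x1, nb_x0, nb_x1, tb11, tb20, tb21] at c1
  rw [cf12, cf22, nb_x0, nb_x1, tb20, tb21] at c2
  have ht' : t' = 0 := by
    have : e * (7 / 25 * t') = 0 := by linarith
    rcases mul_eq_zero.1 this with h4 | h4
    · exact absurd h4 he0
    · linarith
  subst ht'
  have hts : s' = t := by linarith
  subst hts
  have hs : s = 0 := by linarith
  subst hs
  simp only [zero_smul, zero_add, add_zero]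
  exact T3_g1 s' h1' (by linarith)

private theorem cf_c02 {e : ℝ} (he : e ^ 2 = 1) {x y : E2} (hx : x ∈ T3.poly 0)
    (hy : y ∈ T3.poly 2) (h : cf e 0 x = cf e 2 y) : Same T3 (0, x) (2, y) := by
  have he0 : e ≠ 0 := by
    rintro rfl
    norm_num at he
  obtain ⟨s, t, h1, h2, h3, rfl⟩ := T3_poly hx
  obtain ⟨s', t', h1', h2', h3', rfl⟩ := T3_poly hy
  have c0 := congrArg (fun z : E3 => z 0) h
  have c1 := congrArg (fun z : E3 => z 1) h
  have c2 := congrArg (fun z : E3 => z 2) h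
  simp only at c0 c1 c2
  rw [cf00, cf20, nb_x0, nb_x1, nb_x0, nb_x1, tb00, tb01, tb20, tb21] at c0
  rw [cf01, cf21, nb_x0, nb_x1, nb_x0, nb_x1, tb00, tb01, tb20, tb21] at c1
  rw [cf02, cf22, nb_x0, nb_x1, nb_x0, nb_x1, tb00, tb01, tb20, tb21] at c2
  have hst : s + t' = 0 := by
    have : e * (7 / 25 * (s + t')) = 0 := by linarith
    rcases mul_eq_zero.1 this with h4 | h4
    · exact absurd h4 he0
    · linarith
  have hs : s = 0 := by linarith
  have ht' : t' = 0 := by linarith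
  subst ht' hs
  have hs' : s' = 0 := by linarith
  subst hs'
  have ht : t = 0 := by linarith
  subst ht
  simp only [zero_smul, add_zero]
  have g0 := T3_g0 0 le_rfl zero_le_one
  have g1 := T3_g1 0 le_rfl zero_le_one
  simp only [zero_smul] at g0 g1
  exact Relation.EqvGen.trans _ _ _ g0 g1

private theorem cf_same {e : ℝ} (he : e ^ 2 = 1) (i : Fin 3) {x y : E2}
    (h : cf e i x = cf e i y) : x = y := by
  have h1 := cf_dist he i x y
  rw [h, dist_self] at h1
  exact dist_eq_zero.1 h1.symm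

private theorem cf_emb {e : ℝ} (he : e ^ 2 = 1) (i j : Fin 3) {x y : E2}
    (hx : x ∈ T3.poly i) (hy : y ∈ T3.poly j) (h : cf e i x = cf e j y) :
    Same T3 (i, x) (j, y) := by
  have diag : ∀ i : Fin 3, cf e i x = cf e i y → Same T3 (i, x) (i, y) := by
    intro i h
    rw [cf_same he i h]
    exact Relation.EqvGen.refl _
  fin_cases i <;> fin_cases j
  · exact diag 0 h
  · exact cf_c01 he hx hy h
  · exact cf_c02 he hx hy h
  · exact Relation.EqvGen.symm _ _ (cf_c01 he hy hx h.symm)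
  · exact diag 1 h
  · exact cf_c12 he hx hy h
  · exact Relation.EqvGen.symm _ _ (cf_c02 he hy hx h.symm)
  · exact Relation.EqvGen.symm _ _ (cf_c12 he hy hx h.symm)
  · exact diag 2 h

theorem cf_config {e : ℝ} (he : e ^ 2 = 1) : IsConfig T3 (cf e) := by
  refine ⟨⟨?_, ?_⟩, ?_⟩
  · rintro p q ⟨i, s, h0, h1⟩
    fin_cases i
    · change cf e 0 ((0 : E2) + s • (tb 0 - 0)) = cf e 1 ((0 : E2) + s • ((!₂[1, 0] : E2) - 0))
      rw [zero_add, sub_zero, zero_add, sub_zero]
      refine nb_ext3 ?_ ?_ ?_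
      · rw [cf00, cf10]
        change s * tb 0 0 * (-24 / 25) + s * tb 0 1 * (7 / 25) = s * 1
        rw [tb00, tb01]
        ring
      · rw [cf01, cf11]
        change s * tb 0 0 * 0 + s * tb 0 1 * 0 = s * 0
        ring
      · rw [cf02, cf12]
        change s * tb 0 0 * (e * (7 / 25)) + s * tb 0 1 * (e * (24 / 25)) = 0
        rw [tb00, tb01]
        ring
    · change cf e 1 ((0 : E2) + s • (tb 1 - 0)) = cf e 2 ((0 : E2) + s • ((!₂[1, 0] : E2) - 0))
      rw [zero_add, sub_zero, zero_add, sub_zero]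
      refine nb_ext3 ?_ ?_ ?_
      · rw [cf10, cf20]
        change s * tb 1 0 = s * 1 * (3 / 5) + s * 0 * 0
        rw [tb10]
        ring
      · rw [cf11, cf21]
        change s * tb 1 1 = s * 1 * (4 / 5) + s * 0 * 0
        rw [tb11]
        ring
      · rw [cf12, cf22]
        change (0 : ℝ) = s * 1 * 0 + s * 0 * (-e)
        ring
  · rintro ⟨i, x⟩ ⟨j, y⟩ hx hy h
    exact cf_emb he i j hx hy h
  · intro i x _ y _
    exact cf_dist he i x y

end Pool.Agent.H59.HF
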