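import Pool.Agent.H59.HF.NeedA
import Pool.Agent.H59.HF.NeedB
import Pool.Agent.H59.HF.CfgA

/-! MODULE NeedC (about 130 lines). The two configurations are not joined by a motion without additional creases.

Suppose `F` is a motion with no creases from `cf 1` to `cf (-1)`. Every `F t` is a configuration: `crs = ∅` and `connectedComponentIn P x = P` for convex `P`
(`IsPreconnected.connectedComponentIn`, `(convex_convexHull ..).isPreconnected`). Let `D t = ⟪crp (F t 0 b0 - F t 0 0) (F t 1 b1 - F t 1 0), (F t 0 a - F t 0 0) - (F t 2 b2 - F t 2 0)⟫` with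
`a = (1,0)`, `bi = tb i`. It is continuous on `[0,1]` (`Motion.cont`). `D 0 = (4/5)(7/25 + 7/25) > 0`, `D 1 < 0` (explicit). So `D t = 0` for some `t`. By `exists_arc` for `F t`:
`F t i x = c + ‖x‖ γ (ss i + om x)`, so `F t 0 a - F t 0 0 = γ 0`, `F t 0 b0 - .. = γ (ss 1)`, `F t 1 b1 - .. = γ (ss 2)`, `F t 2 b2 - .. = γ (ss 3)` (the norms are `1`, `om a = 0`
(`angle_self`), `om b = al`). `no_level` with `s1 = ss 1`, ... gives a contradiction. -/

open scoped RealInnerProductSpace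
open Set

namespace Pool.Agent.H59.HF

private theorem nc_inner (p q v : E3) : ⟪crp p q, v⟫ =
    (p 1 * q 2 - p 2 * q 1) * v 0 + (p 2 * q 0 - p 0 * q 2) * v 1
      + (p 0 * q 1 - p 1 * q 0) * v 2 := by
  simp only [crp, PiLp.inner_apply, Fin.sum_univ_three, RCLike.inner_apply, conj_trivial]
  simp
  ring

private theorem nc_config {F : ℝ → Fin 3 → E2 → E3} {f g : Fin 3 → E2 → E3}
    (hF : Motion T3 (fun _ => ∅) f g F) {t : ℝ} (ht : t ∈ Icc (0 : ℝ) 1) :
    IsConfig T3 (F t) := by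
  refine ⟨hF.emb t ht, fun i x hx y hy => ?_⟩
  have h0 : crs (fun _ : Fin (2 + 1) => (∅ : Finset (E2 × E2))) i = ∅ := by simp [crs]
  have h1 := hF.bent t ht i
  rw [h0, sdiff_empty] at h1
  refine h1 x hx y ?_
  have h2 : IsPreconnected (T3.poly i) := (convex_convexHull ℝ _).isPreconnected
  rw [h2.connectedComponentIn hx]
  exact hy

private theorem nc_na : ‖(!₂[1, 0] : E2)‖ = 1 := by
  rw [EuclideanSpace.norm_eq]
  simp

private theorem nc_nb (i : Fin 3) : ‖tb i‖ = 1 := by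
  rw [EuclideanSpace.norm_eq]
  fin_cases i <;> simp [tb] <;> norm_num

/-- the level function -/
private noncomputable def ncD (F : Fin 3 → E2 → E3) : ℝ :=
  ⟪crp (F 0 (tb 0) - F 0 0) (F 1 (tb 1) - F 1 0), (F 0 !₂[1, 0] - F 0 0) - (F 2 (tb 2) - F 2 0)⟫

private theorem nc_cf (e : ℝ) : ncD (cf e) = 56 / 125 * e := by
  unfold ncD
  rw [nc_inner]
  simp [cf, tb]
  ring

private theorem nc_ne {F : Fin 3 → E2 → E3} (hF : IsConfig T3 F) : ncD F ≠ 0 := by
  obtain ⟨c, γ, hinj, hgeo, hrep⟩ := exists_arc T3 hF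
  have hs1 : ss T3 1 = al T3 0 := by
    have h := ss_succ T3 0
    rw [ss_zero] at h
    simpa using h
  have hs2 : ss T3 2 - ss T3 1 = al T3 1 := by
    have h := ss_succ T3 1
    linarith
  have hs3 : ss T3 3 - ss T3 2 = al T3 2 := by
    have h := ss_succ T3 2
    linarith
  have hV : ∀ i : Fin 3, F i 0 = c := by
    intro i
    have h := hrep i 0 (V_mem T3 i)
    have h0 : (0 : E2) - T3.V i = 0 := sub_zero _
    rw [h0, norm_zero, zero_smul, add_zero] at h
    exact h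
  have hA : F 0 !₂[1, 0] - F 0 0 = γ 0 := by
    have h := hrep 0 !₂[1, 0] (a_mem T3 0)
    have h0 : (!₂[1, 0] : E2) - T3.V 0 = !₂[1, 0] := sub_zero _
    have h1 : om T3 0 !₂[1, 0] = 0 := by
      change InnerProductGeometry.angle ((!₂[1, 0] : E2) - T3.V 0) ((!₂[1, 0] : E2) - T3.V 0) = 0
      rw [h0]
      refine InnerProductGeometry.angle_self (fun h2 => ?_)
      have h3 := nc_na
      rw [h2, norm_zero] at h3
      exact zero_ne_one h3
    have h2 : ss T3 ((0 : Fin 3) : ℕ) = 0 := ss_zero T3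
    rw [h0, nc_na, one_smul, h1, h2, add_zero] at h
    rw [h, hV 0, add_sub_cancel_left]
  have hB : ∀ i : Fin 3, F i (tb i) - F i 0 = γ (ss T3 ((i : ℕ) + 1)) := by
    intro i
    have h := hrep i (tb i) (b_mem T3 i)
    have h0 : tb i - T3.V i = tb i := sub_zero _
    have h1 : om T3 i (tb i) = al T3 i := (al_fin T3 i).symm
    rw [h0, nc_nb, one_smul, h1, ← ss_succ] at h
    rw [h, hV i, add_sub_cancel_left]
  have hB0 : F 0 (tb 0) - F 0 0 = γ (ss T3 1) := hB 0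
  have hB1 : F 1 (tb 1) - F 1 0 = γ (ss T3 2) := hB 1
  have hB2 : F 2 (tb 2) - F 2 0 = γ (ss T3 3) := hB 2
  unfold ncD
  rw [hA, hB0, hB1, hB2, inner_sub_right, sub_ne_zero]
  have g1 : Geo γ (ss T3 0) (ss T3 1) := hgeo 0 (by norm_num)
  rw [ss_zero] at g1
  refine no_level (s3 := ss T3 3) (by rw [hs1]; exact al_pos T3 0) (ss_lt T3 1) (ss_lt T3 2)
    (by rw [hs1]; exact al_lt T3 0) (ss_sub T3 2) g1 (hgeo 1 (by norm_num))
    (hgeo 2 (by norm_num)) ?_ ?_ ?_ hinj
  · rw [hs1]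
    exact T3_al0
  · rw [hs2]
    exact T3_al1
  · rw [hs3]
    exact T3_al2

private theorem nc_cont {F : ℝ → Fin 3 → E2 → E3} {f g : Fin 3 → E2 → E3}
    (hF : Motion T3 (fun _ => ∅) f g F) {i : Fin 3} {x : E2} (hx : x ∈ T3.poly i) :
    ContinuousOn (fun t => F t i x) (Icc 0 1) :=
  (hF.cont i).comp (f := fun t : ℝ => ((t, x) : ℝ × E2)) (by fun_prop)
    (fun _ ht => ⟨ht, hx⟩)

theorem needed : ∃ H : HChain 2, ∃ f g, IsConfig H f ∧ IsConfig H g ∧
    ¬ ∃ F, Motion H (fun _ => ∅) f g F := by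
  refine ⟨T3, cf 1, cf (-1), cf_config (by norm_num), cf_config (by norm_num), ?_⟩
  rintro ⟨F, hF⟩
  have h0 : ncD (F 0) = ncD (cf 1) := by
    unfold ncD
    rw [hF.zero 0 (tb 0) (b_mem T3 0), hF.zero 0 0 (V_mem T3 0), hF.zero 1 (tb 1) (b_mem T3 1),
      hF.zero 1 0 (V_mem T3 1), hF.zero 0 !₂[1, 0] (a_mem T3 0), hF.zero 2 (tb 2) (b_mem T3 2),
      hF.zero 2 0 (V_mem T3 2)]
  have h1 : ncD (F 1) = ncD (cf (-1)) := by
    unfold ncD
    rw [hF.one 0 (tb 0) (b_mem T3 0), hF.one 0 0 (V_mem T3 0), hF.one 1 (tb 1) (b_mem T3 1),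
      hF.one 1 0 (V_mem T3 1), hF.one 0 !₂[1, 0] (a_mem T3 0), hF.one 2 (tb 2) (b_mem T3 2),
      hF.one 2 0 (V_mem T3 2)]
  rw [nc_cf] at h0 h1
  have hc : ContinuousOn (fun t => ncD (F t)) (Icc 0 1) := by
    have c0b := nc_cont hF (b_mem T3 0)
    have c0V := nc_cont hF (V_mem T3 0)
    have c1b := nc_cont hF (b_mem T3 1)
    have c1V := nc_cont hF (V_mem T3 1)
    have c0a := nc_cont hF (a_mem T3 0)
    have c2b := nc_cont hF (b_mem T3 2)
    have c2V := nc_cont hF (V_mem T3 2)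
    change ContinuousOn (fun t => F t 0 (tb 0)) (Icc 0 1) at c0b
    change ContinuousOn (fun t => F t 0 0) (Icc 0 1) at c0V
    change ContinuousOn (fun t => F t 1 (tb 1)) (Icc 0 1) at c1b
    change ContinuousOn (fun t => F t 1 0) (Icc 0 1) at c1V
    change ContinuousOn (fun t => F t 0 !₂[1, 0]) (Icc 0 1) at c0a
    change ContinuousOn (fun t => F t 2 (tb 2)) (Icc 0 1) at c2b
    change ContinuousOn (fun t => F t 2 0) (Icc 0 1) at c2V
    have key : ∀ {u v : ℝ → E3}, ContinuousOn u (Icc 0 1) → ContinuousOn v (Icc 0 1) →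
        ∀ l : Fin 3, ContinuousOn (fun t => (u t - v t) l) (Icc 0 1) := by
      intro u v hu hv l
      have h := hu.sub hv
      fun_prop
    have kb0 := key c0b c0V
    have kb1 := key c1b c1V
    have ka := key (c0a.sub c0V) (c2b.sub c2V)
    unfold ncD
    simp only [nc_inner]
    exact ((((kb0 1).mul (kb1 2)).sub ((kb0 2).mul (kb1 1))).mul (ka 0)).add
      ((((kb0 2).mul (kb1 0)).sub ((kb0 0).mul (kb1 2))).mul (ka 1)) |>.add
      ((((kb0 0).mul (kb1 1)).sub ((kb0 1).mul (kb1 0))).mul (ka 2))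
  obtain ⟨t, ht, hDt⟩ := intermediate_value_Icc' (zero_le_one : (0 : ℝ) ≤ 1) hc
    (show (0 : ℝ) ∈ Icc (ncD (F 1)) (ncD (F 0)) by
      rw [h0, h1]
      constructor <;> norm_num)
  exact nc_ne (nc_config hF ht) hDt

end Pool.Agent.H59.HF
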