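import Pool.Agent.H59.HF.Core
import Pool.Agent.H59.HF.CfgA
import Pool.Agent.H59.HF.MotA
import Pool.Agent.H59.HF.NeedC

/-! # Assembly -/

open scoped RealInnerProductSpace
open Set

namespace Pool.Agent.H59.HF

theorem main {k : ℕ} (H : HChain k) {f g : Fin (k + 1) → E2 → E3} (hf : IsConfig H f)
    (hg : IsConfig H g) :
    ∃ C, Drawn H C ∧ (∀ i, ∀ p ∈ C i, p.1 = H.V i) ∧ ∃ F, Motion H C f g F := by
  obtain ⟨c, γ, hi, hge, hfe⟩ := exists_arc H hf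
  obtain ⟨c', γ', hi', hge', hfe'⟩ := exists_arc H hg
  obtain ⟨B, Γ, hΓ⟩ := conn_core (ss_zero H) (ss_lt H) (ss_sub H) k γ γ' hi hge hi' hge'
  exact exists_motion H hΓ c c' hfe hfe'

end Pool.Agent.H59.HF
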