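import Pool.Agent.H59.HF.FrA

/-! MODULE NeedA (about 150 lines). The spherical half of the example with three triangles.

`Geo.comb`: with `p, q` the frame at `s`, `d = t - s`: `u γ s + v γ t = (u + v cos d) p + v sin d q = r (cos y p + sin y q)` with `r > 0`, `y` in `(0, pi)` (because `v sin d > 0`: `exists_angle`,
or `Complex.arg`, or `y = arccos`), and `y < d` because `sin (d - y) r = u sin d > 0`.
`no_level`: suppose equality. Let `b = γ s1`, `c = γ s2`, `a = γ 0`, `d = γ s3`, `b' = (5/4)(c - 3/5 b)` (orthonormal to `b`), `n = crp b b'`, `crp b c = (4/5) n`. By `fr_surj`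
`a = x0 b + y b' + z n` with `x0 = <a,b> = cos (0 - s1) = -24/25`, `y^2 + z^2 = 49/625`; `d = x1 b + x2 b' + z' n`, `z' = z` by the equality, `<d,c> = 3/5 x1 + 4/5 x2 = -24/25`,
`x1^2 + x2^2 + z^2 = 1`. Put `y' = 4/5 x1 - 3/5 x2` (`y'^2 <= 49/625`), `Q = y + 96/125 + 3/5 y'`, `P = 96/125 + 3/5 y + y'`: both positive, and
`(4/5) a + P b = Q c + (4/5) d` (compare coordinates in the frame `b, b'`). By `Geo.comb` the left side is `r γ x` with `0 < x < s1`, the right side `r' γ x'` with `s2 < x' < s3`,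
`r, r' > 0`; norms: `r = r'`; so `γ x = γ x'`, against injectivity. -/

open scoped RealInnerProductSpace
open Set

namespace Pool.Agent.H59.HF

theorem Geo.comb {γ : ℝ → E3} {s t : ℝ} (h : Geo γ s t) (hst : s < t) (hπ : t - s < Real.pi)
    {u v : ℝ} (hu : 0 < u) (hv : 0 < v) :
    ∃ r > (0 : ℝ), ∃ x ∈ Ioo s t, u • γ s + v • γ t = r • γ x := by
  obtain ⟨p, q, hp, hq, hpq, hγ⟩ := h
  set d := t - s with hd
  have hd0 : 0 < d := by rw [hd]; linarith
  have hsd : 0 < Real.sin d := Real.sin_pos_of_pos_of_lt_pi hd0 hπ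
  set A := u + v * Real.cos d with hA
  set B := v * Real.sin d with hB
  have hB0 : 0 < B := mul_pos hv hsd
  have hAB : 0 < A ^ 2 + B ^ 2 := by positivity
  set r := Real.sqrt (A ^ 2 + B ^ 2) with hr
  have hr0 : 0 < r := Real.sqrt_pos.mpr hAB
  have hr2 : r ^ 2 = A ^ 2 + B ^ 2 := Real.sq_sqrt hAB.le
  have hA1 : -1 ≤ A / r := by
    rw [le_div_iff₀ hr0]
    nlinarith [sq_nonneg (A + r)]
  have hA2 : A / r ≤ 1 := by
    rw [div_le_iff₀ hr0]
    nlinarith [sq_nonneg (A - r)]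
  set y := Real.arccos (A / r) with hy
  have hcos : Real.cos y = A / r := Real.cos_arccos hA1 hA2
  have hsin : Real.sin y = B / r := by
    rw [hy, Real.sin_arccos]
    have h1 : 1 - (A / r) ^ 2 = (B / r) ^ 2 := by
      field_simp
      linarith
    rw [h1, Real.sqrt_sq (by positivity)]
  have hyπ : y ≤ Real.pi := Real.arccos_le_pi _
  have hy0 : 0 ≤ y := Real.arccos_nonneg _
  have hy1 : 0 < y := by
    rcases hy0.eq_or_lt with h1 | h1
    · rw [← h1, Real.sin_zero] at hsin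
      have : 0 < B / r := by positivity
      linarith
    · exact h1
  have hyd : y < d := by
    by_contra hcon
    push Not at hcon
    have h1 : Real.sin (d - y) ≤ 0 :=
      Real.sin_nonpos_of_nonpos_of_neg_pi_le (by linarith) (by linarith)
    rw [Real.sin_sub, hcos, hsin] at h1
    have h2 : Real.sin d * (A / r) - Real.cos d * (B / r) = u * Real.sin d / r := by
      rw [hA, hB]
      field_simp
      ring
    rw [h2] at h1
    have h3 : 0 < u * Real.sin d / r := by positivity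
    linarith
  refine ⟨r, hr0, s + y, ⟨by linarith, by linarith⟩, ?_⟩
  have e1 := hγ s ⟨le_rfl, hst.le⟩
  have e2 := hγ t ⟨hst.le, le_rfl⟩
  have e3 := hγ (s + y) ⟨by linarith, by linarith⟩
  rw [e1, e2, e3, sub_self, Real.cos_zero, Real.sin_zero, ← hd, add_sub_cancel_left, hcos, hsin]
  have f1 : r * (A / r) = A := by field_simp
  have f2 : r * (B / r) = B := by field_simp
  rw [smul_add r, smul_smul, smul_smul, f1, f2]
  rw [hA, hB]
  module

private theorem needA_crp (p q : E3) (a b : ℝ) : crp p (a • p + b • q) = b • crp p q := by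
  ext i
  fin_cases i <;> simp [crp] <;> ring

private theorem needA_inner {p q : E3} (h : ON p q) (a b c a' b' c' : ℝ) :
    ⟪a • p + b • q + c • crp p q, a' • p + b' • q + c' • crp p q⟫ = a * a' + b * b' + c * c' := by
  rw [← fr_vec, ← fr_vec, fr_inner h]
  simp [PiLp.inner_apply, Fin.sum_univ_three]
  ring

theorem no_level {γ : ℝ → E3} {s1 s2 s3 : ℝ} (h1 : 0 < s1) (h2 : s1 < s2) (h3 : s2 < s3)
    (l1 : s1 < Real.pi) (l3 : s3 - s2 < Real.pi) (g1 : Geo γ 0 s1) (g2 : Geo γ s1 s2)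
    (g3 : Geo γ s2 s3) (c1 : Real.cos s1 = -24 / 25) (c2 : Real.cos (s2 - s1) = 3 / 5)
    (c3 : Real.cos (s3 - s2) = -24 / 25) (hi : InjOn γ (Icc 0 s3)) :
    ⟪crp (γ s1) (γ s2), γ 0⟫ ≠ ⟪crp (γ s1) (γ s2), γ s3⟫ := by
  intro heq
  have nb : ‖γ s1‖ = 1 := g2.unit ⟨le_rfl, h2.le⟩
  have nc : ‖γ s2‖ = 1 := g2.unit ⟨h2.le, le_rfl⟩
  have na : ‖γ 0‖ = 1 := g1.unit ⟨le_rfl, h1.le⟩
  have nd : ‖γ s3‖ = 1 := g3.unit ⟨h3.le, le_rfl⟩
  have ibc : ⟪γ s2, γ s1⟫ = 3 / 5 := by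
    rw [g2.inner_eq ⟨h2.le, le_rfl⟩ ⟨le_rfl, h2.le⟩, c2]
  have iab : ⟪γ 0, γ s1⟫ = -24 / 25 := by
    rw [g1.inner_eq ⟨le_rfl, h1.le⟩ ⟨h1.le, le_rfl⟩, zero_sub, Real.cos_neg, c1]
  have idc : ⟪γ s3, γ s2⟫ = -24 / 25 := by
    rw [g3.inner_eq ⟨h3.le, le_rfl⟩ ⟨le_rfl, h3.le⟩, c3]
  set b := γ s1 with hb
  set c := γ s2 with hc
  set b' : E3 := (5 / 4 : ℝ) • (c - (3 / 5 : ℝ) • b) with hb'
  have hc' : c = (3 / 5 : ℝ) • b + (4 / 5 : ℝ) • b' := by
    rw [hb']; module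
  have ibb : ⟪b, b⟫ = 1 := by rw [real_inner_self_eq_norm_sq, nb]; norm_num
  have icc : ⟪c, c⟫ = 1 := by rw [real_inner_self_eq_norm_sq, nc]; norm_num
  have ibc' : ⟪b, c⟫ = 3 / 5 := by rw [real_inner_comm]; exact ibc
  have hon : ON b b' := by
    refine ⟨nb, ?_, ?_⟩
    · have h5 : ‖b'‖ ^ 2 = 1 := by
        rw [← real_inner_self_eq_norm_sq, hb']
        simp only [inner_sub_left, inner_sub_right, real_inner_smul_left, real_inner_smul_right,
          ibb, icc, ibc', ibc]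
        norm_num
      have h6 : 0 ≤ ‖b'‖ := norm_nonneg _
      nlinarith
    · rw [hb']
      simp only [inner_sub_right, real_inner_smul_right, ibb, ibc']
      norm_num
  obtain ⟨va, hva⟩ := fr_surj hon (γ 0)
  obtain ⟨vd, hvd⟩ := fr_surj hon (γ s3)
  set n := crp b b' with hn
  have ea : γ 0 = va 0 • b + va 1 • b' + va 2 • n := hva.symm
  have ed : γ s3 = vd 0 • b + vd 1 • b' + vd 2 • n := hvd.symm
  have eb : b = (1 : ℝ) • b + (0 : ℝ) • b' + (0 : ℝ) • n := by module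
  have ec : c = (3 / 5 : ℝ) • b + (4 / 5 : ℝ) • b' + (0 : ℝ) • n := by
    rw [zero_smul, add_zero]; exact hc'
  have eN : crp b c = (0 : ℝ) • b + (0 : ℝ) • b' + (4 / 5 : ℝ) • n := by
    rw [hn, zero_smul, zero_smul, zero_add, zero_add]
    conv_lhs => rw [hc']
    exact needA_crp b b' _ _
  have x0 : va 0 = -24 / 25 := by
    have h5 : ⟪γ 0, (1 : ℝ) • b + (0 : ℝ) • b' + (0 : ℝ) • n⟫ = -24 / 25 := by
      rw [← eb]; exact iab
    rw [ea, hn, needA_inner hon] at h5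
    linarith
  have hz : va 2 = vd 2 := by
    rw [eN, ea, ed, hn, needA_inner hon, needA_inner hon] at heq
    linarith
  have nva : va 0 ^ 2 + va 1 ^ 2 + va 2 ^ 2 = 1 := by
    have h5 : ⟪γ 0, γ 0⟫ = 1 := by rw [real_inner_self_eq_norm_sq, na]; norm_num
    rw [ea, hn, needA_inner hon] at h5
    linarith
  have nvd : vd 0 ^ 2 + vd 1 ^ 2 + vd 2 ^ 2 = 1 := by
    have h5 : ⟪γ s3, γ s3⟫ = 1 := by rw [real_inner_self_eq_norm_sq, nd]; norm_num
    rw [ed, hn, needA_inner hon] at h5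
    linarith
  have hdc : 3 / 5 * vd 0 + 4 / 5 * vd 1 = -24 / 25 := by
    have h5 : ⟪γ s3, (3 / 5 : ℝ) • b + (4 / 5 : ℝ) • b' + (0 : ℝ) • n⟫ = -24 / 25 := by
      rw [← ec]; exact idc
    rw [ed, hn, needA_inner hon] at h5
    linarith
  set y := va 1 with hyy
  set y' := 4 / 5 * vd 0 - 3 / 5 * vd 1 with hy'
  have e0 : vd 0 = -72 / 125 + 4 / 5 * y' := by rw [hy']; linarith
  have e1 : vd 1 = -96 / 125 - 3 / 5 * y' := by rw [hy']; linarith
  have by1 : y ^ 2 ≤ (7 / 25) ^ 2 := by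
    have h5 : y ^ 2 = 1 - (-24 / 25) ^ 2 - va 2 ^ 2 := by rw [← x0]; linarith
    have h6 := sq_nonneg (va 2)
    rw [h5]; norm_num; linarith
  have by2 : y' ^ 2 ≤ (7 / 25) ^ 2 := by
    have h5 : y' ^ 2 = vd 0 ^ 2 + vd 1 ^ 2 - (3 / 5 * vd 0 + 4 / 5 * vd 1) ^ 2 := by
      rw [hy']; ring
    rw [hdc] at h5
    have h6 := sq_nonneg (vd 2)
    rw [h5]; norm_num; linarith
  obtain ⟨ly, uy⟩ := abs_le_of_sq_le_sq' by1 (by norm_num)
  obtain ⟨ly', uy'⟩ := abs_le_of_sq_le_sq' by2 (by norm_num)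
  have hQ : 0 < y + 96 / 125 + 3 / 5 * y' := by linarith
  have hP : 0 < 96 / 125 + 3 / 5 * y + y' := by linarith
  obtain ⟨r, hr, x, hx, hx'⟩ := g1.comb h1 (by linarith) (show (0 : ℝ) < 4 / 5 by norm_num) hP
  obtain ⟨r', hr', z, hzz, hz'⟩ := g3.comb h3 l3 hQ (show (0 : ℝ) < 4 / 5 by norm_num)
  have key : (4 / 5 : ℝ) • γ 0 + (96 / 125 + 3 / 5 * y + y') • γ s1 =
      (y + 96 / 125 + 3 / 5 * y') • γ s2 + (4 / 5 : ℝ) • γ s3 := by
    rw [← hb, ← hc, ea, ed, x0, e0, e1, ← hz]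
    conv_rhs => rw [hc']
    module
  rw [key, hz'] at hx'
  have nx : ‖γ x‖ = 1 := g1.unit ⟨hx.1.le, hx.2.le⟩
  have nz : ‖γ z‖ = 1 := g3.unit ⟨hzz.1.le, hzz.2.le⟩
  have hrr : r' = r := by
    have h5 := congrArg norm hx'
    rw [norm_smul, norm_smul, nx, nz, Real.norm_of_nonneg hr.le, Real.norm_of_nonneg hr'.le] at h5
    linarith
  rw [hrr] at hx'
  have h6 : γ z = γ x := smul_right_injective E3 hr.ne' hx'
  have h7 : z = x := hi ⟨by linarith [hzz.1], hzz.2.le⟩ ⟨hx.1.le, by linarith [hx.2]⟩ h6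
  linarith [hx.2, hzz.1]

end Pool.Agent.H59.HF
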