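import Pool.Agent.H59.HF.Defs

/-! # Polar coordinates in the polygons around the common vertex -/

open scoped RealInnerProductSpace
open Set

namespace Pool.Agent.H59.HF

variable {k : ℕ}

/-- the angle of the `i`-th polygon at the common vertex (`1` for indices after the last one) -/
noncomputable def al (H : HChain k) (i : ℕ) : ℝ :=
  if h : i < k + 1 then InnerProductGeometry.angle (H.a ⟨i, h⟩ - H.V ⟨i, h⟩)
    (H.b ⟨i, h⟩ - H.V ⟨i, h⟩) else 1

/-- sum of the first `i` angles -/
noncomputable def ss (H : HChain k) (i : ℕ) : ℝ := ∑ j ∈ Finset.range i, al H j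

/-- the angle of `x` in the `i`-th polygon, measured from the first edge -/
noncomputable def om (H : HChain k) (i : Fin (k + 1)) (x : E2) : ℝ :=
  InnerProductGeometry.angle (H.a i - H.V i) (x - H.V i)

/-- the total angle of a point -/
noncomputable def sg (H : HChain k) (p : Fin (k + 1) × E2) : ℝ := ss H p.1 + om H p.1 p.2

lemma al_fin (H : HChain k) (i : Fin (k + 1)) :
    al H i = InnerProductGeometry.angle (H.a i - H.V i) (H.b i - H.V i) := by
  rw [al, dif_pos i.2]

lemma ss_zero (H : HChain k) : ss H 0 = 0 := by simp [ss]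

lemma ss_succ (H : HChain k) (i : ℕ) : ss H (i + 1) = ss H i + al H i := by
  rw [ss, Finset.sum_range_succ, ← ss]

end Pool.Agent.H59.HF
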