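import Pool.Agent.H59.HF.PDefs

/-! MODULE PlaneA (about 250 lines, may be split). Polar coordinates in one polygon.

Fix `i`, `P = H.poly i`, `V`, `u = a - V`, `v = b - V` (linearly independent, `H.indep`). (1) `cone_mem`: every `x` in `P` is `V + s u + t v` with `s, t >= 0`: `u, v` is a basis
of the plane; for the normal `n` of `edge_a`: `<n,u> = 0` (`a` is in the segment), `<n,v> <= 0` (`b` in `P`) and `<n,v> ≠ 0` (otherwise `b` would be in the segment `[V,a]`,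
against independence), so `<n, x - V> = t <n,v> <= 0` gives `t >= 0`; same for `s` with `edge_b`. (2) `exists_frame`: orthonormal `e, e'` with `u = ‖u‖ e` and
`<e', v> > 0` (`e' = ±` the rotated `e`, `e = (e0, e1)`, rotated `(-e1, e0)`); every vector `w` is `<e,w> e + <e',w> e'`. (3) `rep`: for `x` in `P`, `x ≠ V`:
`x - V = ‖x - V‖ (cos (om x) e + sin (om x) e')`: `<e, x - V> = ‖x - V‖ cos (om x)` is the definition of the angle, `<e', x - V> = t <e',v> >= 0`, and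
`<e,w>^2 + <e',w>^2 = ‖w‖^2`. (4) `om_le`: `sin (al - om x) ‖x - V‖ ‖v‖ = <e,x-V><e',v> - <e',x-V><e,v> = s ‖u‖ <e',v> >= 0`, so `om x <= al` (both in `[0,pi]`).
(5) `exists_pt`: `cos w e + sin w e' = s u + t v` with `s = sin (al - w) / (‖u‖ sin al)`, `t = sin w / (‖v‖ sin al)`, both `>= 0`; the point `V + r (...)` is in the triangle
`V, a, b` if `r (s + t) <= 1`; `r0 = sin al * min ‖u‖ ‖v‖ / 2` works. (6) `on_b`: `om x = al` gives `x - V = (‖x-V‖ / ‖v‖) v`, so `<n, x-V> = 0` for the normal of `edge_b` and `x` is in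
the segment `[V,b]`. -/

open scoped RealInnerProductSpace
open Set

namespace Pool.Agent.H59.HF

private lemma in2 (x y : E2) : ⟪x, y⟫ = x 0 * y 0 + x 1 * y 1 := by
  rw [PiLp.inner_apply, Fin.sum_univ_two]
  simp only [RCLike.inner_apply, conj_trivial]
  ring

private lemma pair_ne {u v : E2} (h : LinearIndependent ℝ ![u, v]) (s t : ℝ)
    (e : s • u + t • v = 0) : s = 0 ∧ t = 0 := LinearIndependent.pair_iff.mp h s t e

private lemma frame2 {u v : E2} (h : LinearIndependent ℝ ![u, v]) :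
    ∃ e e' : E2, ‖e‖ = 1 ∧ ‖e'‖ = 1 ∧ ⟪e, e'⟫ = 0 ∧ u = ‖u‖ • e ∧ 0 < ⟪e', v⟫ ∧
      ∀ w : E2, w = ⟪e, w⟫ • e + ⟪e', w⟫ • e' := by
  have hu : u ≠ 0 := by
    intro h0
    have := (pair_ne h 1 0 (by rw [h0]; simp)).1
    exact one_ne_zero this
  have hu' : ‖u‖ ≠ 0 := norm_ne_zero_iff.mpr hu
  set e : E2 := ‖u‖⁻¹ • u with he
  have hen : ‖e‖ = 1 := by
    rw [he, norm_smul, norm_inv, norm_norm, inv_mul_cancel₀ hu']
  have hue : u = ‖u‖ • e := by
    rw [he, smul_smul, mul_inv_cancel₀ hu', one_smul]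
  have hee : e 0 ^ 2 + e 1 ^ 2 = 1 := by
    have h1 : ⟪e, e⟫ = 1 := by rw [real_inner_self_eq_norm_sq, hen]; norm_num
    rw [in2] at h1
    linarith
  set f : E2 := !₂[-e 1, e 0] with hf
  have hf0 : f 0 = -e 1 := by simp [hf]
  have hf1 : f 1 = e 0 := by simp [hf]
  have hfn : ‖f‖ = 1 := by
    have h1 : ⟪f, f⟫ = 1 := by rw [in2, hf0, hf1]; linarith
    rw [real_inner_self_eq_norm_sq] at h1
    have h2 : 0 ≤ ‖f‖ := norm_nonneg _
    nlinarith
  have hef : ⟪e, f⟫ = 0 := by rw [in2, hf0, hf1]; ring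
  have hexp : ∀ w : E2, w = ⟪e, w⟫ • e + ⟪f, w⟫ • f := by
    intro w
    ext i
    fin_cases i
    · simp only [in2, hf0, hf1, PiLp.add_apply, PiLp.smul_apply, smul_eq_mul, Fin.zero_eta]
      linear_combination (-(w 0)) * hee
    · simp only [in2, hf0, hf1, PiLp.add_apply, PiLp.smul_apply, smul_eq_mul, Fin.mk_one]
      linear_combination (-(w 1)) * hee
  have hfv : ⟪f, v⟫ ≠ 0 := by
    intro h0
    have h1 := hexp v
    rw [h0, zero_smul, add_zero] at h1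
    have h2 : (-⟪e, v⟫) • u + ‖u‖ • v = 0 := by
      rw [h1, hue]
      simp only [inner_smul_right, norm_smul, smul_smul]
      rw [← add_smul]
      have : -(⟪e, e⟫ * 0) = (0 : ℝ) := by ring
      have h3 : ⟪e, e⟫ = 1 := by rw [real_inner_self_eq_norm_sq, hen]; norm_num
      rw [h3]
      have h4 : -(⟪e, v⟫ * 1) * ‖u‖ + ‖‖u‖‖ * ‖e‖ * ⟪e, v⟫ = 0 := by
        rw [norm_norm, hen]; ring
      rw [h4, zero_smul]
    exact hu' (pair_ne h _ _ h2).2
  rcases lt_or_gt_of_ne hfv with h1 | h1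
  · refine ⟨e, -f, hen, by rw [norm_neg, hfn], by rw [inner_neg_right, hef, neg_zero], hue,
      by rw [inner_neg_left]; linarith, fun w => ?_⟩
    rw [inner_neg_left, smul_neg, neg_smul, neg_neg]
    exact hexp w
  · exact ⟨e, f, hen, hfn, hef, hue, h1, hexp⟩

private lemma polar2 {e e' u w : E2} (hen : ‖e‖ = 1) (hen' : ‖e'‖ = 1) (hee : ⟪e, e'⟫ = 0)
    (hue : u = ‖u‖ • e) (hu : u ≠ 0) (hexp : w = ⟪e, w⟫ • e + ⟪e', w⟫ • e') (hw : w ≠ 0)
    (hpos : 0 ≤ ⟪e', w⟫) :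
    ⟪e, w⟫ = ‖w‖ * Real.cos (InnerProductGeometry.angle u w) ∧
      ⟪e', w⟫ = ‖w‖ * Real.sin (InnerProductGeometry.angle u w) := by
  have hu' : ‖u‖ ≠ 0 := norm_ne_zero_iff.mpr hu
  have h1 : ⟪e, w⟫ = ‖w‖ * Real.cos (InnerProductGeometry.angle u w) := by
    have h2 := InnerProductGeometry.cos_angle_mul_norm_mul_norm u w
    have h3 : ⟪u, w⟫ = ‖u‖ * ⟪e, w⟫ := by
      conv_lhs => rw [hue]
      rw [real_inner_smul_left]
    rw [h3] at h2
    have h4 : ‖u‖ * ⟪e, w⟫ = ‖u‖ * (‖w‖ * Real.cos (InnerProductGeometry.angle u w)) := by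
      rw [← h2]; ring
    exact mul_left_cancel₀ hu' h4
  refine ⟨h1, ?_⟩
  have h5 : ‖w‖ ^ 2 = ⟪e, w⟫ ^ 2 + ⟪e', w⟫ ^ 2 := by
    have h6 : ⟪w, w⟫ = ⟪e, w⟫ ^ 2 + ⟪e', w⟫ ^ 2 := by
      conv_lhs => rw [hexp]
      simp only [inner_add_left, inner_add_right, real_inner_smul_left, real_inner_smul_right]
      have h7 : ⟪e, e⟫ = 1 := by rw [real_inner_self_eq_norm_sq, hen]; norm_num
      have h8 : ⟪e', e'⟫ = 1 := by rw [real_inner_self_eq_norm_sq, hen']; norm_num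
      have h9 : ⟪e', e⟫ = 0 := by rw [real_inner_comm, hee]
      rw [h7, h8, h9, hee]
      ring
    rw [← h6, real_inner_self_eq_norm_sq]
  have h10 : 0 ≤ ‖w‖ * Real.sin (InnerProductGeometry.angle u w) :=
    mul_nonneg (norm_nonneg _) (InnerProductGeometry.sin_angle_nonneg _ _)
  have h11 : ⟪e', w⟫ ^ 2 = (‖w‖ * Real.sin (InnerProductGeometry.angle u w)) ^ 2 := by
    rw [h1] at h5
    have h12 := Real.sin_sq_add_cos_sq (InnerProductGeometry.angle u w)
    linear_combination (-1) * h5 - ‖w‖ ^ 2 * h12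
  exact (sq_eq_sq₀ hpos h10).mp h11

variable {k : ℕ} (H : HChain k)

private lemma ind (i : Fin (k + 1)) :
    LinearIndependent ℝ ![H.a i - H.V i, H.b i - H.V i] := H.indep i

theorem V_mem (i : Fin (k + 1)) : H.V i ∈ H.poly i := by
  obtain ⟨_, n, _, h⟩ := H.edge_a i
  have h1 : H.V i ∈ segment ℝ (H.V i) (H.a i) := left_mem_segment ℝ _ _
  rw [← h] at h1
  exact h1.1

theorem a_mem (i : Fin (k + 1)) : H.a i ∈ H.poly i := by
  obtain ⟨_, n, _, h⟩ := H.edge_a i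
  have h1 : H.a i ∈ segment ℝ (H.V i) (H.a i) := right_mem_segment ℝ _ _
  rw [← h] at h1
  exact h1.1

theorem b_mem (i : Fin (k + 1)) : H.b i ∈ H.poly i := by
  obtain ⟨_, n, _, h⟩ := H.edge_b i
  have h1 : H.b i ∈ segment ℝ (H.V i) (H.b i) := right_mem_segment ℝ _ _
  rw [← h] at h1
  exact h1.1

theorem a_ne (i : Fin (k + 1)) : H.a i ≠ H.V i := fun h => (H.edge_a i).1 h.symm

theorem b_ne (i : Fin (k + 1)) : H.b i ≠ H.V i := fun h => (H.edge_b i).1 h.symm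

private lemma seg_form {V A x : E2} (h : x ∈ segment ℝ V A) :
    ∃ s ∈ Icc (0 : ℝ) 1, x = V + s • (A - V) := by
  rw [segment_eq_image'] at h
  obtain ⟨s, hs, e⟩ := h
  exact ⟨s, hs, e.symm⟩

private lemma not_seg_b (i : Fin (k + 1)) : H.b i ∉ segment ℝ (H.V i) (H.a i) := by
  intro h
  obtain ⟨s, _, e⟩ := seg_form h
  have h1 : (-s) • (H.a i - H.V i) + (1 : ℝ) • (H.b i - H.V i) = 0 := by
    rw [e]
    simp
  exact one_ne_zero (pair_ne (ind H i) _ _ h1).2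

private lemma not_seg_a (i : Fin (k + 1)) : H.a i ∉ segment ℝ (H.V i) (H.b i) := by
  intro h
  obtain ⟨s, _, e⟩ := seg_form h
  have h1 : (1 : ℝ) • (H.a i - H.V i) + (-s) • (H.b i - H.V i) = 0 := by
    rw [e]
    simp
  exact one_ne_zero (pair_ne (ind H i) _ _ h1).1

/-- normal of the first edge: zero on `a - V`, negative on `b - V`, nonpositive on the polygon -/
private lemma normal_a (i : Fin (k + 1)) : ∃ n : E2, ⟪n, H.a i - H.V i⟫ = 0 ∧
    ⟪n, H.b i - H.V i⟫ < 0 ∧ (∀ x ∈ H.poly i, ⟪n, x - H.V i⟫ ≤ 0) ∧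
    ∀ x ∈ H.poly i, ⟪n, x - H.V i⟫ = 0 → x ∈ segment ℝ (H.V i) (H.a i) := by
  obtain ⟨_, n, h1, h2⟩ := H.edge_a i
  refine ⟨n, ?_, ?_, h1, ?_⟩
  · have h3 : H.a i ∈ segment ℝ (H.V i) (H.a i) := right_mem_segment ℝ _ _
    rw [← h2] at h3
    exact h3.2
  · refine lt_of_le_of_ne (h1 _ (b_mem H i)) fun h0 => not_seg_b H i ?_
    rw [← h2]
    exact ⟨b_mem H i, h0⟩
  · intro x hx h0
    rw [← h2]
    exact ⟨hx, h0⟩

private lemma normal_b (i : Fin (k + 1)) : ∃ n : E2, ⟪n, H.b i - H.V i⟫ = 0 ∧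
    ⟪n, H.a i - H.V i⟫ < 0 ∧ (∀ x ∈ H.poly i, ⟪n, x - H.V i⟫ ≤ 0) ∧
    ∀ x ∈ H.poly i, ⟪n, x - H.V i⟫ = 0 → x ∈ segment ℝ (H.V i) (H.b i) := by
  obtain ⟨_, n, h1, h2⟩ := H.edge_b i
  refine ⟨n, ?_, ?_, h1, ?_⟩
  · have h3 : H.b i ∈ segment ℝ (H.V i) (H.b i) := right_mem_segment ℝ _ _
    rw [← h2] at h3
    exact h3.2
  · refine lt_of_le_of_ne (h1 _ (a_mem H i)) fun h0 => not_seg_a H i ?_
    rw [← h2]
    exact ⟨a_mem H i, h0⟩
  · intro x hx h0
    rw [← h2]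
    exact ⟨hx, h0⟩

private lemma al_pos_fin (i : Fin (k + 1)) : 0 < al H i ∧ al H i < Real.pi := by
  rw [al_fin]
  constructor
  · refine lt_of_le_of_ne (InnerProductGeometry.angle_nonneg _ _) fun h0 => ?_
    obtain ⟨_, r, _, hr⟩ := InnerProductGeometry.angle_eq_zero_iff.mp h0.symm
    have h1 : (-r) • (H.a i - H.V i) + (1 : ℝ) • (H.b i - H.V i) = 0 := by
      rw [hr, one_smul, ← add_smul]
      simp
    exact one_ne_zero (pair_ne (ind H i) _ _ h1).2
  · refine lt_of_le_of_ne (InnerProductGeometry.angle_le_pi _ _) fun h0 => ?_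
    obtain ⟨_, r, _, hr⟩ := InnerProductGeometry.angle_eq_pi_iff.mp h0
    have h1 : (-r) • (H.a i - H.V i) + (1 : ℝ) • (H.b i - H.V i) = 0 := by
      rw [hr, one_smul, ← add_smul]
      simp
    exact one_ne_zero (pair_ne (ind H i) _ _ h1).2

theorem al_pos (i : ℕ) : 0 < al H i := by
  by_cases h : i < k + 1
  · exact (al_pos_fin H ⟨i, h⟩).1
  · rw [al, dif_neg h]
    exact one_pos

theorem al_lt (i : ℕ) : al H i < Real.pi := by
  by_cases h : i < k + 1
  · exact (al_pos_fin H ⟨i, h⟩).2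
  · rw [al, dif_neg h]
    linarith [Real.pi_gt_three]

theorem ss_lt (i : ℕ) : ss H i < ss H (i + 1) := by
  rw [ss_succ]
  linarith [al_pos H i]

theorem ss_sub (i : ℕ) : ss H (i + 1) - ss H i < Real.pi := by
  rw [ss_succ]
  linarith [al_lt H i]

theorem cone_mem (i : Fin (k + 1)) {x : E2} (hx : x ∈ H.poly i) :
    ∃ s t : ℝ, 0 ≤ s ∧ 0 ≤ t ∧ x = H.V i + s • (H.a i - H.V i) + t • (H.b i - H.V i) := by
  obtain ⟨e, e', hen, hen', hee, hue, hpos, hexp⟩ := frame2 (ind H i)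
  set u := H.a i - H.V i with hu
  set v := H.b i - H.V i with hv
  have hu0 : u ≠ 0 := sub_ne_zero.mpr (a_ne H i)
  have hun : ‖u‖ ≠ 0 := norm_ne_zero_iff.mpr hu0
  set w := x - H.V i with hw
  set t : ℝ := ⟪e', w⟫ / ⟪e', v⟫ with ht
  set s : ℝ := (⟪e, w⟫ - t * ⟪e, v⟫) / ‖u‖ with hs
  have hrep : w = s • u + t • v := by
    have h1 := hexp w
    have h2 := hexp v
    have h3 : t * ⟪e', v⟫ = ⟪e', w⟫ := by
      rw [ht]; field_simp
    have h4 : s * ‖u‖ = ⟪e, w⟫ - t * ⟪e, v⟫ := by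
      rw [hs]; field_simp
    calc w = ⟪e, w⟫ • e + ⟪e', w⟫ • e' := h1
      _ = (s * ‖u‖ + t * ⟪e, v⟫) • e + (t * ⟪e', v⟫) • e' := by rw [h3, h4]; congr 2; ring
      _ = s • (‖u‖ • e) + t • (⟪e, v⟫ • e + ⟪e', v⟫ • e') := by module
      _ = s • u + t • v := by rw [← hue, ← h2]
  obtain ⟨n, n1, n2, n3, _⟩ := normal_a H i
  obtain ⟨m, m1, m2, m3, _⟩ := normal_b H i
  refine ⟨s, t, ?_, ?_, ?_⟩
  · have h5 := m3 x hx
    rw [← hw, hrep, inner_add_right, real_inner_smul_right, real_inner_smul_right] at h5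
    rw [← hv] at m1
    rw [← hu] at m2
    rw [m1, mul_zero, add_zero] at h5
    by_contra hneg
    push Not at hneg
    have := mul_pos_of_neg_of_neg hneg m2
    linarith
  · have h5 := n3 x hx
    rw [← hw, hrep, inner_add_right, real_inner_smul_right, real_inner_smul_right] at h5
    rw [← hu] at n1
    rw [← hv] at n2
    rw [n1, mul_zero, zero_add] at h5
    by_contra hneg
    push Not at hneg
    have := mul_pos_of_neg_of_neg hneg n2
    linarith
  · rw [add_assoc, ← hrep, hw]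
    abel

theorem exists_frame (i : Fin (k + 1)) :
    ∃ e e' : E2, ‖e‖ = 1 ∧ ‖e'‖ = 1 ∧ ⟪e, e'⟫ = 0 ∧ H.a i - H.V i = ‖H.a i - H.V i‖ • e ∧
      0 < ⟪e', H.b i - H.V i⟫ ∧ (∀ w : E2, w = ⟪e, w⟫ • e + ⟪e', w⟫ • e') ∧
      ∀ x ∈ H.poly i, x ≠ H.V i →
        x - H.V i = ‖x - H.V i‖ • (Real.cos (om H i x) • e + Real.sin (om H i x) • e') := by
  obtain ⟨e, e', hen, hen', hee, hue, hpos, hexp⟩ := frame2 (ind H i)
  refine ⟨e, e', hen, hen', hee, hue, hpos, hexp, fun x hx hV => ?_⟩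
  have hu0 : H.a i - H.V i ≠ 0 := sub_ne_zero.mpr (a_ne H i)
  have hw0 : x - H.V i ≠ 0 := sub_ne_zero.mpr hV
  obtain ⟨s, t, hs, ht, hst⟩ := cone_mem H i hx
  have h1 : 0 ≤ ⟪e', x - H.V i⟫ := by
    have h2 : x - H.V i = s • (H.a i - H.V i) + t • (H.b i - H.V i) := by
      conv_lhs => rw [hst]
      abel
    have h3 : ⟪e', H.a i - H.V i⟫ = 0 := by
      rw [hue, real_inner_smul_right, real_inner_comm, hee, mul_zero]
    rw [h2, inner_add_right, real_inner_smul_right, real_inner_smul_right, h3, mul_zero, zero_add]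
    exact mul_nonneg ht hpos.le
  obtain ⟨h4, h5⟩ := polar2 hen hen' hee hue hu0 (hexp (x - H.V i)) hw0 h1
  conv_lhs => rw [hexp (x - H.V i), h4, h5]
  rw [om]
  module

theorem om_nonneg (i : Fin (k + 1)) (x : E2) : 0 ≤ om H i x := InnerProductGeometry.angle_nonneg _ _

private lemma al_eq (i : Fin (k + 1)) : al H i = om H i (H.b i) := al_fin H i

/-- everything about the frame of the polygon -/
private lemma full (i : Fin (k + 1)) :
    ∃ e e' : E2, ‖e‖ = 1 ∧ ‖e'‖ = 1 ∧ ⟪e, e'⟫ = 0 ∧ H.a i - H.V i = ‖H.a i - H.V i‖ • e ∧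
      (∀ w : E2, w = ⟪e, w⟫ • e + ⟪e', w⟫ • e') ∧
      (∀ w w' : E2, ⟪w, w'⟫ = ⟪e, w⟫ * ⟪e, w'⟫ + ⟪e', w⟫ * ⟪e', w'⟫) ∧
      (∀ x ∈ H.poly i, x ≠ H.V i → ⟪e, x - H.V i⟫ = ‖x - H.V i‖ * Real.cos (om H i x) ∧
        ⟪e', x - H.V i⟫ = ‖x - H.V i‖ * Real.sin (om H i x)) ∧
      ∀ w : E2, 0 ≤ ⟪e', w⟫ → w ≠ 0 →
        ⟪e, w⟫ = ‖w‖ * Real.cos (InnerProductGeometry.angle (H.a i - H.V i) w) ∧
        ⟪e', w⟫ = ‖w‖ * Real.sin (InnerProductGeometry.angle (H.a i - H.V i) w) := by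
  obtain ⟨e, e', hen, hen', hee, hue, hpos, hexp⟩ := frame2 (ind H i)
  have hu0 : H.a i - H.V i ≠ 0 := sub_ne_zero.mpr (a_ne H i)
  have k1 : ⟪e, e⟫ = 1 := by rw [real_inner_self_eq_norm_sq, hen]; norm_num
  have k2 : ⟪e', e'⟫ = 1 := by rw [real_inner_self_eq_norm_sq, hen']; norm_num
  have k3 : ⟪e', e⟫ = 0 := by rw [real_inner_comm, hee]
  have hpol : ∀ w : E2, 0 ≤ ⟪e', w⟫ → w ≠ 0 →
        ⟪e, w⟫ = ‖w‖ * Real.cos (InnerProductGeometry.angle (H.a i - H.V i) w) ∧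
        ⟪e', w⟫ = ‖w‖ * Real.sin (InnerProductGeometry.angle (H.a i - H.V i) w) :=
    fun w h1 h2 => polar2 hen hen' hee hue hu0 (hexp w) h2 h1
  refine ⟨e, e', hen, hen', hee, hue, hexp, ?_, ?_, hpol⟩
  · intro w w'
    conv_lhs => rw [hexp w, hexp w']
    simp only [inner_add_left, inner_add_right, real_inner_smul_left, real_inner_smul_right, k1, k2,
      k3, hee]
    ring
  · intro x hx hV
    obtain ⟨s, t, hs, ht, hst⟩ := cone_mem H i hx
    refine hpol _ ?_ (sub_ne_zero.mpr hV)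
    have h2 : x - H.V i = s • (H.a i - H.V i) + t • (H.b i - H.V i) := by
      conv_lhs => rw [hst]
      abel
    have h3 : ⟪e', H.a i - H.V i⟫ = 0 := by
      rw [hue, real_inner_smul_right, k3, mul_zero]
    rw [h2, inner_add_right, real_inner_smul_right, real_inner_smul_right, h3, mul_zero, zero_add]
    exact mul_nonneg ht hpos.le

private lemma a_coord {i : Fin (k + 1)} {e e' : E2} (hen : ‖e‖ = 1) (hee : ⟪e, e'⟫ = 0)
    (hue : H.a i - H.V i = ‖H.a i - H.V i‖ • e) :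
    ⟪e, H.a i - H.V i⟫ = ‖H.a i - H.V i‖ ∧ ⟪e', H.a i - H.V i⟫ = 0 := by
  have k1 : ⟪e, e⟫ = 1 := by rw [real_inner_self_eq_norm_sq, hen]; norm_num
  have k3 : ⟪e', e⟫ = 0 := by rw [real_inner_comm, hee]
  constructor
  · conv_lhs => rw [hue]
    rw [real_inner_smul_right, k1, mul_one]
  · rw [hue, real_inner_smul_right, k3, mul_zero]

theorem om_le (i : Fin (k + 1)) {x : E2} (hx : x ∈ H.poly i) (hV : x ≠ H.V i) :
    om H i x ≤ al H i := by
  obtain ⟨e, e', hen, hen', hee, hue, hexp, hin, hco, _⟩ := full H i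
  obtain ⟨s, t, hs, ht, hst⟩ := cone_mem H i hx
  obtain ⟨ha1, ha2⟩ := a_coord H hen hee hue
  have hun : 0 < ‖H.a i - H.V i‖ := norm_pos_iff.mpr (sub_ne_zero.mpr (a_ne H i))
  have hxn : 0 < ‖x - H.V i‖ := norm_pos_iff.mpr (sub_ne_zero.mpr hV)
  have hbn : 0 < ‖H.b i - H.V i‖ := norm_pos_iff.mpr (sub_ne_zero.mpr (b_ne H i))
  have h2 : x - H.V i = s • (H.a i - H.V i) + t • (H.b i - H.V i) := by
    conv_lhs => rw [hst]
    abel
  obtain ⟨x1, x2⟩ := hco x hx hV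
  obtain ⟨b1, b2⟩ := hco _ (b_mem H i) (b_ne H i)
  rw [← al_eq] at b1 b2
  have y1 : ⟪e, x - H.V i⟫ = s * ‖H.a i - H.V i‖ + t * ⟪e, H.b i - H.V i⟫ := by
    rw [h2, inner_add_right, real_inner_smul_right, real_inner_smul_right, ha1]
  have y2 : ⟪e', x - H.V i⟫ = t * ⟪e', H.b i - H.V i⟫ := by
    rw [h2, inner_add_right, real_inner_smul_right, real_inner_smul_right, ha2, mul_zero, zero_add]
  have key : ‖x - H.V i‖ * ‖H.b i - H.V i‖ * Real.sin (al H i - om H i x) =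
      s * ‖H.a i - H.V i‖ * (‖H.b i - H.V i‖ * Real.sin (al H i)) := by
    have e1 : ‖x - H.V i‖ * ‖H.b i - H.V i‖ * Real.sin (al H i - om H i x) =
        (‖x - H.V i‖ * Real.cos (om H i x)) * (‖H.b i - H.V i‖ * Real.sin (al H i)) -
        (‖x - H.V i‖ * Real.sin (om H i x)) * (‖H.b i - H.V i‖ * Real.cos (al H i)) := by
      rw [Real.sin_sub]; ring
    rw [e1, ← x1, ← x2, ← b1, ← b2, y1, y2]
    ring
  by_contra hlt
  push Not at hlt
  have s1 : Real.sin (al H i - om H i x) < 0 := by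
    apply Real.sin_neg_of_neg_of_neg_pi_lt (by linarith)
    have := InnerProductGeometry.angle_le_pi (H.a i - H.V i) (x - H.V i)
    have h3 := al_pos H i
    rw [om]
    linarith
  have s2 : 0 ≤ Real.sin (al H i) :=
    Real.sin_nonneg_of_nonneg_of_le_pi (al_pos H i).le (al_lt H i).le
  have s3 : 0 ≤ s * ‖H.a i - H.V i‖ * (‖H.b i - H.V i‖ * Real.sin (al H i)) := by positivity
  have s4 : ‖x - H.V i‖ * ‖H.b i - H.V i‖ * Real.sin (al H i - om H i x) < 0 :=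
    mul_neg_of_pos_of_neg (mul_pos hxn hbn) s1
  linarith

theorem inner_om (i : Fin (k + 1)) {x y : E2} (hx : x ∈ H.poly i) (hxV : x ≠ H.V i)
    (hy : y ∈ H.poly i) (hyV : y ≠ H.V i) :
    ⟪x - H.V i, y - H.V i⟫ = ‖x - H.V i‖ * ‖y - H.V i‖ * Real.cos (om H i x - om H i y) := by
  obtain ⟨e, e', hen, hen', hee, hue, hexp, hin, hco, _⟩ := full H i
  obtain ⟨x1, x2⟩ := hco x hx hxV
  obtain ⟨y1, y2⟩ := hco y hy hyV
  rw [hin, x1, x2, y1, y2, Real.cos_sub]
  ring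

/-- law of cosines in the polygon -/
theorem dist_om (i : Fin (k + 1)) {x y : E2} (hx : x ∈ H.poly i) (hy : y ∈ H.poly i) :
    ‖x - y‖ ^ 2 = ‖x - H.V i‖ ^ 2 + ‖y - H.V i‖ ^ 2 -
      2 * ‖x - H.V i‖ * ‖y - H.V i‖ * Real.cos (om H i x - om H i y) := by
  have h0 : x - y = (x - H.V i) - (y - H.V i) := by abel
  rw [h0, norm_sub_sq_real]
  by_cases hxV : x = H.V i
  · rw [hxV, sub_self]
    simp
  · by_cases hyV : y = H.V i
    · rw [hyV, sub_self]
      simp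
    · rw [inner_om H i hx hxV hy hyV]
      ring

theorem eq_of_om (i : Fin (k + 1)) {x y : E2} (hx : x ∈ H.poly i) (hy : y ∈ H.poly i)
    (h1 : ‖x - H.V i‖ = ‖y - H.V i‖) (h2 : om H i x = om H i y) : x = y := by
  have h := dist_om H i hx hy
  rw [h1, h2, sub_self, Real.cos_zero] at h
  have h3 : ‖x - y‖ ^ 2 = 0 := by rw [h]; ring
  have h4 : ‖x - y‖ = 0 := by
    rcases pow_eq_zero_iff (two_ne_zero) |>.mp h3 with h5
    exact h5
  exact sub_eq_zero.mp (norm_eq_zero.mp h4)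

private lemma tri_mem (i : Fin (k + 1)) {s t : ℝ} (hs : 0 ≤ s) (ht : 0 ≤ t) (hst : s + t ≤ 1) :
    H.V i + (s • (H.a i - H.V i) + t • (H.b i - H.V i)) ∈ H.poly i := by
  have hc : Convex ℝ (H.poly i) := convex_convexHull ℝ _
  have h := hc.sum_mem (t := Finset.univ) (w := ![1 - s - t, s, t])
    (z := ![H.V i, H.a i, H.b i]) (by
      intro j _
      fin_cases j
      · simp; linarith
      · simpa using hs
      · simpa using ht) (by
      simp [Fin.sum_univ_three]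
      ring) (by
      intro j _
      fin_cases j
      · simpa using V_mem H i
      · simpa using a_mem H i
      · simpa using b_mem H i)
  have e : ∑ j : Fin 3, (![1 - s - t, s, t] j) • (![H.V i, H.a i, H.b i] j) =
      H.V i + (s • (H.a i - H.V i) + t • (H.b i - H.V i)) := by
    simp only [Fin.sum_univ_three, Matrix.cons_val_zero, Matrix.cons_val_one, Matrix.cons_val]
    module
  rw [← e]
  exact h

theorem exists_pt (i : Fin (k + 1)) :
    ∃ r0 > 0, ∀ r ∈ Ioc 0 r0, ∀ w ∈ Icc 0 (al H i), ∃ x ∈ H.poly i,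
      ‖x - H.V i‖ = r ∧ om H i x = w := by
  obtain ⟨e, e', hen, hen', hee, hue, hexp, hin, hco, hpol⟩ := full H i
  obtain ⟨ha1, ha2⟩ := a_coord H hen hee hue
  have hun : 0 < ‖H.a i - H.V i‖ := norm_pos_iff.mpr (sub_ne_zero.mpr (a_ne H i))
  have hbn : 0 < ‖H.b i - H.V i‖ := norm_pos_iff.mpr (sub_ne_zero.mpr (b_ne H i))
  have hsin : 0 < Real.sin (al H i) := Real.sin_pos_of_pos_of_lt_pi (al_pos H i) (al_lt H i)
  obtain ⟨b1, b2⟩ := hco _ (b_mem H i) (b_ne H i)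
  rw [← al_eq] at b1 b2
  set U := ‖H.a i - H.V i‖ with hU
  set W := ‖H.b i - H.V i‖ with hW
  set A := al H i with hA
  have k1 : ⟪e, e⟫ = 1 := by rw [real_inner_self_eq_norm_sq, hen]; norm_num
  have k2 : ⟪e', e'⟫ = 1 := by rw [real_inner_self_eq_norm_sq, hen']; norm_num
  have k3 : ⟪e', e⟫ = 0 := by rw [real_inner_comm, hee]
  refine ⟨Real.sin A * min U W / 2, by positivity, ?_⟩
  intro r hr w hw
  have hs1 : 0 ≤ Real.sin (A - w) :=
    Real.sin_nonneg_of_nonneg_of_le_pi (by linarith [hw.2]) (by linarith [hw.1, al_lt H i])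
  have hs2 : 0 ≤ Real.sin w :=
    Real.sin_nonneg_of_nonneg_of_le_pi hw.1 (by linarith [hw.2, al_lt H i])
  set s := r * (Real.sin (A - w) / (U * Real.sin A)) with hs
  set t := r * (Real.sin w / (W * Real.sin A)) with ht
  have hr0 : 0 < r := hr.1
  have hs0 : 0 ≤ s := by positivity
  have ht0 : 0 ≤ t := by positivity
  have hmin1 : Real.sin A * min U W ≤ U * Real.sin A := by
    rw [mul_comm U]
    exact mul_le_mul_of_nonneg_left (min_le_left _ _) hsin.le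
  have hmin2 : Real.sin A * min U W ≤ W * Real.sin A := by
    rw [mul_comm W]
    exact mul_le_mul_of_nonneg_left (min_le_right _ _) hsin.le
  have hs3 : s ≤ 1 / 2 := by
    have h1 : s ≤ r * (1 / (U * Real.sin A)) := by
      apply mul_le_mul_of_nonneg_left _ hr0.le
      exact div_le_div_of_nonneg_right (Real.sin_le_one _) (by positivity)
    have h2 : r * (1 / (U * Real.sin A)) ≤ 1 / 2 := by
      rw [mul_one_div, div_le_iff₀ (by positivity)]
      linarith [hr.2]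
    linarith
  have ht3 : t ≤ 1 / 2 := by
    have h1 : t ≤ r * (1 / (W * Real.sin A)) := by
      apply mul_le_mul_of_nonneg_left _ hr0.le
      exact div_le_div_of_nonneg_right (Real.sin_le_one _) (by positivity)
    have h2 : r * (1 / (W * Real.sin A)) ≤ 1 / 2 := by
      rw [mul_one_div, div_le_iff₀ (by positivity)]
      linarith [hr.2]
    linarith
  have hmem := tri_mem H i hs0 ht0 (by linarith)
  set z : E2 := s • (H.a i - H.V i) + t • (H.b i - H.V i) with hz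
  have z1 : ⟪e, z⟫ = r * Real.cos w := by
    rw [hz, inner_add_right, real_inner_smul_right, real_inner_smul_right, ha1, b1, hs, ht,
      Real.sin_sub]
    field_simp
    ring
  have z2 : ⟪e', z⟫ = r * Real.sin w := by
    rw [hz, inner_add_right, real_inner_smul_right, real_inner_smul_right, ha2, b2, ht]
    field_simp
    ring
  have hzn : ‖z‖ = r := by
    have h1 : ‖z‖ ^ 2 = r ^ 2 := by
      rw [← real_inner_self_eq_norm_sq, hin, z1, z2]
      linear_combination r ^ 2 * Real.sin_sq_add_cos_sq w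
    exact (sq_eq_sq₀ (norm_nonneg _) hr0.le).mp h1
  have hz0 : z ≠ 0 := by
    rw [← norm_pos_iff, hzn]
    exact hr0
  refine ⟨H.V i + z, hmem, ?_, ?_⟩
  · rw [add_sub_cancel_left, hzn]
  · rw [om, add_sub_cancel_left]
    obtain ⟨p1, _⟩ := hpol z (by rw [z2]; positivity) hz0
    rw [z1, hzn] at p1
    have p2 := mul_left_cancel₀ hr0.ne' p1
    exact Real.injOn_cos ⟨InnerProductGeometry.angle_nonneg _ _,
      InnerProductGeometry.angle_le_pi _ _⟩ ⟨hw.1, by linarith [hw.2, al_lt H i]⟩ p2.symm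

theorem on_b (i : Fin (k + 1)) {x : E2} (hx : x ∈ H.poly i) (hV : x ≠ H.V i)
    (h : om H i x = al H i) : ∃ s ∈ Icc (0 : ℝ) 1, x = H.V i + s • (H.b i - H.V i) := by
  obtain ⟨e, e', hen, hen', hee, hue, hexp, hin, hco, hpol⟩ := full H i
  obtain ⟨b1, b2⟩ := hco _ (b_mem H i) (b_ne H i)
  obtain ⟨x1, x2⟩ := hco _ hx hV
  rw [← al_eq, ← h] at b1 b2
  have hbn : 0 < ‖H.b i - H.V i‖ := norm_pos_iff.mpr (sub_ne_zero.mpr (b_ne H i))
  have hb := hexp (H.b i - H.V i)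
  have hxx := hexp (x - H.V i)
  rw [b1, b2] at hb
  rw [x1, x2] at hxx
  have h1 : x - H.V i = (‖x - H.V i‖ / ‖H.b i - H.V i‖) • (H.b i - H.V i) := by
    generalize ‖H.b i - H.V i‖ = W at *
    generalize ‖x - H.V i‖ = R at *
    rw [hb, hxx, smul_add, smul_smul, smul_smul]
    have q1 : R * Real.cos (om H i x) = R / W * (W * Real.cos (om H i x)) := by
      field_simp
    have q2 : R * Real.sin (om H i x) = R / W * (W * Real.sin (om H i x)) := by
      field_simp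
    rw [← q1, ← q2]
  obtain ⟨n, n1, _, _, n4⟩ := normal_b H i
  apply seg_form
  apply n4 x hx
  rw [h1, real_inner_smul_right, n1, mul_zero]

theorem on_a (i : Fin (k + 1)) {x : E2} (hx : x ∈ H.poly i) (hV : x ≠ H.V i)
    (h : om H i x = 0) : ∃ s ∈ Icc (0 : ℝ) 1, x = H.V i + s • (H.a i - H.V i) := by
  obtain ⟨e, e', hen, hen', hee, hue, hexp, hin, hco, hpol⟩ := full H i
  obtain ⟨x1, x2⟩ := hco _ hx hV
  rw [h, Real.cos_zero, mul_one] at x1
  rw [h, Real.sin_zero, mul_zero] at x2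
  have hun : 0 < ‖H.a i - H.V i‖ := norm_pos_iff.mpr (sub_ne_zero.mpr (a_ne H i))
  have h1 : x - H.V i = (‖x - H.V i‖ / ‖H.a i - H.V i‖) • (H.a i - H.V i) := by
    conv_lhs => rw [hexp (x - H.V i), x1, x2, zero_smul, add_zero]
    conv_rhs => rw [hue]
    rw [smul_smul]
    congr 1
    rw [norm_smul, norm_norm, hen]
    field_simp
  obtain ⟨n, n1, _, _, n4⟩ := normal_a H i
  apply seg_form
  apply n4 x hx
  rw [h1, real_inner_smul_right, n1, mul_zero]

end Pool.Agent.H59.HF
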