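import Pool.Agent.H59.HF.PlaneA

/-! MODULE SameA (about 150 lines). The gluing in polar coordinates.

`same_inv`: induction on `Relation.EqvGen` for the relation `‖p - V‖ = ‖q - V‖ ∧ (‖p - V‖ ≠ 0 → sg p = sg q)` (an equivalence relation); for a generator: the norms are `s * ‖b - V‖`,
`s * ‖a' - V'‖`, equal by `H.len`; if `s > 0` the total angles are `ss i + al i` (`angle_smul_right_of_pos`) and `ss (i+1) + 0` (`angle_self`). `same_V`: generators with
`s = 0`, induction on the index. `same_of`: let `p = (i,x)`, `q = (j,y)`, `i <= j`. `ss i + om x = ss j + om y`; if `i = j` then `eq_of_om`; if `i < j` then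
`ss i + om x <= ss (i+1) <= ss j <= ss j + om y`, so all are equal, `j = i + 1` (`ss` is strictly monotone), `om x = al i`, `om y = 0`; `on_b`, `on_a`, the parameters are equal because
the norms are. -/

open scoped RealInnerProductSpace
open Set

namespace Pool.Agent.H59.HF

variable {k : ℕ} (H : HChain k)

theorem ss_strictMono : StrictMono (ss H) := strictMono_nat_of_lt_succ (ss_lt H)

theorem same_inv {p q : Fin (k + 1) × E2} (h : Same H p q) :
    ‖p.2 - H.V p.1‖ = ‖q.2 - H.V q.1‖ ∧ (‖p.2 - H.V p.1‖ ≠ 0 → sg H p = sg H q) := by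
  induction h with
  | rel p q h =>
    obtain ⟨i, s, h0, h1⟩ := h
    simp only
    have hlen : ‖H.b i.castSucc - H.V i.castSucc‖ = ‖H.a i.succ - H.V i.succ‖ := by
      have := H.len i
      rw [dist_eq_norm, dist_eq_norm] at this
      rw [norm_sub_rev, this, norm_sub_rev]
    have e1 : H.V i.castSucc + s • (H.b i.castSucc - H.V i.castSucc) - H.V i.castSucc =
        s • (H.b i.castSucc - H.V i.castSucc) := add_sub_cancel_left _ _
    have e2 : H.V i.succ + s • (H.a i.succ - H.V i.succ) - H.V i.succ =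
        s • (H.a i.succ - H.V i.succ) := add_sub_cancel_left _ _
    refine ⟨?_, ?_⟩
    · rw [e1, e2, norm_smul, norm_smul, hlen]
    · intro hne
      rw [e1, norm_smul] at hne
      have hs : s ≠ 0 := by
        rintro rfl
        simp at hne
      have hs0 : 0 < s := lt_of_le_of_ne h0 (Ne.symm hs)
      have hu : H.a i.succ - H.V i.succ ≠ 0 := sub_ne_zero.2 (a_ne H i.succ)
      rw [sg, sg, om, om]
      simp only
      rw [e1, e2, InnerProductGeometry.angle_smul_right_of_pos _ _ hs0,
        InnerProductGeometry.angle_smul_right_of_pos _ _ hs0,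
        InnerProductGeometry.angle_self hu, ← al_fin, Fin.val_castSucc, Fin.val_succ, ss_succ,
        add_zero]
  | refl p => exact ⟨rfl, fun _ => rfl⟩
  | symm p q _ ih =>
    refine ⟨ih.1.symm, fun hne => (ih.2 ?_).symm⟩
    rw [ih.1]
    exact hne
  | trans p q r _ _ ih1 ih2 =>
    refine ⟨ih1.1.trans ih2.1, fun hne => (ih1.2 hne).trans (ih2.2 ?_)⟩
    rw [← ih1.1]
    exact hne

theorem same_V (i j : Fin (k + 1)) : Same H (i, H.V i) (j, H.V j) := by
  have h1 : ∀ i : Fin (k + 1), Same H (0, H.V 0) (i, H.V i) := by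
    intro i
    induction i using Fin.induction with
    | zero => exact Relation.EqvGen.refl _
    | succ i ih =>
      refine Relation.EqvGen.trans _ _ _ ih (Relation.EqvGen.rel _ _ ?_)
      have := Glue.mk (H := H) i 0 le_rfl zero_le_one
      rw [zero_smul, zero_smul, add_zero, add_zero] at this
      exact this
  exact Relation.EqvGen.trans _ _ _ (Relation.EqvGen.symm _ _ (h1 i)) (h1 j)

private theorem samea_norm {V x : E2} (h : ‖x - V‖ = 0) : x = V :=
  sub_eq_zero.1 (norm_eq_zero.1 h)

private theorem samea_aux {i j : Fin (k + 1)} {x y : E2} (hij : i ≤ j) (hp : x ∈ H.poly i)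
    (hq : y ∈ H.poly j)
    (h1 : ‖x - H.V i‖ = ‖y - H.V j‖) (h2 : ‖x - H.V i‖ ≠ 0 → sg H (i, x) = sg H (j, y)) :
    Same H (i, x) (j, y) := by
  by_cases h0 : ‖x - H.V i‖ = 0
  · have hx : x = H.V i := samea_norm h0
    have hy : y = H.V j := samea_norm (h1.symm.trans h0)
    rw [hx, hy]
    exact same_V H i j
  · have hxV : x ≠ H.V i := by
      rintro rfl
      simp at h0
    have hyV : y ≠ H.V j := by
      rintro rfl
      rw [h1] at h0
      simp at h0
    have h3 := h2 h0
    rw [sg, sg] at h3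
    simp only at h3
    rcases eq_or_lt_of_le hij with heq | hlt
    · subst heq
      have h4 : om H i x = om H i y := by linarith
      rw [eq_of_om H i hp hq h1 h4]
      exact Relation.EqvGen.refl _
    · have hlt' : (i : ℕ) + 1 ≤ (j : ℕ) := hlt
      have h5 : om H i x ≤ al H i := om_le H i hp hxV
      have h6 : 0 ≤ om H j y := om_nonneg H j y
      have h7 : ss H ((i : ℕ) + 1) ≤ ss H (j : ℕ) := (ss_strictMono H).monotone hlt'
      have h8 := ss_succ H (i : ℕ)
      have h9 : om H i x = al H i := by linarith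
      have h10 : om H j y = 0 := by linarith
      have h11 : ss H ((i : ℕ) + 1) = ss H (j : ℕ) := by linarith
      have h12 : (i : ℕ) + 1 = (j : ℕ) := (ss_strictMono H).injective h11
      obtain ⟨s, hs, hxs⟩ := on_b H i hp hxV h9
      obtain ⟨t, ht, hyt⟩ := on_a H j hq hyV h10
      obtain ⟨i', rfl⟩ : ∃ i' : Fin k, i = i'.castSucc :=
        ⟨⟨(i : ℕ), by omega⟩, Fin.ext rfl⟩
      obtain rfl : j = i'.succ := by
        apply Fin.ext
        rw [Fin.val_succ, ← h12, Fin.val_castSucc]
      have hlen : ‖H.b i'.castSucc - H.V i'.castSucc‖ = ‖H.a i'.succ - H.V i'.succ‖ := by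
        have := H.len i'
        rw [dist_eq_norm, dist_eq_norm] at this
        rw [norm_sub_rev, this, norm_sub_rev]
      have hst : s = t := by
        rw [hxs, hyt, add_sub_cancel_left, add_sub_cancel_left, norm_smul, norm_smul, hlen,
          Real.norm_of_nonneg hs.1, Real.norm_of_nonneg ht.1] at h1
        exact mul_right_cancel₀ (norm_ne_zero_iff.2 (sub_ne_zero.2 (a_ne H i'.succ))) h1
      subst hst
      rw [hxs, hyt]
      exact Relation.EqvGen.rel _ _ (Glue.mk i' s hs.1 hs.2)

theorem same_of {p q : Fin (k + 1) × E2} (hp : p.2 ∈ H.poly p.1) (hq : q.2 ∈ H.poly q.1)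
    (h1 : ‖p.2 - H.V p.1‖ = ‖q.2 - H.V q.1‖) (h2 : ‖p.2 - H.V p.1‖ ≠ 0 → sg H p = sg H q) :
    Same H p q := by
  obtain ⟨i, x⟩ := p
  obtain ⟨j, y⟩ := q
  rcases le_total i j with hij | hij
  · exact samea_aux H hij hp hq h1 h2
  · refine Relation.EqvGen.symm _ _ (samea_aux H hij hq hp h1.symm fun hne => ?_)
    exact (h2 (by rw [h1]; exact hne)).symm

/-- total angles are in `[0, ss (k+1)]` -/
theorem sg_mem {i : Fin (k + 1)} {x : E2} (hx : x ∈ H.poly i) (hV : x ≠ H.V i) :
    sg H (i, x) ∈ Icc 0 (ss H (k + 1)) := by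
  rw [sg]
  simp only
  have h1 : om H i x ≤ al H i := om_le H i hx hV
  have h2 : 0 ≤ om H i x := om_nonneg H i x
  have h3 : ss H 0 ≤ ss H (i : ℕ) := (ss_strictMono H).monotone (Nat.zero_le _)
  rw [ss_zero] at h3
  have h4 : ss H ((i : ℕ) + 1) ≤ ss H (k + 1) := (ss_strictMono H).monotone i.2
  rw [ss_succ] at h4
  exact ⟨by linarith, by linarith⟩

end Pool.Agent.H59.HF
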