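import Pool.Agent.H59.HF.Crumple
import Pool.Agent.H59.HF.Carry

/-! MODULE Straight (about 150 lines). If the piece `[u,T]` is geodesic for `γ` and for `γ'` and `v` is between `u` and `T`, a path for `[0,v]` gives a path for
`[0,T]`.

Let `Γ`, `B` be a path on `[0,v]`. Choose `w` in `[u,v)` with `v - w < pi` and no `b` in `B` with `w < b < v` (finite set: `w` is the maximum of `u`, `v - 1`
and the `b < v` in `B`). `γ` is continuous and injective on `[0,T]` (`PG.cont`), so the compact sets `γ [0,w]` and `γ [v,T]` have a positive distance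
`d` (`far_of_inj`: minimum of the continuous function `‖γ s - γ x‖` on the compact set `[0,w] x [v,T]`, if `w >= 0`), same `d'` for `γ'`; `e > 0` is the minimum of
`‖Γ t s - Γ t v‖` on `[0,1] x [0,w]`. Take `M` with `h = (T - v) / M` and `4 h < min d d'`, `4 h < e / 2`, and `lam` in `(0,h]` with `M lam < e / 2`.
`conn_crumple` for `γ`, `conn_carry`, `conn_crumple` for `γ'` (`Conn.symm`, `Conn.trans`). -/

open scoped RealInnerProductSpace
open Set

namespace Pool.Agent.H59.HF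

theorem far_of_inj {γ : ℝ → E3} {w v T : ℝ} (h1 : w < v) (hvT : v ≤ T) (hw : 0 ≤ w)
    (hc : ContinuousOn γ (Icc 0 T)) (hi : InjOn γ (Icc 0 T)) :
    ∃ d > 0, ∀ s ∈ Icc 0 w, ∀ x ∈ Icc v T, d ≤ ‖γ s - γ x‖ := by
  have hK : IsCompact (Icc 0 w ×ˢ Icc v T) := isCompact_Icc.prod isCompact_Icc
  have hne : (Icc 0 w ×ˢ Icc v T).Nonempty := ⟨(0, v), ⟨le_rfl, hw⟩, ⟨le_rfl, hvT⟩⟩
  have hcont : ContinuousOn (fun z : ℝ × ℝ => ‖γ z.1 - γ z.2‖) (Icc 0 w ×ˢ Icc v T) := by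
    refine ((hc.comp continuousOn_fst fun z hz => ?_).sub
      (hc.comp continuousOn_snd fun z hz => ?_)).norm
    · exact ⟨hz.1.1, hz.1.2.trans (h1.le.trans hvT)⟩
    · exact ⟨hw.trans (h1.le.trans hz.2.1), hz.2.2⟩
  obtain ⟨z, hz, hmin⟩ := hK.exists_isMinOn hne hcont
  refine ⟨‖γ z.1 - γ z.2‖, ?_, fun s hs x hx => ?_⟩
  · refine norm_pos_iff.2 fun h0 => ?_
    have h2 := hi (x₁ := z.1) (x₂ := z.2) ⟨hz.1.1, hz.1.2.trans (h1.le.trans hvT)⟩
      ⟨hw.trans (h1.le.trans hz.2.1), hz.2.2⟩ (sub_eq_zero.1 h0)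
    have h3 := hz.1.2
    have h4 := hz.2.1
    linarith
  · exact hmin (a := (s, x)) ⟨hs, hx⟩

theorem far_of_path {Γ : ℝ → ℝ → E3} {γ γ' : ℝ → E3} {B : Finset ℝ} {w v : ℝ} (h1 : w < v)
    (hw : 0 ≤ w) (hΓ : APath v B Γ γ γ') :
    ∃ e > 0, ∀ t ∈ Icc (0 : ℝ) 1, ∀ s ∈ Icc 0 w, e ≤ ‖Γ t s - Γ t v‖ := by
  have hK : IsCompact (Icc (0 : ℝ) 1 ×ˢ Icc 0 w) := isCompact_Icc.prod isCompact_Icc
  have hne : (Icc (0 : ℝ) 1 ×ˢ Icc 0 w).Nonempty :=
    ⟨(0, 0), ⟨le_rfl, zero_le_one⟩, ⟨le_rfl, hw⟩⟩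
  have hcont : ContinuousOn (fun z : ℝ × ℝ => ‖Γ z.1 z.2 - Γ z.1 v‖)
      (Icc (0 : ℝ) 1 ×ˢ Icc 0 w) := by
    refine ContinuousOn.norm (ContinuousOn.sub ?_ ?_)
    · exact hΓ.cont.mono fun z hz => ⟨hz.1, hz.2.1, hz.2.2.trans h1.le⟩
    · exact hΓ.cont.comp (f := fun z : ℝ × ℝ => (z.1, v))
        (continuousOn_fst.prodMk continuousOn_const)
        fun z hz => ⟨hz.1, hw.trans h1.le, le_rfl⟩
  obtain ⟨z, hz, hmin⟩ := hK.exists_isMinOn hne hcont
  refine ⟨‖Γ z.1 z.2 - Γ z.1 v‖, ?_, fun t ht s hs => ?_⟩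
  · refine norm_pos_iff.2 fun h0 => ?_
    have h2 := hΓ.inj z.1 hz.1 (x₁ := z.2) (x₂ := v) ⟨hz.2.1, hz.2.2.trans h1.le⟩
      ⟨hw.trans h1.le, le_rfl⟩ (sub_eq_zero.1 h0)
    have h3 := hz.2.2
    linarith
  · exact hmin (a := (t, s)) ⟨ht, hs⟩

theorem conn_straight {γ γ' : ℝ → E3} {B B' : Finset ℝ} {u v T : ℝ} (hu : 0 ≤ u) (huv : u < v)
    (hvT : v < T) (hT : T - v < Real.pi) (hi : InjOn γ (Icc 0 T)) (hp : PG B T γ)
    (hg : Geo γ u T) (hi' : InjOn γ' (Icc 0 T)) (hp' : PG B' T γ') (hg' : Geo γ' u T)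
    (hc : Conn v γ γ') : Conn T γ γ' := by
  obtain ⟨B0, Γ, hΓ⟩ := hc
  -- the point `w`
  obtain ⟨w, huw, hwv, hvw, hwB⟩ : ∃ w, u ≤ w ∧ w < v ∧ v - w < Real.pi ∧
      ∀ b ∈ B0, b ≤ w ∨ v ≤ b := by
    let F : Finset ℝ := insert u (insert (v - 1) (B0.filter (· < v)))
    have hF : F.Nonempty := ⟨u, Finset.mem_insert_self _ _⟩
    refine ⟨F.max' hF, F.le_max' _ (Finset.mem_insert_self _ _), ?_, ?_, fun b hb => ?_⟩
    · rw [Finset.max'_lt_iff]
      intro y hy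
      simp only [F, Finset.mem_insert, Finset.mem_filter] at hy
      rcases hy with rfl | rfl | hy
      · exact huv
      · linarith
      · exact hy.2
    · have h1 : v - 1 ≤ F.max' hF :=
        F.le_max' _ (Finset.mem_insert_of_mem (Finset.mem_insert_self _ _))
      have := Real.pi_gt_three
      linarith
    · rcases lt_or_ge b v with hbv | hbv
      · left
        exact F.le_max' _ (Finset.mem_insert_of_mem (Finset.mem_insert_of_mem
          (Finset.mem_filter.2 ⟨hb, hbv⟩)))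
      · exact Or.inr hbv
  have hw : 0 ≤ w := hu.trans huw
  obtain ⟨d, hd, hfd⟩ := far_of_inj hwv hvT.le hw hp.cont hi
  obtain ⟨d', hd', hfd'⟩ := far_of_inj hwv hvT.le hw hp'.cont hi'
  obtain ⟨e, he, hfe⟩ := far_of_path hwv hw hΓ
  obtain ⟨c, hc0, hcd, hcd', hce⟩ : ∃ c > 0, c ≤ d ∧ c ≤ d' ∧ c ≤ e / 2 :=
    ⟨min d (min d' (e / 2)), lt_min hd (lt_min hd' (half_pos he)), min_le_left _ _,
      (min_le_right _ _).trans (min_le_left _ _), (min_le_right _ _).trans (min_le_right _ _)⟩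
  obtain ⟨M, hM⟩ := exists_nat_gt (4 * (T - v) / c)
  have hTv : 0 < T - v := sub_pos.2 hvT
  have hMr : (0 : ℝ) < M := lt_trans (by positivity) hM
  have hM0 : 0 < M := by exact_mod_cast hMr
  obtain ⟨h, hh⟩ : ∃ h, h = (T - v) / M := ⟨_, rfl⟩
  have hh0 : 0 < h := by rw [hh]; positivity
  have hMh : M * h = T - v := by rw [hh]; field_simp
  have h4 : 4 * h < c := by
    rw [div_lt_iff₀ hc0] at hM
    have h5 : (M : ℝ) * (4 * h) < M * c := by
      calc (M : ℝ) * (4 * h) = 4 * (M * h) := by ring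
        _ = 4 * (T - v) := by rw [hMh]
        _ < M * c := hM
    exact lt_of_mul_lt_mul_left h5 hMr.le
  obtain ⟨lam, hl, hle, hlM⟩ : ∃ lam, 0 < lam ∧ lam ≤ h ∧ M * lam < e / 2 := by
    refine ⟨min h (e / (4 * M)), lt_min hh0 (by positivity), min_le_left _ _, ?_⟩
    calc (M : ℝ) * min h (e / (4 * M)) ≤ M * (e / (4 * M)) :=
          mul_le_mul_of_nonneg_left (min_le_right _ _) hMr.le
      _ = e / 4 := by field_simp
      _ < e / 2 := by linarith
  have hvT' : v + M * h = T := by rw [hMh]; ring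
  have hπ : M * h < Real.pi := by rw [hMh]; exact hT
  have c1 : Conn (v + M * h) γ (jn v γ (tg γ w v) (zig M h lam)) := by
    refine conn_crumple (B := B) hw hwv hvw hM0 hl hle hπ ?_ ?_ ?_ fun s hs x hx => ?_
    · rw [hvT']; exact hi
    · rw [hvT']; exact hp
    · rw [hvT']; exact hg.sub huw le_rfl
    · rw [hvT'] at hx
      have := hfd s hs x hx
      linarith
  have c2 : Conn (v + M * h) γ' (jn v γ' (tg γ' w v) (zig M h lam)) := by
    refine conn_crumple (B := B') hw hwv hvw hM0 hl hle hπ ?_ ?_ ?_ fun s hs x hx => ?_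
    · rw [hvT']; exact hi'
    · rw [hvT']; exact hp'
    · rw [hvT']; exact hg'.sub huw le_rfl
    · rw [hvT'] at hx
      have := hfd' s hs x hx
      linarith
  have c3 := conn_carry hw hwv hvw hM0 hl hle hπ hΓ hwB fun t ht s hs => by
    have := hfe t ht s hs
    linarith
  have := (c1.trans c3).trans c2.symm
  rwa [hvT'] at this

end Pool.Agent.H59.HF
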