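import Pool.Agent.H59.HF.Straight

/-! MODULE Turn (about 170 lines). The last piece `[v,T]`, if short, can be turned around `γ v` into the straight continuation of `[u,v]`.

Frame at `v`: `p = γ v`, `q = tg γ u v`. On `[v,T]` `γ s = cos (s-v) p + sin (s-v) q1` with `q1` orthogonal to `p`; by `fr_surj`, `q1 = Y q + Z (p x q)`,
`Y^2 + Z^2 = 1`, and `(Y,Z)` is not `(-1,0)` because otherwise `γ (v + r) = γ (v - r)` for small `r` (`tg_back`), against injectivity. Take
`m_t = ((1-t) Y + t, (1-t) Z)` (never zero) and `(Y_t, Z_t) = m_t / |m_t|` (never `(-1,0)`), `R t x = (cos x, sin x Y_t, sin x Z_t)`. `conn_join` with `L t = γ`,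
`BR = ∅`. `hsep`: for `s` in `[0,u]`: the point is at distance at most `T - v` from `γ v` (`|cos x - 1| ..`: `‖R t x - eqt 0‖ <= x`), against `hfar`; for
`s` in `[u,v]`: by `tg_back` `γ s = fr (cos r, - sin r, 0)`, `r = v - s`, so `cos r = cos x`, `r = x` (both in `[0,pi)`), `- sin x = sin x Y_t`, `Y_t = -1`: no.
`conn_turn2`: apply `conn_turn` to `γ` and `γ'`, and `conn_straight` to the two straightened arcs. -/

open scoped RealInnerProductSpace
open Set

namespace Pool.Agent.H59.HF

/-- `γ` on `[0,v]`, then straight on -/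
noncomputable def strt (γ : ℝ → E3) (u v s : ℝ) : E3 :=
  if s ≤ v then γ s else Real.cos (s - v) • γ v + Real.sin (s - v) • tg γ u v

private noncomputable def tE1 : E3 := !₂[0, 1, 0]
private noncomputable def tE2 : E3 := !₂[0, 0, 1]

private theorem turn_inner (a b c a' b' c' : ℝ) :
    ⟪(!₂[a, b, c] : E3), (!₂[a', b', c'] : E3)⟫ = a * a' + b * b' + c * c' := by
  simp [PiLp.inner_apply, Fin.sum_univ_three]
  ring

private theorem turn_geo_eqt (s t : ℝ) : Geo eqt s t := by
  refine ⟨eqt s, eqt (s + Real.pi / 2), eqt_norm _, eqt_norm _, ?_, fun x _ => ?_⟩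
  · unfold eqt
    rw [turn_inner, Real.cos_add_pi_div_two, Real.sin_add_pi_div_two]
    ring
  · unfold eqt
    rw [Real.cos_add_pi_div_two, Real.sin_add_pi_div_two]
    ext i
    fin_cases i
    · simp
      have := Real.cos_add (x - s) s
      rw [sub_add_cancel] at this
      rw [this]
      ring
    · simp
      have := Real.sin_add (x - s) s
      rw [sub_add_cancel] at this
      rw [this]
      ring
    · simp

private theorem turn_fr0 {p q : E3} : fr p q (eqt 0) = p := by
  rw [fr_eqt, Real.cos_zero, Real.sin_zero, one_smul, zero_smul, add_zero]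

private theorem turn_fr1 {p q : E3} : fr p q tE1 = q := by
  unfold tE1
  rw [fr_vec]
  simp

private theorem turn_fr2 {p q : E3} : fr p q tE2 = crp p q := by
  unfold tE2
  rw [fr_vec]
  simp

private theorem turn_eqt0 : eqt 0 = !₂[1, 0, 0] := by
  unfold eqt
  simp

/-- the turned piece -/
private noncomputable def tR (Y Z : ℝ) (x : ℝ) : E3 :=
  Real.cos x • eqt 0 + Real.sin x • (Y • tE1 + Z • tE2)

private theorem tR_coord (Y Z x : ℝ) : tR Y Z x = !₂[Real.cos x, Real.sin x * Y, Real.sin x * Z] := by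
  unfold tR tE1 tE2
  rw [turn_eqt0]
  ext i
  fin_cases i <;> simp

private theorem tR_geo {Y Z : ℝ} (h : Y ^ 2 + Z ^ 2 = 1) (s t : ℝ) : Geo (tR Y Z) s t := by
  have h0 : Geo (tR Y Z) (min 0 s) t := by
    have e1 : ∀ x, tR Y Z x = !₂[Real.cos x, Real.sin x * Y, Real.sin x * Z] := tR_coord Y Z
    set c := min 0 s with hc
    refine ⟨tR Y Z c, !₂[-Real.sin c, Real.cos c * Y, Real.cos c * Z], ?_, ?_, ?_, fun x _ => ?_⟩
    · have h1 : ‖tR Y Z c‖ ^ 2 = 1 := by
        rw [← real_inner_self_eq_norm_sq, e1, turn_inner]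
        have := Real.sin_sq_add_cos_sq c
        linear_combination Real.sin c ^ 2 * h + this
      nlinarith [norm_nonneg (tR Y Z c)]
    · have h1 : ‖(!₂[-Real.sin c, Real.cos c * Y, Real.cos c * Z] : E3)‖ ^ 2 = 1 := by
        rw [← real_inner_self_eq_norm_sq, turn_inner]
        have := Real.sin_sq_add_cos_sq c
        linear_combination Real.cos c ^ 2 * h + this
      nlinarith [norm_nonneg (!₂[-Real.sin c, Real.cos c * Y, Real.cos c * Z] : E3)]
    · rw [e1, turn_inner]
      linear_combination Real.sin c * Real.cos c * h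
    · rw [e1, e1]
      have q1 := Real.cos_add (x - c) c
      have q2 := Real.sin_add (x - c) c
      rw [sub_add_cancel] at q1 q2
      ext i
      fin_cases i
      · simp
        rw [q1]
        ring
      · simp
        rw [q2]
        ring
      · simp
        rw [q2]
        ring
  exact h0.sub (min_le_right _ _) le_rfl

private theorem tR_pg {Y Z : ℝ} (h : Y ^ 2 + Z ^ 2 = 1) (l : ℝ) : PG ∅ l (tR Y Z) :=
  fun s t _ _ _ _ => tR_geo h s t

theorem conn_turn {γ : ℝ → E3} {B : Finset ℝ} {u v T : ℝ} (hu : 0 ≤ u) (huv : u < v)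
    (hvT : v < T) (hv : v - u < Real.pi) (hT : T - v < Real.pi) (hi : InjOn γ (Icc 0 T))
    (hp : PG B T γ) (hg : Geo γ u v) (hg2 : Geo γ v T)
    (hfar : ∀ s ∈ Icc 0 u, T - v < ‖γ s - γ v‖) : Conn T γ (strt γ u v) := by
  have hon : ON (γ v) (tg γ u v) := tg_on hg huv hv
  set q := tg γ u v with hq
  obtain ⟨p', q1, hp1, hq1, hpq, hform⟩ := hg2
  have hp' : γ v = p' := by
    have := hform v ⟨le_rfl, hvT.le⟩
    rw [sub_self, Real.cos_zero, Real.sin_zero, one_smul, zero_smul, add_zero] at this
    exact this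
  subst hp'
  obtain ⟨w, hw⟩ := fr_surj hon q1
  obtain ⟨X, Y, Z, rfl⟩ : ∃ X Y Z : ℝ, w = !₂[X, Y, Z] := by
    refine ⟨w 0, w 1, w 2, ?_⟩
    ext i
    fin_cases i <;> simp
  have hX : X = 0 := by
    have h1 := fr_inner hon (eqt 0) !₂[X, Y, Z]
    rw [hw, turn_fr0, hpq, turn_eqt0, turn_inner] at h1
    linarith
  subst hX
  have hYZ : Y ^ 2 + Z ^ 2 = 1 := by
    have h1 := fr_inner hon (!₂[0, Y, Z] : E3) !₂[0, Y, Z]
    rw [hw, real_inner_self_eq_norm_sq, hq1, turn_inner] at h1
    linarith
  have hq1' : q1 = Y • q + Z • crp (γ v) q := by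
    rw [← hw, fr_vec, zero_smul, zero_add]
  have hne : ¬ (Y = -1 ∧ Z = 0) := by
    rintro ⟨rfl, rfl⟩
    have hr0 : 0 < min (v - u) (T - v) := lt_min (by linarith) (by linarith)
    set r := min (v - u) (T - v) with hr
    have hr1 : r ≤ v - u := min_le_left _ _
    have hr2 : r ≤ T - v := min_le_right _ _
    have h1 := hform (v + r) ⟨by linarith, by linarith⟩
    have h2 := tg_back hg huv hv (s := v - r) ⟨by linarith, by linarith⟩
    rw [add_sub_cancel_left, hq1'] at h1
    rw [sub_sub_cancel] at h2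
    have h3 : γ (v + r) = γ (v - r) := by
      rw [h1, h2]
      module
    have h4 := hi ⟨by linarith, by linarith⟩ ⟨by linarith, by linarith⟩ h3
    linarith
  -- the rotating direction
  let a : ℝ → ℝ := fun t => (1 - t) * Y + t
  let b : ℝ → ℝ := fun t => (1 - t) * Z
  let n : ℝ → ℝ := fun t => Real.sqrt (a t ^ 2 + b t ^ 2)
  have hac : Continuous a := by fun_prop
  have hbc : Continuous b := by fun_prop
  have hnc : Continuous n := by fun_prop
  -- not on the negative axis
  have hab : ∀ t ∈ Icc (0 : ℝ) 1, b t = 0 → 0 < a t := by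
    intro t ht hb
    rcases mul_eq_zero.1 (show (1 - t) * Z = 0 from hb) with h1 | h1
    · change 0 < (1 - t) * Y + t
      rw [h1]
      linarith
    · subst h1
      have h2 : (Y - 1) * (Y + 1) = 0 := by linarith
      rcases mul_eq_zero.1 h2 with h3 | h3
      · have h4 : Y = 1 := by linarith
        change 0 < (1 - t) * Y + t
        rw [h4]
        linarith
      · exact absurd ⟨by linarith, rfl⟩ hne
  have hn2 : ∀ t ∈ Icc (0 : ℝ) 1, 0 < a t ^ 2 + b t ^ 2 := by
    intro t ht
    by_cases hb : b t = 0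
    · have := hab t ht hb
      positivity
    · positivity
  have hnpos : ∀ t ∈ Icc (0 : ℝ) 1, 0 < n t := fun t ht => Real.sqrt_pos.2 (hn2 t ht)
  have hnsq : ∀ t ∈ Icc (0 : ℝ) 1, n t ^ 2 = a t ^ 2 + b t ^ 2 := fun t ht =>
    Real.sq_sqrt (hn2 t ht).le
  have hcirc : ∀ t ∈ Icc (0 : ℝ) 1, (a t / n t) ^ 2 + (b t / n t) ^ 2 = 1 := by
    intro t ht
    rw [div_pow, div_pow, ← add_div, ← hnsq t ht, div_self]
    exact (pow_pos (hnpos t ht) 2).ne'
  have hY1 : ∀ t ∈ Icc (0 : ℝ) 1, a t / n t ≠ -1 := by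
    intro t ht h
    have h1 : a t = - n t := by
      rw [div_eq_iff (hnpos t ht).ne'] at h
      linarith
    have h2 : b t ^ 2 = 0 := by
      have := hnsq t ht
      rw [h1] at this
      linarith
    have h3 : b t = 0 := by
      exact pow_eq_zero_iff (two_ne_zero) |>.1 h2
    have h4 := hab t ht h3
    linarith [hnpos t ht]
  have hl0 : 0 ≤ T - v := by linarith
  have hv0 : 0 ≤ v := by linarith
  have hγc := hp.cont
  have key := conn_join (v := v) (l := T - v) hv0 hl0 (BL := B) (BR := ∅)
    (L := fun _ => γ) (R := fun t => tR (a t / n t) (b t / n t)) (q := fun _ => q)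
    (by
      refine ContinuousOn.comp (t := Icc 0 T) hγc continuousOn_snd ?_
      intro z hz
      exact ⟨hz.2.1, hz.2.2.trans hvT.le⟩)
    (fun t _ => hi.mono (Icc_subset_Icc_right hvT.le))
    (fun t _ => hp.restrict hvT.le)
    continuousOn_const (fun t _ => hon)
    (by
      have h1 : ContinuousOn (fun z : ℝ × ℝ => a z.1 / n z.1) (Icc 0 1 ×ˢ Icc 0 (T - v)) := by
        refine ContinuousOn.div (hac.comp continuous_fst).continuousOn
          (hnc.comp continuous_fst).continuousOn ?_
        intro z hz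
        exact (hnpos z.1 hz.1).ne'
      have h2 : ContinuousOn (fun z : ℝ × ℝ => b z.1 / n z.1) (Icc 0 1 ×ˢ Icc 0 (T - v)) := by
        refine ContinuousOn.div (hbc.comp continuous_fst).continuousOn
          (hnc.comp continuous_fst).continuousOn ?_
        intro z hz
        exact (hnpos z.1 hz.1).ne'
      have h3 : ContinuousOn (fun z : ℝ × ℝ => Real.cos z.2) (Icc 0 1 ×ˢ Icc 0 (T - v)) :=
        (Real.continuous_cos.comp continuous_snd).continuousOn
      have h4 : ContinuousOn (fun z : ℝ × ℝ => Real.sin z.2) (Icc 0 1 ×ˢ Icc 0 (T - v)) :=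
        (Real.continuous_sin.comp continuous_snd).continuousOn
      exact (h3.smul continuousOn_const).add (h4.smul
        ((h1.smul continuousOn_const).add (h2.smul continuousOn_const))))
    (fun t ht => (tR_geo (hcirc t ht) 0 (T - v)).injOn (by linarith [Real.pi_pos]))
    (fun t ht => tR_pg (hcirc t ht) (T - v))
    (fun t _ => by
      unfold tR
      rw [Real.cos_zero, Real.sin_zero, one_smul, zero_smul, add_zero])
    (by
      intro t ht s hs x hx heq
      have hgeo := tR_geo (hcirc t ht) 0 (T - v)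
      have hR0 : tR (a t / n t) (b t / n t) 0 = eqt 0 := by
        unfold tR
        rw [Real.cos_zero, Real.sin_zero, one_smul, zero_smul, add_zero]
      rcases le_or_gt s u with hsu | hsu
      · have h1 := hfar s ⟨hs.1, hsu⟩
        have h2 : ‖γ s - γ v‖ ≤ |x - 0| := by
          have h3 : γ s - γ v = fr (γ v) q (tR (a t / n t) (b t / n t) x -
              tR (a t / n t) (b t / n t) 0) := by
            rw [fr_sub, ← heq, hR0, turn_fr0]
          rw [h3, fr_norm hon]
          exact hgeo.dist_le ⟨hx.1.le, hx.2⟩ ⟨le_rfl, hl0⟩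
        rw [sub_zero, abs_of_pos hx.1] at h2
        linarith [hx.2]
      · have h1 := tg_back hg huv hv (s := s) ⟨hsu.le, hs.2⟩
        have h2 : γ s = fr (γ v) q !₂[Real.cos (v - s), -Real.sin (v - s), 0] := by
          rw [h1, fr_vec]
          module
        rw [h2, tR_coord] at heq
        have h3 := fr_inj hon heq
        have e0 : Real.cos (v - s) = Real.cos x := by
          have := congrArg (fun w : E3 => w 0) h3
          simpa using this
        have e1 : -Real.sin (v - s) = Real.sin x * (a t / n t) := by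
          have := congrArg (fun w : E3 => w 1) h3
          simpa using this
        have hx2 : x ≤ Real.pi := by linarith [hx.2]
        have h4 : v - s = x := by
          refine Real.injOn_cos ⟨?_, ?_⟩ ⟨hx.1.le, hx2⟩ e0
          · linarith [hs.2]
          · linarith
        rw [h4] at e1
        have h5 : 0 < Real.sin x := Real.sin_pos_of_pos_of_lt_pi hx.1 (by linarith [hx.2])
        apply hY1 t ht
        have h6 : Real.sin x * (a t / n t) = Real.sin x * (-1) := by linarith
        exact mul_left_cancel₀ h5.ne' h6)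
  rw [add_sub_cancel] at key
  refine key.congr ?_ ?_
  · intro x hx
    unfold jn
    split_ifs with hxv
    · rfl
    · push Not at hxv
      have a0 : a 0 = Y := by change (1 - 0) * Y + 0 = Y; ring
      have b0 : b 0 = Z := by change (1 - 0) * Z = Z; ring
      have n0 : n 0 = 1 := by
        change Real.sqrt (a 0 ^ 2 + b 0 ^ 2) = 1
        rw [a0, b0, hYZ, Real.sqrt_one]
      rw [hform x ⟨hxv.le, hx.2⟩, hq1']
      simp only [a0, b0, n0, div_one]
      unfold tR
      rw [fr_add, fr_smul, fr_smul, fr_add, fr_smul, fr_smul, turn_fr0, turn_fr1, turn_fr2]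
  · intro x hx
    unfold jn strt
    split_ifs with hxv
    · rfl
    · have a1 : a 1 = 1 := by change (1 - 1) * Y + 1 = 1; ring
      have b1 : b 1 = 0 := by change (1 - 1) * Z = 0; ring
      have n1 : n 1 = 1 := by
        change Real.sqrt (a 1 ^ 2 + b 1 ^ 2) = 1
        rw [a1, b1]
        norm_num
      simp only [a1, b1, n1, div_one]
      unfold tR
      rw [fr_add, fr_smul, fr_smul, fr_add, fr_smul, fr_smul, turn_fr0, turn_fr1, one_smul,
        zero_smul, add_zero]

theorem strt_geo {γ : ℝ → E3} {u v T : ℝ} (huv : u < v) (hvT : v < T)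
    (hv : v - u < Real.pi) (hg : Geo γ u v) : Geo (strt γ u v) u T := by
  have hon : ON (γ v) (tg γ u v) := tg_on hg huv hv
  have h1 : Geo (fun x => fr (γ v) (tg γ u v) (eqt (x - v))) (u - v + v) (T - v + v) :=
    ((turn_geo_eqt (u - v) (T - v)).shift v).fr hon
  rw [sub_add_cancel, sub_add_cancel] at h1
  refine h1.congr fun x hx => ?_
  rw [fr_eqt]
  unfold strt
  split_ifs with hxv
  · rw [tg_back hg huv hv ⟨hx.1, hxv⟩, show v - x = -(x - v) by ring, Real.cos_neg, Real.sin_neg]
    module
  · rfl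

theorem conn_turn2 {γ γ' : ℝ → E3} {B B' : Finset ℝ} {u v T : ℝ} (hu : 0 ≤ u) (huv : u < v)
    (hvT : v < T) (hv : v - u < Real.pi) (hT : T - v < Real.pi) (hi : InjOn γ (Icc 0 T))
    (hp : PG B T γ) (hg : Geo γ u v) (hg2 : Geo γ v T)
    (hfar : ∀ s ∈ Icc 0 u, T - v < ‖γ s - γ v‖) (hi' : InjOn γ' (Icc 0 T))
    (hp' : PG B' T γ') (hg' : Geo γ' u v) (hg2' : Geo γ' v T)
    (hfar' : ∀ s ∈ Icc 0 u, T - v < ‖γ' s - γ' v‖) (hc : Conn v γ γ') : Conn T γ γ' := by
  have c1 := conn_turn hu huv hvT hv hT hi hp hg hg2 hfar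
  have c2 := conn_turn hu huv hvT hv hT hi' hp' hg' hg2' hfar'
  have g1 := strt_geo (T := T) huv hvT hv hg
  have g2 := strt_geo (T := T) huv hvT hv hg'
  obtain ⟨B1, Γ1, hΓ1⟩ := id c1
  obtain ⟨B2, Γ2, hΓ2⟩ := id c2
  obtain ⟨i1, p1⟩ := hΓ1.right
  obtain ⟨i2, p2⟩ := hΓ2.right
  have c3 : Conn v (strt γ u v) (strt γ' u v) := by
    refine hc.congr (fun x hx => ?_) (fun x hx => ?_)
    · unfold strt
      rw [if_pos hx.2]
    · unfold strt
      rw [if_pos hx.2]
  exact (c1.trans (conn_straight hu huv hvT hT i1 p1 g1 i2 p2 g2 c3)).trans c2.symm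

end Pool.Agent.H59.HF
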