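import Pool.Agent.H59.HF.FrA

/-! MODULE ZigA. The vertices of the zigzag. `c = zc h lam`, `s = zs h lam`; `0 < lam <= h < pi`. -/

open scoped RealInnerProductSpace
open Set

namespace Pool.Agent.H59.HF

variable {h lam : ℝ}

private lemma ziga_inner (p q : E3) : ⟪p, q⟫ = p 0 * q 0 + p 1 * q 1 + p 2 * q 2 := by
  rw [PiLp.inner_apply, Fin.sum_univ_three]
  simp only [RCLike.inner_apply, conj_trivial]
  ring

private lemma ziga_norm_sq (p : E3) : ‖p‖ ^ 2 = p 0 ^ 2 + p 1 ^ 2 + p 2 ^ 2 := by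
  rw [← real_inner_self_eq_norm_sq, ziga_inner]
  ring

private lemma ziga_cos_h (hl : 0 < lam) (hle : lam ≤ h) (hπ : h < Real.pi) :
    0 < Real.cos (h / 2) :=
  Real.cos_pos_of_mem_Ioo ⟨by linarith, by linarith⟩

private lemma ziga_cos_l (hl : 0 < lam) (hle : lam ≤ h) (hπ : h < Real.pi) :
    0 < Real.cos (lam / 2) :=
  Real.cos_pos_of_mem_Ioo ⟨by linarith, by linarith⟩

theorem zc_pos (hl : 0 < lam) (hle : lam ≤ h) (hπ : h < Real.pi) : 0 < zc h lam :=
  div_pos (ziga_cos_h hl hle hπ) (ziga_cos_l hl hle hπ)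

theorem zc_le (hl : 0 < lam) (hle : lam ≤ h) (hπ : h < Real.pi) : zc h lam ≤ 1 := by
  rw [zc, div_le_one (ziga_cos_l hl hle hπ)]
  exact Real.cos_le_cos_of_nonneg_of_le_pi (by linarith) (by linarith) (by linarith)

theorem zs_nonneg : 0 ≤ zs h lam := Real.sqrt_nonneg _

theorem zs_sq (hl : 0 < lam) (hle : lam ≤ h) (hπ : h < Real.pi) :
    zs h lam ^ 2 = 1 - zc h lam ^ 2 := by
  have h1 := zc_pos hl hle hπ
  have h2 := zc_le hl hle hπ
  rw [zs, Real.sq_sqrt]
  nlinarith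

theorem zs_le (hl : 0 < lam) (hle : lam ≤ h) (hπ : h < Real.pi) : zs h lam ≤ h / 2 := by
  have h1 := ziga_cos_h hl hle hπ
  have h2 := ziga_cos_l hl hle hπ
  have h3 : Real.cos (h / 2) ≤ zc h lam := by
    rw [zc, le_div_iff₀ h2]
    have := Real.cos_le_one (lam / 2)
    nlinarith
  have h4 : 0 ≤ Real.sin (h / 2) :=
    Real.sin_nonneg_of_nonneg_of_le_pi (by linarith) (by linarith)
  have h5 : zs h lam ≤ Real.sin (h / 2) := by
    rw [zs]
    apply Real.sqrt_le_iff.mpr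
    refine ⟨h4, ?_⟩
    have := Real.sin_sq_add_cos_sq (h / 2)
    nlinarith
  exact h5.trans (Real.sin_le (by linarith))

theorem zc_id (hl : 0 < lam) (hle : lam ≤ h) (hπ : h < Real.pi) :
    zc h lam ^ 2 * (1 + Real.cos lam) = 1 + Real.cos h := by
  have h2 := (ziga_cos_l hl hle hπ).ne'
  have e1 : Real.cos lam = 2 * Real.cos (lam / 2) ^ 2 - 1 := by
    rw [← Real.cos_two_mul]
    congr 1
    ring
  have e2 : Real.cos h = 2 * Real.cos (h / 2) ^ 2 - 1 := by
    rw [← Real.cos_two_mul]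
    congr 1
    ring
  rw [e1, e2, zc]
  field_simp
  ring

private lemma ziga_sign (k : ℕ) : ((-1 : ℝ) ^ k) ^ 2 = 1 := by
  rw [← pow_mul, mul_comm, pow_mul]
  norm_num

private lemma zw_apply0 (k : ℕ) : zw h lam k 0 =
    zc h lam ^ 2 * Real.cos (k * lam) + (-1) ^ k * zs h lam ^ 2 := rfl

private lemma zw_apply1 (k : ℕ) : zw h lam k 1 = zc h lam * Real.sin (k * lam) := rfl

private lemma zw_apply2 (k : ℕ) : zw h lam k 2 =
    zs h lam * zc h lam * ((-1) ^ k - Real.cos (k * lam)) := rfl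

private lemma eqt_apply0 (x : ℝ) : eqt x 0 = Real.cos x := rfl

private lemma eqt_apply1 (x : ℝ) : eqt x 1 = Real.sin x := rfl

private lemma eqt_apply2 (x : ℝ) : eqt x 2 = 0 := rfl

theorem zw_norm (hl : 0 < lam) (hle : lam ≤ h) (hπ : h < Real.pi) (k : ℕ) :
    ‖zw h lam k‖ = 1 := by
  have h0 := ziga_norm_sq (zw h lam k)
  rw [zw_apply0, zw_apply1, zw_apply2] at h0
  have hs := zs_sq hl hle hπ
  have he := ziga_sign k
  have ht := Real.sin_sq_add_cos_sq (k * lam)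
  set c := zc h lam
  set s := zs h lam
  set C := Real.cos (k * lam)
  set S := Real.sin (k * lam)
  set e : ℝ := (-1) ^ k
  have h1 : ‖zw h lam k‖ ^ 2 = 1 := by
    rw [h0]
    have hS : S ^ 2 = 1 - C ^ 2 := by linarith
    have : (c ^ 2 * C + e * s ^ 2) ^ 2 + (c * S) ^ 2 + (s * c * (e - C)) ^ 2 =
        c ^ 4 * C ^ 2 + 2 * c ^ 2 * e * C * s ^ 2 + e ^ 2 * (s ^ 2) ^ 2 + c ^ 2 * S ^ 2 +
          s ^ 2 * c ^ 2 * (e ^ 2 - 2 * e * C + C ^ 2) := by ring
    rw [this, hS, he, hs]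
    ring
  have h2 : (‖zw h lam k‖ - 1) * (‖zw h lam k‖ + 1) = 0 := by linarith [h1]
  rcases mul_eq_zero.mp h2 with h3 | h3
  · linarith
  · have := norm_nonneg (zw h lam k)
    linarith

theorem zw_inner (hl : 0 < lam) (hle : lam ≤ h) (hπ : h < Real.pi) (k : ℕ) :
    ⟪zw h lam k, zw h lam (k + 1)⟫ = Real.cos h := by
  rw [ziga_inner, zw_apply0, zw_apply1, zw_apply2, zw_apply0, zw_apply1, zw_apply2]
  have hs := zs_sq hl hle hπ
  have he := ziga_sign k
  have hid := zc_id hl hle hπ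
  have hc : Real.cos ((k + 1 : ℕ) * lam) * Real.cos (k * lam) +
      Real.sin ((k + 1 : ℕ) * lam) * Real.sin (k * lam) = Real.cos lam := by
    rw [← Real.cos_sub]
    congr 1
    push_cast
    ring
  rw [pow_succ (-1 : ℝ) k]
  set c := zc h lam
  set s := zs h lam
  set C := Real.cos (k * lam)
  set S := Real.sin (k * lam)
  set C' := Real.cos ((k + 1 : ℕ) * lam)
  set S' := Real.sin ((k + 1 : ℕ) * lam)
  set e : ℝ := (-1) ^ k
  have h1 : (c ^ 2 * C + e * s ^ 2) * (c ^ 2 * C' + e * -1 * s ^ 2) + c * S * (c * S') +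
      s * c * (e - C) * (s * c * (e * -1 - C')) =
      c ^ 4 * C * C' - c ^ 2 * C * e * s ^ 2 + c ^ 2 * C' * e * s ^ 2 - e ^ 2 * (s ^ 2) ^ 2 +
        c ^ 2 * (S * S') + s ^ 2 * c ^ 2 * (-e ^ 2 - e * C' + e * C + C * C') := by ring
  have h2 : S * S' = Real.cos lam - C * C' := by linarith
  rw [h1, h2, he, hs]
  linear_combination hid

theorem zw_zero (hl : 0 < lam) (hle : lam ≤ h) (hπ : h < Real.pi) : zw h lam 0 = eqt 0 := by
  have hs := zs_sq hl hle hπ
  ext i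
  fin_cases i
  · change zw h lam 0 0 = eqt 0 0
    rw [zw_apply0, eqt_apply0]
    simp [hs]
  · change zw h lam 0 1 = eqt 0 1
    rw [zw_apply1, eqt_apply1]
    simp
  · change zw h lam 0 2 = eqt 0 2
    rw [zw_apply2, eqt_apply2]
    simp

theorem zw_self (hh : 0 < h) (hπ : h < Real.pi) (k : ℕ) : zw h h k = eqt (k * h) := by
  have hc : zc h h = 1 := by
    rw [zc]
    exact div_self (ziga_cos_h hh le_rfl hπ).ne'
  have hs : zs h h = 0 := by
    rw [zs, hc]
    simp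
  ext i
  fin_cases i
  · change zw h h k 0 = eqt (k * h) 0
    rw [zw_apply0, eqt_apply0, hc, hs]
    ring
  · change zw h h k 1 = eqt (k * h) 1
    rw [zw_apply1, eqt_apply1, hc]
    ring
  · change zw h h k 2 = eqt (k * h) 2
    rw [zw_apply2, eqt_apply2, hs]
    ring

theorem zw_near (hl : 0 < lam) (hle : lam ≤ h) (hπ : h < Real.pi) (k : ℕ) :
    ‖zw h lam k - eqt (k * lam)‖ ≤ 3 * h := by
  have h0 := ziga_norm_sq (zw h lam k - eqt (k * lam))
  have a0 : (zw h lam k - eqt (k * lam)) 0 = zw h lam k 0 - eqt (k * lam) 0 := rfl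
  have a1 : (zw h lam k - eqt (k * lam)) 1 = zw h lam k 1 - eqt (k * lam) 1 := rfl
  have a2 : (zw h lam k - eqt (k * lam)) 2 = zw h lam k 2 - eqt (k * lam) 2 := rfl
  rw [a0, a1, a2, zw_apply0, zw_apply1, zw_apply2, eqt_apply0, eqt_apply1, eqt_apply2] at h0
  have hs := zs_sq hl hle hπ
  have hs0 : 0 ≤ zs h lam := zs_nonneg
  have hs2 := zs_le hl hle hπ
  have hc0 := zc_pos hl hle hπ
  have hc1 := zc_le hl hle hπ
  have he := ziga_sign k
  have ht := Real.sin_sq_add_cos_sq (k * lam)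
  have hC1 := Real.neg_one_le_cos (k * lam)
  have hC2 := Real.cos_le_one (k * lam)
  set c := zc h lam
  set s := zs h lam
  set C := Real.cos (k * lam)
  set S := Real.sin (k * lam)
  set e : ℝ := (-1) ^ k
  have heC : (e - C) ^ 2 ≤ 4 := by
    have e1 : -1 ≤ e ∧ e ≤ 1 := by
      constructor <;> nlinarith
    nlinarith [e1.1, e1.2]
  have h1 : ‖zw h lam k - eqt (k * lam)‖ ^ 2 = s ^ 2 * (e - C) ^ 2 + (1 - c) ^ 2 * S ^ 2 := by
    rw [h0]
    have hc : c ^ 2 = 1 - s ^ 2 := by linarith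
    have h2 : (c ^ 2 * C + e * s ^ 2 - C) ^ 2 + (c * S - S) ^ 2 + (s * c * (e - C) - 0) ^ 2 =
        ((c ^ 2 - 1) * C + e * s ^ 2) ^ 2 + (1 - c) ^ 2 * S ^ 2 + s ^ 2 * c ^ 2 * (e - C) ^ 2 := by
      ring
    rw [h2, hc]
    ring
  have h3 : (1 - c) ^ 2 ≤ s ^ 2 := by nlinarith
  have h4 : S ^ 2 ≤ 1 := by nlinarith [sq_nonneg C]
  have h5 : (1 - c) ^ 2 * S ^ 2 ≤ s ^ 2 := by
    calc (1 - c) ^ 2 * S ^ 2 ≤ (1 - c) ^ 2 * 1 :=
          mul_le_mul_of_nonneg_left h4 (sq_nonneg _)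
      _ ≤ s ^ 2 := by linarith
  have h6 : s ^ 2 * (e - C) ^ 2 ≤ s ^ 2 * 4 := mul_le_mul_of_nonneg_left heC (sq_nonneg _)
  have h7 : s ^ 2 ≤ (h / 2) ^ 2 := by
    apply pow_le_pow_left₀ hs0 hs2
  have h8 : ‖zw h lam k - eqt (k * lam)‖ ^ 2 ≤ (3 * h) ^ 2 := by
    rw [h1]
    have h9 : (h / 2) ^ 2 = h ^ 2 / 4 := by ring
    have h10 : (3 * h) ^ 2 = 9 * h ^ 2 := by ring
    have h11 := sq_nonneg h
    rw [h9] at h7
    rw [h10]
    linarith
  exact le_trans (le_abs_self _) (abs_le_of_sq_le_sq h8 (by linarith))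

theorem zw_cont (hh : 0 < h) (hπ : h < Real.pi) (k : ℕ) :
    ContinuousOn (fun lam => zw h lam k) (Ioc 0 h) := by
  have hc : ContinuousOn (fun lam => zc h lam) (Ioc 0 h) := by
    refine ContinuousOn.div continuousOn_const
      (Real.continuous_cos.comp (continuous_id.div_const 2)).continuousOn ?_
    intro x hx
    exact (ziga_cos_l hx.1 hx.2 hπ).ne'
  have hs : ContinuousOn (fun lam => zs h lam) (Ioc 0 h) :=
    Real.continuous_sqrt.comp_continuousOn (continuousOn_const.sub (hc.pow 2))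
  have hcos : ContinuousOn (fun lam : ℝ => Real.cos (k * lam)) (Ioc 0 h) :=
    (Real.continuous_cos.comp (continuous_const.mul continuous_id)).continuousOn
  have hsin : ContinuousOn (fun lam : ℝ => Real.sin (k * lam)) (Ioc 0 h) :=
    (Real.continuous_sin.comp (continuous_const.mul continuous_id)).continuousOn
  have h3 : ContinuousOn (fun lam => ![zc h lam ^ 2 * Real.cos (k * lam) + (-1) ^ k * zs h lam ^ 2,
      zc h lam * Real.sin (k * lam),
      zs h lam * zc h lam * ((-1) ^ k - Real.cos (k * lam))]) (Ioc 0 h) := by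
    rw [continuousOn_pi]
    intro i
    fin_cases i
    · exact ((hc.pow 2).mul hcos).add (continuousOn_const.mul (hs.pow 2))
    · exact hc.mul hsin
    · exact (hs.mul hc).mul (continuousOn_const.sub hcos)
  exact (PiLp.continuous_toLp 2 (fun _ : Fin 3 => ℝ)).comp_continuousOn h3

end Pool.Agent.H59.HF
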