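import Pool.Agent.H59.HF.ZigA
import Pool.Agent.H59.HF.PGA

/-! MODULE ZigB (about 200 lines). The zigzag is a piecewise geodesic arc.

`zig_seg`: on `[k h, (k+1) h]` only the hats `k` and `k+1` are not zero: for `j <= k-1` or `j >= k+2` one has `|x - j h| >= h`, `hat = sin 0 / sin h = 0`;
`hat h k x = sin ((k+1) h - x) / sin h`, `hat h (k+1) x = sin (x - k h) / sin h`. `Finset.sum_eq_add` or `Finset.sum_subset` from `{k, k+1}`.
`zig_geo`: with `p = zw k`, `q = (zw (k+1) - cos h p) / sin h` (orthonormal by `zw_inner`), `x' = x - k h`: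
`sin (h - x') p + sin x' zw (k+1) = sin h (cos x' p + sin x' q)`. `zig_pg`: like `pg_of_pieces` with `σ i = i h` (if `M = 0` then `[0,0]`, `zig = zw 0`).
You may use `pg_of_pieces` of `PGA` for `M = n + 1`. `zig_self`: `zig_seg` and `zw_self`, `sin_sub`. `zig_cont`: finite sum of continuous functions
(`zw_cont`; `hat` is continuous in `x`). -/

open scoped RealInnerProductSpace
open Set

namespace Pool.Agent.H59.HF

variable {h lam x : ℝ} {M k : ℕ}

theorem hat_left (hx : x ∈ Icc (k * h) ((k + 1) * h)) :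
    hat h k x = Real.sin ((k + 1) * h - x) / Real.sin h := by
  unfold hat
  have h1 : |x - k * h| = x - k * h := abs_of_nonneg (by linarith [hx.1])
  rw [h1, max_eq_right (by linarith [hx.2])]
  congr 2
  ring

theorem hat_right (hx : x ∈ Icc (k * h) ((k + 1) * h)) :
    hat h (k + 1) x = Real.sin (x - k * h) / Real.sin h := by
  unfold hat
  have h1 : |x - ((k + 1 : ℕ) : ℝ) * h| = (k + 1) * h - x := by
    rw [abs_of_nonpos (by push_cast; linarith [hx.2])]
    push_cast
    ring
  rw [h1, max_eq_right (by linarith [hx.1])]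
  congr 2
  ring

theorem hat_zero_of_lt {j : ℕ} (hh : 0 ≤ h) (hj : j < k) (hx : x ∈ Icc (k * h) ((k + 1) * h)) :
    hat h j x = 0 := by
  unfold hat
  have h2 : (j : ℝ) + 1 ≤ k := by exact_mod_cast hj
  have h3 : h ≤ x - j * h := by nlinarith [hx.1]
  rw [max_eq_left (by linarith [le_abs_self (x - j * h)]), Real.sin_zero, zero_div]

theorem hat_zero_of_gt {j : ℕ} (hh : 0 ≤ h) (hj : k + 1 < j)
    (hx : x ∈ Icc (k * h) ((k + 1) * h)) : hat h j x = 0 := by
  unfold hat
  have h2 : (k : ℝ) + 1 + 1 ≤ j := by exact_mod_cast hj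
  have h3 : h ≤ -(x - j * h) := by nlinarith [hx.2]
  rw [max_eq_left (by linarith [neg_le_abs (x - j * h)]), Real.sin_zero, zero_div]

theorem zig_seg (hl : 0 < lam) (hle : lam ≤ h) (hπ : h < Real.pi) (hk : k < M)
    (hx : x ∈ Icc (k * h) ((k + 1) * h)) :
    zig M h lam x = (Real.sin ((k + 1) * h - x) / Real.sin h) • zw h lam k +
      (Real.sin (x - k * h) / Real.sin h) • zw h lam (k + 1) := by
  have hh : 0 ≤ h := by linarith
  unfold zig
  rw [Finset.sum_eq_add k (k + 1) (by omega), hat_left hx, hat_right hx]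
  · intro j _ hj
    rcases lt_or_gt_of_ne hj.1 with h1 | h1
    · rw [hat_zero_of_lt hh h1 hx, zero_smul]
    · rw [hat_zero_of_gt hh (by omega) hx, zero_smul]
  · intro h1
    exact absurd (Finset.mem_range.2 (by omega)) h1
  · intro h1
    exact absurd (Finset.mem_range.2 (by omega)) h1

theorem zig_geo (hl : 0 < lam) (hle : lam ≤ h) (hπ : h < Real.pi) (hk : k < M) :
    Geo (zig M h lam) (k * h) ((k + 1) * h) := by
  have hh : 0 < h := by linarith
  have hs : 0 < Real.sin h := Real.sin_pos_of_pos_of_lt_pi hh hπ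
  have hp := zw_norm hl hle hπ k
  have hp' := zw_norm hl hle hπ (k + 1)
  have hi := zw_inner hl hle hπ k
  have hi' : ⟪zw h lam (k + 1), zw h lam k⟫ = Real.cos h := by rw [real_inner_comm]; exact hi
  have hn : ‖zw h lam (k + 1) - Real.cos h • zw h lam k‖ = Real.sin h := by
    have h1 : ‖zw h lam (k + 1) - Real.cos h • zw h lam k‖ ^ 2 = Real.sin h ^ 2 := by
      rw [norm_sub_sq_real, norm_smul, real_inner_smul_right, hi', hp, hp', Real.norm_eq_abs,
        mul_one, sq_abs, Real.sin_sq]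
      ring
    exact (sq_eq_sq₀ (norm_nonneg _) hs.le).1 h1
  refine Geo.of_eq (p := zw h lam k)
    (q := (Real.sin h)⁻¹ • (zw h lam (k + 1) - Real.cos h • zw h lam k)) ⟨hp, ?_, ?_⟩ ?_
  · rw [norm_smul, hn, norm_inv, Real.norm_eq_abs, abs_of_pos hs, inv_mul_cancel₀ hs.ne']
  · rw [real_inner_smul_right, inner_sub_right, real_inner_smul_right, hi,
      real_inner_self_eq_norm_sq, hp]
    ring
  · intro x hx
    rw [zig_seg hl hle hπ hk hx]
    have h1 : (k + 1) * h - x = h - (x - k * h) := by ring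
    rw [h1, Real.sin_sub, smul_sub, smul_sub, smul_smul, smul_smul, smul_smul]
    have h2 : (Real.sin h * Real.cos (x - k * h) - Real.cos h * Real.sin (x - k * h)) /
        Real.sin h = Real.cos (x - k * h) -
          Real.sin (x - k * h) * ((Real.sin h)⁻¹ * Real.cos h) := by
      field_simp
    rw [h2]
    module

theorem zig_pg (hl : 0 < lam) (hle : lam ≤ h) (hπ : h < Real.pi) (hM : 0 < M) :
    PG ((Finset.range (M + 1)).image fun k : ℕ => (k : ℝ) * h) (M * h) (zig M h lam) := by
  have hh : 0 < h := by linarith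
  obtain ⟨n, rfl⟩ : ∃ n, M = n + 1 := ⟨M - 1, by omega⟩
  refine pg_of_pieces (σ := fun k : ℕ => (k : ℝ) * h) (by simp) ?_ (n := n) ?_
  · intro i
    push_cast
    nlinarith
  · intro i hi
    have := zig_geo hl hle hπ (M := n + 1) (k := i) (by omega)
    simpa using this

theorem exists_seg (hM : 0 < M) (hx : x ∈ Icc 0 (M * h)) :
    ∃ k < M, x ∈ Icc (k * h) ((k + 1) * h) := by
  induction M with
  | zero => omega
  | succ n ih =>
    rcases le_total x (n * h) with h1 | h1
    · rcases Nat.eq_zero_or_pos n with h2 | h2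
      · subst h2
        refine ⟨0, by omega, ?_, ?_⟩
        · simpa using hx.1
        · have := hx.2
          simpa using this
      · obtain ⟨k, hk, hk'⟩ := ih h2 ⟨hx.1, h1⟩
        exact ⟨k, by omega, hk'⟩
    · refine ⟨n, by omega, h1, ?_⟩
      have := hx.2
      push_cast at this
      exact this

theorem zig_zero (hl : 0 < lam) (hle : lam ≤ h) (hπ : h < Real.pi) (hM : 0 < M) :
    zig M h lam 0 = eqt 0 := by
  have hh : 0 < h := by linarith
  have hs : 0 < Real.sin h := Real.sin_pos_of_pos_of_lt_pi hh hπ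
  rw [zig_seg hl hle hπ hM (k := 0) ⟨by simp, by simpa using hh.le⟩, ← zw_zero hl hle hπ]
  simp [hs.ne']

theorem zig_self (hh : 0 < h) (hπ : h < Real.pi) (hM : 0 < M) (hx : x ∈ Icc 0 (M * h)) :
    zig M h h x = eqt x := by
  have hs : 0 < Real.sin h := Real.sin_pos_of_pos_of_lt_pi hh hπ
  obtain ⟨k, hk, hk'⟩ := exists_seg hM hx
  rw [zig_seg hh le_rfl hπ hk hk', zw_self hh hπ, zw_self hh hπ]
  have e1 : (k + 1) * h - x = h - (x - k * h) := by ring
  have e2 : ((k + 1 : ℕ) : ℝ) * h = k * h + h := by push_cast; ring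
  have e3 : x = k * h + (x - k * h) := by ring
  rw [e1, e2]
  generalize hz : x - k * h = z at *
  rw [e3]
  ext i
  fin_cases i
  · simp only [eqt, PiLp.add_apply, PiLp.smul_apply, smul_eq_mul, Fin.zero_eta, Matrix.cons_val_zero,
      PiLp.toLp_apply, Real.cos_add, Real.sin_sub]
    field_simp
    ring
  · simp only [eqt, PiLp.add_apply, PiLp.smul_apply, smul_eq_mul, Fin.mk_one,
      Matrix.cons_val_one, Matrix.cons_val_zero, PiLp.toLp_apply, Real.sin_add, Real.sin_sub]
    field_simp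
    ring
  · simp [eqt]

theorem zig_cont (hh : 0 < h) (hπ : h < Real.pi) :
    ContinuousOn (fun z : ℝ × ℝ => zig M h z.1 z.2) (Ioc 0 h ×ˢ univ) := by
  unfold zig
  refine continuousOn_finsetSum _ fun k _ => ?_
  have h1 : Continuous fun z : ℝ × ℝ => hat h k z.2 := by
    unfold hat
    refine Continuous.div_const ?_ _
    refine Real.continuous_sin.comp ?_
    fun_prop
  have h2 : ContinuousOn (fun z : ℝ × ℝ => zw h z.1 k) (Ioc 0 h ×ˢ univ) :=
    (zw_cont hh hπ k).comp continuousOn_fst fun z hz => hz.1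
  exact h1.continuousOn.smul h2

/-- the zigzag is near to the equator -/
theorem zig_near (hl : 0 < lam) (hle : lam ≤ h) (hπ : h < Real.pi) (hM : 0 < M)
    (hx : x ∈ Icc 0 (M * h)) :
    ∃ y ∈ Icc 0 (M * h), y ≤ M * lam ∧ ‖zig M h lam x - eqt y‖ ≤ 4 * h := by
  have hh : 0 < h := by linarith
  have hs : 0 < Real.sin h := Real.sin_pos_of_pos_of_lt_pi hh hπ
  obtain ⟨k, hk, hk'⟩ := exists_seg hM hx
  have hkM : (k : ℝ) ≤ M := by exact_mod_cast hk.le
  have hk0 : (0 : ℝ) ≤ k := Nat.cast_nonneg k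
  have hz : zig M h lam (k * h) = zw h lam k := by
    rw [zig_seg hl hle hπ hk ⟨le_rfl, by nlinarith⟩]
    have e : (k + 1) * h - k * h = h := by ring
    rw [e, div_self hs.ne', sub_self, Real.sin_zero, zero_div, one_smul, zero_smul, add_zero]
  refine ⟨k * lam, ⟨by positivity, ?_⟩, by nlinarith, ?_⟩
  · exact mul_le_mul hkM hle hl.le (Nat.cast_nonneg M)
  · have h1 := (zig_geo hl hle hπ hk).dist_le hk' ⟨le_rfl, by nlinarith⟩
    rw [hz, abs_of_nonneg (by linarith [hk'.1])] at h1
    have h2 := zw_near hl hle hπ k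
    calc ‖zig M h lam x - eqt (k * lam)‖
        = ‖(zig M h lam x - zw h lam k) + (zw h lam k - eqt (k * lam))‖ := by
          congr 1; abel
      _ ≤ ‖zig M h lam x - zw h lam k‖ + ‖zw h lam k - eqt (k * lam)‖ := norm_add_le _ _
      _ ≤ 4 * h := by linarith [hk'.2]

end Pool.Agent.H59.HF
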